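import Pool.Agent.H898.AutSyl6
import Pool.Agent.H898.AutSer

set_option autoImplicit false

/-! Weighted version of the bound. -/

namespace Pool.Agent.H898.AutSyl

open Subgroup

/-- Weights on simple groups controlling the groups of automorphisms centralizing a Sylow
subgroup. -/
structure Weight (f : (S : Type) → [Group S] → ℕ) : Prop where
  pos : ∀ (S : Type) [Group S] [Finite S], 0 < f S
  iso : IsoInv f
  bound : ∀ (S : Type) [Group S] [Finite S], IsSimpleGroup S → (∃ x y : S, x * y ≠ y * x) →
    ∀ r : ℕ, r.Prime → r ∣ Nat.card S → ∀ (Q : Sylow r S) (R : Subgroup (MulAut S)),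
      IsPGroup r R → (∀ α ∈ R, ∀ x ∈ Q, α x = x) →
      Nat.card R ≤ Nat.card Q * r ^ (f S).factorization r

lemma Ser.pos {f : (S : Type) → [Group S] → ℕ} (hfW : Weight f) {G : Type} [Group G] {w : ℕ}
    (h : Ser f G w) (hG : Finite G) : 0 < w := by
  induction h with
  | one G _ => exact Nat.one_pos
  | step G N w _ _ ih => exact Nat.mul_pos (ih inferInstance) (hfW.pos _)

lemma inf_sup_eq_bot {N : Type} [Group N]
    (hsoc : sSup {T : Subgroup N | MinNormal T} = ⊤) (hc : center N = ⊥)
    {T K : Subgroup N} (hT : MinNormal T) (hK : ∀ x ∈ T, ∀ y ∈ K, x * y = y * x) :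
    T ⊓ K = ⊥ := by
  rw [eq_bot_iff]
  rintro x ⟨hx, hx'⟩
  have h6 : centralizer {x} = ⊤ := by
    apply eq_top_of_minNormal hsoc
    intro T' hT' y hy
    rw [mem_centralizer_singleton_iff]
    by_cases hTT : T' = T
    · subst hTT
      exact hK y hy x hx'
    · exact hT'.commute hT hTT y hy x hx
  have h7 : x ∈ center N := by
    rw [mem_center_iff]
    intro g
    have hg : g ∈ centralizer {x} := by rw [h6]; trivial
    exact mem_centralizer_singleton_iff.mp hg
  rw [hc] at h7
  exact h7

lemma prod_dvd_aux {f : (S : Type) → [Group S] → ℕ} (hfW : Weight f) {N : Type} [Group N]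
    (hsoc : sSup {T : Subgroup N | MinNormal T} = ⊤) (hc : center N = ⊥)
    (F : Finset (Subgroup N)) : (∀ T ∈ F, MinNormal T) →
      (F.sup id).Normal ∧ ∀ u, Ser f (F.sup id : Subgroup N) u → ∏ T ∈ F, f T ∣ u := by
  classical
  induction F using Finset.induction_on with
  | empty =>
    intro _
    refine ⟨?_, fun u _ => by simp⟩
    rw [Finset.sup_empty]
    infer_instance
  | insert T F hTF ih =>
    intro hF
    obtain ⟨ih1, ih2⟩ := ih (fun T' hT' => hF T' (Finset.mem_insert_of_mem hT'))
    have hT := hF T (Finset.mem_insert_self _ _)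
    have hTn := hT.2.1
    rw [Finset.sup_insert, id_eq]
    refine ⟨inferInstance, ?_⟩
    intro u hu
    have hcomm : ∀ x ∈ T, ∀ y ∈ F.sup id, x * y = y * x := by
      intro x hx y hy
      have h1 : F.sup id ≤ centralizer {x} := by
        refine Finset.sup_le (fun T' hT' => ?_)
        intro z hz
        rw [mem_centralizer_singleton_iff]
        exact (hT.commute (hF T' (Finset.mem_insert_of_mem hT')) (fun h => hTF (h ▸ hT'))
          x hx z hz).symm
      exact (mem_centralizer_singleton_iff.mp (h1 hy)).symm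
    have hinf := inf_sup_eq_bot hsoc hc hT hcomm
    obtain ⟨w1, w2, hw1, hw2, hw⟩ := hu.mul hfW.iso ((F.sup id).subgroupOf (T ⊔ F.sup id))
    have h1 : ∏ T ∈ F, f T ∣ w1 :=
      ih2 w1 (hw1.iso hfW.iso _ (subgroupOfEquivOfLe le_sup_right))
    have e1 := QuotientGroup.quotientInfEquivProdNormalQuotient T (F.sup id)
    have hbot : (F.sup id).subgroupOf T = ⊥ := by
      rw [subgroupOf_eq_bot, disjoint_iff, inf_comm]
      exact hinf
    obtain ⟨e2⟩ : Nonempty (T ⧸ (F.sup id).subgroupOf T ≃* T) :=
      iso_of_surj (MonoidHom.id T) Function.surjective_id _ (by rw [hbot]; exact MonoidHom.ker_id)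
    have h2 : w2 = f T :=
      ((hw2.iso hfW.iso _ e1.symm).iso hfW.iso _ e2).of_simple hfW.iso (hT.simple hsoc)
    rw [Finset.prod_insert hTF, hw, h2, mul_comm]
    exact Nat.mul_dvd_mul h1 dvd_rfl

lemma prod_dvd {f : (S : Type) → [Group S] → ℕ} (hfW : Weight f) {N : Type} [Group N] [Finite N]
    (hsoc : sSup {T : Subgroup N | MinNormal T} = ⊤) (hc : center N = ⊥)
    [Fintype {T : Subgroup N // MinNormal T}] (w : ℕ) (hw : Ser f N w) :
    ∏ i : {T : Subgroup N // MinNormal T}, f i.1 ∣ w := by
  classical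
  have hfin : Set.Finite {T : Subgroup N | MinNormal T} := Set.toFinite _
  have h1 := prod_dvd_aux hfW hsoc hc hfin.toFinset (fun T hT => by simpa using hT)
  have h2 : hfin.toFinset.sup id = ⊤ := by
    rw [eq_top_iff, ← hsoc]
    refine sSup_le (fun T hT => ?_)
    exact Finset.le_sup (f := id) (by simpa using hT)
  have h3 := h1.2 w (by
    rw [h2]
    exact hw.iso hfW.iso _ Subgroup.topEquiv.symm)
  have h4 : ∏ i : {T : Subgroup N // MinNormal T}, f i.1 = ∏ T ∈ hfin.toFinset, f T := by
    refine Finset.prod_bij (fun i _ => i.1) ?_ ?_ ?_ ?_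
    · intro i _
      simpa using i.2
    · intro i _ j _ h
      exact Subtype.ext h
    · intro T hT
      exact ⟨⟨T, by simpa using hT⟩, Finset.mem_univ _, rfl⟩
    · intro i _
      rfl
  rw [h4]
  exact h3

/-- Main lemma on characteristically simple groups. -/
lemma bound_of_charSimple' {f : (S : Type) → [Group S] → ℕ} (hfW : Weight f) {N : Type} [Group N] [Finite N] {r : ℕ} [hr : Fact r.Prime]
    (hchar : ∀ U : Subgroup N, U.Characteristic → U = ⊥ ∨ U = ⊤)
    (hna : ∃ x y : N, x * y ≠ y * x) (hO : Core r N)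
    {w : ℕ} (hw : Ser f N w)
    (Q : Sylow r N) (R : Subgroup (MulAut N)) (hR : IsPGroup r R)
    (hQ : ∀ β ∈ R, ∀ x ∈ Q, β x = x) :
    Nat.card R ≤ Nat.card Q * r ^ w.factorization r := by
  classical
  have hnt : Nontrivial N := by
    obtain ⟨x, y, hxy⟩ := hna
    exact ⟨x * y, y * x, hxy⟩
  have hsoc := socle_eq_top hchar
  have hc := center_eq_bot hchar hna
  let I := {T : Subgroup N // MinNormal T}
  have : Fintype I := Fintype.ofFinite I
  have hdvd : ∀ T : Subgroup N, MinNormal T → r ∣ Nat.card T := by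
    intro T hT
    by_contra h
    exact hT.1 (hO T hT.2.1 ((Nat.Prime.coprime_iff_not_dvd hr.out).mpr h).symm)
  -- invariance of the minimal normal subgroups
  have hinv : ∀ T : Subgroup N, MinNormal T → ∀ β ∈ R, ∀ y ∈ T, β y ∈ T := by
    intro T hT β hβ
    have hTn := hT.2.1
    have hQT : ((sylowOf Q T : Sylow r T) : Subgroup T) ≠ ⊥ :=
      Sylow.ne_bot_of_dvd_card _ (hdvd T hT)
    obtain ⟨x, hx, hx1⟩ : ∃ x : T, x ∈ ((sylowOf Q T : Sylow r T) : Subgroup T) ∧ x ≠ 1 := by
      obtain ⟨x, hx⟩ := ((sylowOf Q T : Sylow r T) : Subgroup T).ne_bot_iff_exists_ne_one.mp hQT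
      exact ⟨x.1, x.2, fun h => hx (Subtype.ext h)⟩
    have hxQ : (x : N) ∈ Q := (mem_sylowOf Q T x).mp hx
    have hmap : T.map β.toMonoidHom = T := by
      by_contra hne
      have h1 := (hT.map β).2.1
      have h2 : Disjoint T (T.map β.toMonoidHom) := by
        rw [disjoint_iff]
        by_contra h
        have h3 := hT.2.2 (T ⊓ T.map β.toMonoidHom) inferInstance inf_le_left h
        have h4 := (hT.map β).2.2 (T ⊓ T.map β.toMonoidHom) inferInstance inf_le_right h
        exact hne (h4.symm.trans h3)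
      have h5 : (x : N) ∈ T.map β.toMonoidHom := ⟨x, x.2, hQ β hβ x hxQ⟩
      have h6 := disjoint_def.mp h2 x.2 h5
      exact hx1 (Subtype.ext h6)
    intro y hy
    have : β y ∈ T.map β.toMonoidHom := ⟨y, hy, rfl⟩
    rwa [hmap] at this
  -- the embedding
  let Φ : R →* (∀ i : I, (resHom R i.1 (hinv i.1 i.2)).range) :=
    MonoidHom.pi (fun i => (resHom R i.1 (hinv i.1 i.2)).rangeRestrict)
  have hΦ : Function.Injective Φ := by
    rw [injective_iff_map_eq_one]
    intro β hβ
    apply Subtype.ext
    have hK : (MonoidHom.eqLocus (β : MulAut N).toMonoidHom (MonoidHom.id N)) = ⊤ := by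
      apply eq_top_of_minNormal hsoc
      intro T hT x hx
      have h1 := congrArg Subtype.val (congrFun hβ (⟨T, hT⟩ : I))
      have h2 := congrArg (fun f : MulAut T => ((f ⟨x, hx⟩ : T) : N)) h1
      exact h2
    ext x
    have hx : x ∈ MonoidHom.eqLocus (β : MulAut N).toMonoidHom (MonoidHom.id N) := by
      rw [hK]; trivial
    exact hx
  have h1 : Nat.card R ≤ ∏ i : I, Nat.card (resHom R i.1 (hinv i.1 i.2)).range := by
    rw [← Nat.card_pi]
    exact Nat.card_le_card_of_injective Φ hΦ
  have h2 : ∀ i : I, Nat.card (resHom R i.1 (hinv i.1 i.2)).range ≤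
      Nat.card ((Q : Subgroup N) ⊓ i.1 : Subgroup N) * r ^ (f i.1).factorization r := by
    intro i
    have hTn := i.2.2.1
    have h3 := hfW.bound i.1 (i.2.simple hsoc) (i.2.nonabelian hsoc hc) r hr.out (hdvd i.1 i.2)
      (sylowOf Q i.1) (resHom R i.1 (hinv i.1 i.2)).range
      (hR.of_surjective _ (resHom R i.1 (hinv i.1 i.2)).rangeRestrict_surjective) (by
        rintro _ ⟨β, rfl⟩ x hx
        apply Subtype.ext
        rw [resHom_apply]
        exact hQ β β.2 x ((mem_sylowOf Q i.1 x).mp hx))
    refine h3.trans (le_of_eq ?_)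
    congr 1
    have h3 : ((sylowOf Q i.1 : Sylow r i.1) : Subgroup i.1) = (Q : Subgroup N).subgroupOf i.1 := by
      ext x
      exact mem_sylowOf Q i.1 x
    have h4 : Nat.card (sylowOf Q i.1) = Nat.card ((sylowOf Q i.1 : Sylow r i.1) : Subgroup i.1) :=
      rfl
    rw [h4, h3, ← inf_subgroupOf_right]
    exact Nat.card_congr (subgroupOfEquivOfLe inf_le_right).toEquiv
  -- independence
  let H : I → Subgroup N := fun i => (Q : Subgroup N) ⊓ i.1
  have hcomm : Pairwise fun i j : I => ∀ x y : N, x ∈ H i → y ∈ H j → Commute x y := by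
    intro i j hij x y hx hy
    exact i.2.commute j.2 (fun h => hij (Subtype.ext h)) x hx.2 y hy.2
  have hind : iSupIndep H := by
    intro i
    rw [disjoint_iff, eq_bot_iff]
    rintro x ⟨hx, hx'⟩
    have hxi : x ∈ i.1 := hx.2
    have h5 : (⨆ j, ⨆ (_ : j ≠ i), H j) ≤ centralizer (i.1 : Set N) := by
      refine iSup_le (fun j => iSup_le (fun hj => ?_))
      intro y hy
      rw [mem_centralizer_iff]
      intro z hz
      exact i.2.commute j.2 (fun h => hj (Subtype.ext h.symm)) z hz y hy.2
    have h6 : centralizer {x} = ⊤ := by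
      apply eq_top_of_minNormal hsoc
      intro T' hT' y hy
      rw [mem_centralizer_singleton_iff]
      by_cases hTT : T' = i.1
      · subst hTT
        exact mem_centralizer_iff.mp (h5 hx') y hy
      · exact hT'.commute i.2 hTT y hy x hxi
    have h7 : x ∈ center N := by
      rw [mem_center_iff]
      intro g
      have hg : g ∈ centralizer {x} := by rw [h6]; trivial
      exact mem_centralizer_singleton_iff.mp hg
    rw [hc] at h7
    exact h7
  have h8 : ∏ i : I, Nat.card (H i) ≤ Nat.card Q := by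
    have hinj := injective_noncommPiCoprod_of_iSupIndep (hcomm := hcomm) hind
    rw [← Nat.card_pi]
    have hmem : ∀ f : (∀ i : I, H i), noncommPiCoprod hcomm f ∈ (Q : Subgroup N) := by
      intro f
      have h9 : (noncommPiCoprod hcomm).range ≤ (Q : Subgroup N) := by
        rw [noncommPiCoprod_range]
        exact iSup_le (fun i => inf_le_left)
      exact h9 ⟨f, rfl⟩
    exact Nat.card_le_card_of_injective
      (fun f : (∀ i : I, H i) => (⟨noncommPiCoprod hcomm f, hmem f⟩ : Q))
      (fun f g h => hinj (congrArg Subtype.val h))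
  have h10 : ∏ i : I, r ^ (f i.1).factorization r ≤ r ^ w.factorization r := by
    rw [Finset.prod_pow_eq_pow_sum]
    apply Nat.pow_le_pow_right hr.out.pos
    have h11 := prod_dvd hfW hsoc hc w hw
    have h12 : (∏ i : I, f i.1).factorization r = ∑ i : I, (f i.1).factorization r := by
      rw [Nat.factorization_prod (fun i _ => (hfW.pos i.1).ne')]
      simp
    rw [← h12]
    exact (Nat.factorization_le_iff_dvd (Finset.prod_ne_zero_iff.mpr
      (fun i _ => (hfW.pos i.1).ne')) (hw.pos hfW inferInstance).ne').mpr h11 r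
  refine (h1.trans (Finset.prod_le_prod' (fun i _ => h2 i))).trans ?_
  rw [Finset.prod_mul_distrib]
  exact Nat.mul_le_mul h8 h10


end Pool.Agent.H898.AutSyl
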