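import Pool.Agent.H898.AutW1

set_option autoImplicit false

/-! Weighted main induction. -/

namespace Pool.Agent.H898.AutSyl

open Subgroup

/-- The case of a nonabelian minimal invariant normal subgroup. -/
lemma caseB' {f : (S : Type) → [Group S] → ℕ} (hfW : Weight f) {G : Type} [Group G] [Finite G] {r : ℕ} [hr : Fact r.Prime]
    (hcore : Core r G) {N M : Subgroup G} (hN : N.Normal) (hN0 : N ≠ ⊥) (hM : M.Normal)
    (hc : (N.relIndex M).Coprime r) (P : Sylow r G) (A : Subgroup (MulAut G))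
    (hA : IsPGroup r A) (hAP : ∀ a ∈ A, ∀ x ∈ P, a x = x)
    (hinv : ∀ a ∈ A, ∀ x ∈ N, a x ∈ N)
    (hmin : ∀ U : Subgroup G, U.Normal → U ≤ N → U ≠ ⊥ → (∀ a ∈ A, ∀ x ∈ U, a x ∈ U) → U = N)
    (hna : ∃ x ∈ N, ∃ y ∈ N, x * y ≠ y * x)
    (A₁ : Subgroup A) (hA₁ : ∀ a ∈ A₁, ∀ g, (a : MulAut G) g * g⁻¹ ∈ M)
    {w : ℕ} (hw : Ser f N w) :
    Nat.card A₁ * Nat.card ((P : Subgroup G) ⊓ center G ⊓ N : Subgroup G) ≤
      Nat.card ((P : Subgroup G) ⊓ N : Subgroup G) * r ^ w.factorization r := by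
  have hchar := char_of_min hN hinv hmin
  have hna' : ∃ x y : N, x * y ≠ y * x := by
    obtain ⟨x, hx, y, hy, hxy⟩ := hna
    exact ⟨⟨x, hx⟩, ⟨y, hy⟩, fun h => hxy (congrArg Subtype.val h)⟩
  have hNc : center N = ⊥ := center_eq_bot hchar hna'
  have hncop : ¬ (Nat.card N).Coprime r := fun h => hN0 (hcore N hN h)
  have hcoreN : Core r N := core_of_char hchar hncop
  -- injectivity on A₁
  have hinj : ∀ a ∈ A₁, resHom A N hinv a = 1 → a = 1 := by
    intro a ha h
    have haN : ∀ x ∈ N, (a : MulAut G) x = x := by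
      intro x hx
      have := congrArg (fun f : MulAut N => ((f ⟨x, hx⟩ : N) : G)) h
      exact this
    let D : Subgroup G := M ⊓ centralizer (N : Set G)
    have hDn : D.Normal := inferInstance
    have hDbot : D = ⊥ := by
      apply hcore D hDn
      have h1 : N.relIndex D = Nat.card D := by
        rw [← inf_relIndex_right]
        have h2 : N ⊓ D = ⊥ := by
          rw [eq_bot_iff]
          rintro x ⟨hx, hx'⟩
          have h3 : (⟨x, hx⟩ : N) ∈ center N := by
            rw [mem_center_iff]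
            intro y
            apply Subtype.ext
            exact mem_centralizer_iff.mp hx'.2 (y : G) y.2
          rw [hNc, mem_bot] at h3
          exact mem_bot.mpr (congrArg Subtype.val h3)
        rw [h2, relIndex_bot_left]
      rw [← h1]
      exact Nat.Coprime.coprime_dvd_left (relIndex_dvd_of_le inf_le_left) hc
    apply Subtype.ext
    ext g
    have h1 : (a : MulAut G) g * g⁻¹ ∈ D := ⟨hA₁ a ha g, cent_of_trivial hN haN g⟩
    rw [hDbot, mem_bot] at h1
    have h2 : (a : MulAut G) g = g := mul_inv_eq_one.mp h1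
    rw [h2]; rfl
  have hcard : Nat.card A₁ ≤ Nat.card ((P : Subgroup G) ⊓ N : Subgroup G) *
      r ^ w.factorization r := by
    let B : Subgroup (MulAut N) := A₁.map (resHom A N hinv)
    have hBcard : Nat.card A₁ = Nat.card B := by
      have h1 := card_map_mul (resHom A N hinv) A₁
      have h2 : A₁ ⊓ (resHom A N hinv).ker = ⊥ := by
        rw [eq_bot_iff]
        rintro a ⟨ha, ha'⟩
        exact mem_bot.mpr (hinj a ha ha')
      rw [h2, card_bot, mul_one] at h1
      exact h1.symm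
    have hBp : IsPGroup r B := (hA.to_subgroup A₁).map _
    have h1 := bound_of_charSimple' hfW hchar hna' hcoreN hw (sylowOf P N) B hBp (by
        rintro _ ⟨a, _, rfl⟩ x hx
        apply Subtype.ext
        rw [resHom_apply]
        exact hAP a a.2 x ((mem_sylowOf P N x).mp hx))
    have h2 : Nat.card (sylowOf P N) = Nat.card ((P : Subgroup G) ⊓ N : Subgroup G) := by
      have h3 : ((sylowOf P N : Sylow r N) : Subgroup N) = (P : Subgroup G).subgroupOf N := by
        ext x
        exact mem_sylowOf P N x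
      have h4 : Nat.card (sylowOf P N) = Nat.card ((sylowOf P N : Sylow r N) : Subgroup N) := rfl
      rw [h4, h3, ← inf_subgroupOf_right]
      exact Nat.card_congr (subgroupOfEquivOfLe inf_le_right).toEquiv
    rw [hBcard, ← h2]
    exact h1
  have hone : Nat.card ((P : Subgroup G) ⊓ center G ⊓ N : Subgroup G) = 1 := by
    have : ((P : Subgroup G) ⊓ center G ⊓ N : Subgroup G) = ⊥ := by
      rw [eq_bot_iff]
      rintro x ⟨⟨_, hx⟩, hxN⟩
      have h3 : (⟨x, hxN⟩ : N) ∈ center N := by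
        rw [mem_center_iff]
        intro y
        apply Subtype.ext
        exact mem_center_iff.mp hx (y : G)
      rw [hNc, mem_bot] at h3
      exact mem_bot.mpr (congrArg Subtype.val h3)
    rw [this, card_bot]
  rw [hone, mul_one]
  exact hcard

/-- **Main induction.** -/
theorem main_bound' {f : (S : Type) → [Group S] → ℕ} (hfW : Weight f) (r : ℕ)
    [hr : Fact r.Prime] : ∀ (n : ℕ) (G : Type) [Group G] [Finite G],
    Nat.card G = n → ∀ w : ℕ, Ser f G w → Core r G → ∀ (P : Sylow r G) (A : Subgroup (MulAut G)),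
    IsPGroup r A → (∀ a ∈ A, ∀ x ∈ P, a x = x) →
    Nat.card A * Nat.card ((P : Subgroup G) ⊓ center G : Subgroup G) ≤
      Nat.card P * r ^ w.factorization r := by
  intro n
  induction n using Nat.strong_induction_on with
  | _ n ih =>
  intro G _ _ hn w hser hcore P A hA hAP
  by_cases hG : Nontrivial G
  swap
  · have hs : Subsingleton G := not_nontrivial_iff_subsingleton.mp hG
    have hs2 : Subsingleton (MulAut G) := ⟨fun a b => by ext x; exact Subsingleton.elim _ _⟩
    have h1 : Nat.card A = 1 := Nat.card_unique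
    have h2 : Nat.card ((P : Subgroup G) ⊓ center G : Subgroup G) = 1 := Nat.card_unique
    rw [h1, h2, one_mul]
    exact Nat.mul_pos Nat.card_pos (Nat.pow_pos hr.out.pos)
  -- minimal invariant normal subgroup
  have hne : ({U : Subgroup G | U ≠ ⊥ ∧ U.Normal ∧ ∀ a ∈ A, ∀ x ∈ U, a x ∈ U} :
      Set (Subgroup G)).Nonempty := ⟨⊤, top_ne_bot, inferInstance, fun _ _ _ _ => trivial⟩
  obtain ⟨N, ⟨hN0, hN, hinv⟩, hmin'⟩ := Set.Finite.exists_minimalFor
    (fun M : Subgroup G => Nat.card M) _ (Set.toFinite _) hne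
  have hmin : ∀ U : Subgroup G, U.Normal → U ≤ N → U ≠ ⊥ →
      (∀ a ∈ A, ∀ x ∈ U, a x ∈ U) → U = N := by
    intro U hU hUN hU0 hUi
    exact eq_of_le_of_card_ge hUN (hmin' ⟨hU0, hU, hUi⟩
      (Nat.card_le_card_of_injective _ (inclusion_injective hUN)))
  obtain ⟨M, hM, hNM, hc, hmax⟩ := exists_largest r N hN
  have hMinv : ∀ a ∈ A, ∀ x ∈ M, a x ∈ M := by
    intro a ha
    exact invariant_largest hM hNM hc hmax a (fun x hx => hinv _ (A.inv_mem ha) x hx)
  let φ := quoHom A M hMinv
  have hM0 : M ≠ ⊥ := fun h => hN0 (by rw [eq_bot_iff, ← h]; exact hNM)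
  have hlt : Nat.card (G ⧸ M) < n := by
    rw [← hn, ← index_eq_card, ← M.index_mul_card]
    refine lt_mul_of_one_lt_right (Nat.pos_of_ne_zero index_ne_zero_of_finite)
      (M.one_lt_card_iff_ne_bot.mpr hM0)
  obtain ⟨wM, wQ, hwM, hwQ, hwMQ⟩ := hser.mul hfW.iso M
  obtain ⟨wN', wMN, hwN', hwMN, hwM'⟩ := hwM.mul hfW.iso (N.subgroupOf M)
  have hwN : Ser f N wN' := hwN'.iso hfW.iso _ (subgroupOfEquivOfLe hNM)
  have hwpos : 0 < w := hser.pos hfW inferInstance
  have hr1 : r ^ wQ.factorization r * r ^ wN'.factorization r ≤ r ^ w.factorization r := by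
    rw [← pow_add]
    apply Nat.pow_le_pow_right hr.out.pos
    have h1 : wQ * wN' ∣ w := ⟨wMN, by rw [hwMQ, hwM']; ring⟩
    have h2 := (Nat.factorization_le_iff_dvd (Nat.mul_pos (hwQ.pos hfW inferInstance)
      (hwN.pos hfW inferInstance)).ne' hwpos.ne').mpr h1 r
    rw [Nat.factorization_mul (hwQ.pos hfW inferInstance).ne' (hwN.pos hfW inferInstance).ne'] at h2
    exact h2
  have hIH := ih (Nat.card (G ⧸ M)) hlt (G ⧸ M) rfl wQ hwQ
    (core_quotient hNM hc hmax) (P.mapSurjective (QuotientGroup.mk'_surjective M)) φ.range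
    (hA.of_surjective φ.rangeRestrict φ.rangeRestrict_surjective) (by
      rintro _ ⟨a, rfl⟩ x hx
      obtain ⟨y, hy, rfl⟩ := (show x ∈ (P : Subgroup G).map (QuotientGroup.mk' M) from hx)
      show (((a : MulAut G) y : G) : G ⧸ M) = (y : G ⧸ M)
      rw [hAP a a.2 y hy])
  have hA1 := card_range_mul_ker φ
  have hPM : (P : Subgroup G) ⊓ M ≤ N := by
    rintro x ⟨hxP, hxM⟩
    obtain ⟨k, hk⟩ := P.2 ⟨x, hxP⟩
    refine mem_of_pow_mem N (pow_relIndex_mem hxM) (b := r ^ k) ?_ (Nat.Coprime.pow_right k hc)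
    have : x ^ r ^ k = 1 := congrArg Subtype.val hk
    rw [this]; exact N.one_mem
  have hker : ∀ a ∈ φ.ker, ∀ g, (a : MulAut G) g * g⁻¹ ∈ M := by
    intro a ha g
    have h1 : φ a (g : G ⧸ M) = (g : G ⧸ M) := by
      rw [MonoidHom.mem_ker.mp ha]; rfl
    have h2 : (((a : MulAut G) g : G) : G ⧸ M) = (g : G ⧸ M) := h1
    rw [QuotientGroup.eq_iff_div_mem, div_eq_mul_inv] at h2
    exact h2
  -- the key bound
  have hF3 : Nat.card φ.ker * Nat.card ((P : Subgroup G) ⊓ center G ⊓ N : Subgroup G) ≤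
      Nat.card ((P : Subgroup G) ⊓ N : Subgroup G) * r ^ wN'.factorization r := by
    by_cases hab : ∀ x ∈ N, ∀ y ∈ N, x * y = y * x
    · obtain ⟨hNP, hconj⟩ := caseA hcore hN hM hNM hc P hab
      have h1 : (φ.ker.map A.subtype) ≤ N.map (MulAut.conj : G →* MulAut G) := by
        rintro _ ⟨a, ha, rfl⟩
        obtain ⟨m, hm, hm'⟩ := hconj a (hAP a a.2) (hker a ha)
        exact ⟨m, hm, hm'.symm⟩
      have h2 : Nat.card φ.ker = Nat.card (φ.ker.map A.subtype) :=
        Nat.card_congr (φ.ker.equivMapOfInjective A.subtype A.subtype_injective).toEquiv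
      have h3 : Nat.card (φ.ker.map A.subtype) ≤ Nat.card (N.map (MulAut.conj : G →* MulAut G)) :=
        Nat.card_le_card_of_injective _ (inclusion_injective h1)
      have h4 := card_map_mul (MulAut.conj : G →* MulAut G) N
      have h5 : ((P : Subgroup G) ⊓ center G ⊓ N : Subgroup G) ≤
          N ⊓ (MulAut.conj : G →* MulAut G).ker := by
        rintro x ⟨⟨_, hx⟩, hxN⟩
        refine ⟨hxN, MonoidHom.mem_ker.mpr ?_⟩
        ext y
        rw [MulAut.conj_apply, ← mem_center_iff.mp hx y]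
        simp
      have h6 : Nat.card ((P : Subgroup G) ⊓ center G ⊓ N : Subgroup G) ≤
          Nat.card (N ⊓ (MulAut.conj : G →* MulAut G).ker : Subgroup G) :=
        Nat.card_le_card_of_injective _ (inclusion_injective h5)
      have h7 : (P : Subgroup G) ⊓ N = N := inf_eq_right.mpr hNP
      rw [h7, h2]
      refine le_trans ?_ (Nat.le_mul_of_pos_right _ (Nat.pow_pos hr.out.pos))
      rw [← h4]
      exact Nat.mul_le_mul h3 h6
    · push Not at hab
      exact caseB' hfW hcore hN hN0 hM hc P A hA hAP hinv hmin hab φ.ker hker hwN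
  -- assemble
  have hP := card_map_mul (QuotientGroup.mk' M) (P : Subgroup G)
  have hPZ := card_map_mul (QuotientGroup.mk' M) ((P : Subgroup G) ⊓ center G)
  rw [QuotientGroup.ker_mk'] at hP hPZ
  have hle1 : Nat.card (((P : Subgroup G) ⊓ center G).map (QuotientGroup.mk' M)) ≤
      Nat.card (((P.mapSurjective (QuotientGroup.mk'_surjective M) : Sylow r (G ⧸ M)) :
        Subgroup (G ⧸ M)) ⊓ center (G ⧸ M) : Subgroup (G ⧸ M)) := by
    refine Nat.card_le_card_of_injective _ (inclusion_injective ?_)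
    rintro _ ⟨x, ⟨hxP, hxZ⟩, rfl⟩
    refine ⟨⟨x, hxP, rfl⟩, mem_center_iff.mpr ?_⟩
    intro y
    obtain ⟨y, rfl⟩ := QuotientGroup.mk'_surjective M y
    rw [← map_mul, ← map_mul, mem_center_iff.mp hxZ y]
  have hle2 : Nat.card ((P : Subgroup G) ⊓ center G ⊓ M : Subgroup G) ≤
      Nat.card ((P : Subgroup G) ⊓ center G ⊓ N : Subgroup G) := by
    refine Nat.card_le_card_of_injective _ (inclusion_injective ?_)
    rintro x ⟨⟨hxP, hxZ⟩, hxM⟩
    exact ⟨⟨hxP, hxZ⟩, hPM ⟨hxP, hxM⟩⟩
  have hle3 : Nat.card ((P : Subgroup G) ⊓ N : Subgroup G) ≤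
      Nat.card ((P : Subgroup G) ⊓ M : Subgroup G) := by
    refine Nat.card_le_card_of_injective _ (inclusion_injective (inf_le_inf_left _ hNM))
  have hPcard : Nat.card (P.mapSurjective (QuotientGroup.mk'_surjective M) : Sylow r (G ⧸ M)) =
      Nat.card ((P : Subgroup G).map (QuotientGroup.mk' M)) := rfl
  rw [hPcard] at hIH
  calc Nat.card A * Nat.card ((P : Subgroup G) ⊓ center G : Subgroup G)
      = (Nat.card φ.range * Nat.card φ.ker) *
        (Nat.card (((P : Subgroup G) ⊓ center G).map (QuotientGroup.mk' M)) *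
          Nat.card ((P : Subgroup G) ⊓ center G ⊓ M : Subgroup G)) := by rw [hA1, hPZ]
    _ ≤ (Nat.card φ.range * Nat.card φ.ker) *
        (Nat.card (((P.mapSurjective (QuotientGroup.mk'_surjective M) : Sylow r (G ⧸ M)) :
        Subgroup (G ⧸ M)) ⊓ center (G ⧸ M) : Subgroup (G ⧸ M)) *
          Nat.card ((P : Subgroup G) ⊓ center G ⊓ N : Subgroup G)) :=
        Nat.mul_le_mul le_rfl (Nat.mul_le_mul hle1 hle2)
    _ = (Nat.card φ.range *
        Nat.card (((P.mapSurjective (QuotientGroup.mk'_surjective M) : Sylow r (G ⧸ M)) :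
        Subgroup (G ⧸ M)) ⊓ center (G ⧸ M) : Subgroup (G ⧸ M))) *
        (Nat.card φ.ker * Nat.card ((P : Subgroup G) ⊓ center G ⊓ N : Subgroup G)) := by ring
    _ ≤ (Nat.card ((P : Subgroup G).map (QuotientGroup.mk' M)) * r ^ wQ.factorization r) *
        (Nat.card ((P : Subgroup G) ⊓ M : Subgroup G) * r ^ wN'.factorization r) :=
        Nat.mul_le_mul hIH (hF3.trans (Nat.mul_le_mul hle3 le_rfl))
    _ = (Nat.card ((P : Subgroup G).map (QuotientGroup.mk' M)) *
        Nat.card ((P : Subgroup G) ⊓ M : Subgroup G)) *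
        (r ^ wQ.factorization r * r ^ wN'.factorization r) := by ring
    _ ≤ Nat.card P * r ^ w.factorization r := by
        rw [hP]
        exact Nat.mul_le_mul le_rfl hr1


end Pool.Agent.H898.AutSyl
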