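import Pool.Agent.H898.AutW2

set_option autoImplicit false

/-! Weighted divisibility for the `r`-part. -/

namespace Pool.Agent.H898.AutSyl

open Subgroup

theorem rpart' {f : (S : Type) → [Group S] → ℕ} (hfW : Weight f) {G : Type} [Group G] [Finite G]
    {r : ℕ} [hr : Fact r.Prime] {w : ℕ} (hw : Ser f G w)
    (P : ∀ p ∈ (Nat.card G).primeFactors, Sylow p G) (A : Subgroup (MulAut G))
    (hA : IsPGroup r A) :
    Nat.card A ∣ Nat.card (G ⧸ center G) *
      (∏ p : (Nat.card G).primeFactors, Nat.card (MulAut (↥(P p.1 p.2 : Subgroup G)))) *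
        r ^ w.factorization r := by
  classical
  -- 1. an invariant Sylow r-subgroup
  obtain ⟨P', hP'⟩ := exists_fixed_sylow (p := r) A hA (not_dvd_card_sylow r G)
  let ρ := resHom A (P' : Subgroup G) hP'
  have hA1 := card_range_mul_ker ρ
  have hρr : Nat.card ρ.range ∣ Nat.card (MulAut P') := card_subgroup_dvd_card _
  let B : Subgroup (MulAut G) := ρ.ker.map A.subtype
  have hBcard : Nat.card ρ.ker = Nat.card B :=
    Nat.card_congr (ρ.ker.equivMapOfInjective A.subtype A.subtype_injective).toEquiv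
  have hBp : IsPGroup r B := (hA.to_subgroup ρ.ker).map _
  have hBfix : ∀ b ∈ B, ∀ x ∈ P', b x = x := by
    rintro _ ⟨a, ha, rfl⟩ x hx
    have h1 := congrArg (fun f : MulAut P' => ((f ⟨x, hx⟩ : P') : G)) (MonoidHom.mem_ker.mp ha)
    exact h1
  -- 2. modulo the largest normal r'-subgroup
  obtain ⟨K, hK, _, hKc, hKmax⟩ := exists_largest r (⊥ : Subgroup G) inferInstance
  have hKinv : ∀ a : MulAut G, ∀ x ∈ K, a x ∈ K := by
    intro a
    exact invariant_largest hK bot_le hKc hKmax a (by
      intro y hy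
      rw [mem_bot.mp hy, map_one]
      exact one_mem _)
  let φ := quoHom B K (fun b _ => hKinv b)
  have hB1 := card_range_mul_ker φ
  obtain ⟨wK, wQ, _, hwQ, hwKQ⟩ := hw.mul hfW.iso K
  have hwpos : 0 < w := hw.pos hfW inferInstance
  have hr1 : wQ.factorization r ≤ w.factorization r := by
    have h1 : wQ ∣ w := ⟨wK, by rw [hwKQ]; ring⟩
    exact (Nat.factorization_le_iff_dvd (hwQ.pos hfW inferInstance).ne' hwpos.ne').mpr h1 r
  have hmain := main_bound' hfW r (Nat.card (G ⧸ K)) (G ⧸ K) rfl wQ hwQ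
    (core_quotient bot_le hKc hKmax) (P'.mapSurjective (QuotientGroup.mk'_surjective K)) φ.range
    (hBp.of_surjective φ.rangeRestrict φ.rangeRestrict_surjective) (by
      rintro _ ⟨a, rfl⟩ x hx
      obtain ⟨y, hy, rfl⟩ := (show x ∈ (P' : Subgroup G).map (QuotientGroup.mk' K) from hx)
      show (((a : MulAut G) y : G) : G ⧸ K) = (y : G ⧸ K)
      rw [hBfix a a.2 y hy])
  rw [relIndex_bot_left] at hKc
  have hPK : (P' : Subgroup G) ⊓ K = ⊥ := by
    rw [eq_bot_iff]
    rintro x ⟨hxP, hxK⟩
    obtain ⟨k, hk⟩ := P'.2 ⟨x, hxP⟩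
    refine mem_of_pow_mem ⊥ (a := Nat.card K) (b := r ^ k) ?_ ?_ (Nat.Coprime.pow_right k hKc)
    · have := pow_card_eq_one' (x := (⟨x, hxK⟩ : K))
      exact mem_bot.mpr (congrArg Subtype.val this)
    · exact mem_bot.mpr (congrArg Subtype.val hk)
  have hφr : Nat.card φ.range ∣ Nat.card (G ⧸ center G) * r ^ w.factorization r := by
    have hp : IsPGroup r φ.range :=
      hBp.of_surjective φ.rangeRestrict φ.rangeRestrict_surjective
    obtain ⟨e, he⟩ := IsPGroup.iff_card.mp hp
    have h1 := card_map_mul (QuotientGroup.mk' K) (P' : Subgroup G)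
    rw [QuotientGroup.ker_mk', hPK, card_bot, mul_one] at h1
    have h2 := card_map_mul (QuotientGroup.mk' (center G)) (P' : Subgroup G)
    rw [QuotientGroup.ker_mk'] at h2
    have h3 := card_map_mul (QuotientGroup.mk' K) ((P' : Subgroup G) ⊓ center G)
    rw [QuotientGroup.ker_mk'] at h3
    have h4 : ((P' : Subgroup G) ⊓ center G ⊓ K : Subgroup G) = ⊥ := by
      rw [eq_bot_iff, ← hPK]
      exact inf_le_inf_right K inf_le_left
    rw [h4, card_bot, mul_one] at h3
    have hle1 : Nat.card (((P' : Subgroup G) ⊓ center G).map (QuotientGroup.mk' K)) ≤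
        Nat.card (((P'.mapSurjective (QuotientGroup.mk'_surjective K) : Sylow r (G ⧸ K)) :
          Subgroup (G ⧸ K)) ⊓ center (G ⧸ K) : Subgroup (G ⧸ K)) := by
      refine Nat.card_le_card_of_injective _ (inclusion_injective ?_)
      rintro _ ⟨x, ⟨hxP, hxZ⟩, rfl⟩
      refine ⟨⟨x, hxP, rfl⟩, mem_center_iff.mpr ?_⟩
      intro y
      obtain ⟨y, rfl⟩ := QuotientGroup.mk'_surjective K y
      rw [← map_mul, ← map_mul, mem_center_iff.mp hxZ y]
    have hPcard : Nat.card (P'.mapSurjective (QuotientGroup.mk'_surjective K) : Sylow r (G ⧸ K)) =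
      Nat.card ((P' : Subgroup G).map (QuotientGroup.mk' K)) := rfl
    rw [hPcard, h1] at hmain
    rw [h3] at hle1
    have h5 : Nat.card φ.range * Nat.card ((P' : Subgroup G) ⊓ center G : Subgroup G) ≤
        (Nat.card ((P' : Subgroup G).map (QuotientGroup.mk' (center G))) *
          r ^ wQ.factorization r) *
          Nat.card ((P' : Subgroup G) ⊓ center G : Subgroup G) := by
      have h51 : (Nat.card ((P' : Subgroup G).map (QuotientGroup.mk' (center G))) *
          r ^ wQ.factorization r) *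
          Nat.card ((P' : Subgroup G) ⊓ center G : Subgroup G) =
          Nat.card P' * r ^ wQ.factorization r := by
        rw [← h2]; ring
      rw [h51]
      exact (Nat.mul_le_mul le_rfl hle1).trans hmain
    have h6 : Nat.card φ.range ≤
        Nat.card ((P' : Subgroup G).map (QuotientGroup.mk' (center G))) *
          r ^ wQ.factorization r :=
      Nat.le_of_mul_le_mul_right h5 Nat.card_pos
    obtain ⟨e', he'⟩ := IsPGroup.iff_card.mp (P'.2.map (QuotientGroup.mk' (center G)))
    have h7 : Nat.card φ.range ∣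
        Nat.card ((P' : Subgroup G).map (QuotientGroup.mk' (center G))) *
          r ^ wQ.factorization r := by
      rw [he, he', ← pow_add] at h6 ⊢
      exact pow_dvd_pow r ((Nat.pow_le_pow_iff_right hr.out.one_lt).mp h6)
    exact h7.trans (Nat.mul_dvd_mul (card_subgroup_dvd_card _) (pow_dvd_pow r hr1))
  -- 3. the kernel
  let C : Subgroup (MulAut G) := φ.ker.map B.subtype
  have hCcard : Nat.card φ.ker = Nat.card C :=
    Nat.card_congr (φ.ker.equivMapOfInjective B.subtype B.subtype_injective).toEquiv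
  have hCp : IsPGroup r C := (hBp.to_subgroup φ.ker).map _
  have hCfix : ∀ c ∈ C, ∀ x ∈ P', c x = x := by
    rintro _ ⟨b, _, rfl⟩
    exact hBfix b b.2
  have hCK : ∀ c ∈ C, ∀ g, c g * g⁻¹ ∈ K := by
    rintro _ ⟨a, ha, rfl⟩ g
    have h1 : φ a (g : G ⧸ K) = (g : G ⧸ K) := by
      rw [MonoidHom.mem_ker.mp ha]; rfl
    have h2 : (((a : MulAut G) g : G) : G ⧸ K) = (g : G ⧸ K) := h1
    rw [QuotientGroup.eq_iff_div_mem, div_eq_mul_inv] at h2
    exact h2
  have hfam : ∀ p ∈ (Nat.card G).primeFactors, ∃ Q : Sylow p G,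
      (∀ c ∈ C, ∀ x ∈ Q, c x ∈ Q) ∧ (p = r → ∀ c ∈ C, ∀ x ∈ Q, c x = x) := by
    intro p hp
    have hpp : Fact p.Prime := ⟨Nat.prime_of_mem_primeFactors hp⟩
    by_cases hpr : p = r
    · subst hpr
      exact ⟨P', fun c hc x hx => by rw [hCfix c hc x hx]; exact hx, fun _ => hCfix⟩
    · have hL : ∀ a ∈ C, ∀ x ∈ ((P p hp : Subgroup G) ⊔ K), a x ∈ ((P p hp : Subgroup G) ⊔ K) := by
        intro a ha x hx
        have h1 : a x = (a x * x⁻¹) * x := by group
        rw [h1]
        exact mul_mem ((le_sup_right : K ≤ (P p hp : Subgroup G) ⊔ K) (hCK a ha x)) hx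
      have hLc : (Nat.card ((P p hp : Subgroup G) ⊔ K : Subgroup G)).Coprime r := by
        have h1 : Nat.card ((P p hp : Subgroup G) ⊔ K : Subgroup G) =
            Nat.card K * (K.relIndex ((P p hp : Subgroup G) ⊔ K)) := by
          rw [← relIndex_bot_left, ← relIndex_bot_left K]
          exact (relIndex_mul_relIndex ⊥ K _ bot_le le_sup_right).symm
        rw [h1, relIndex_sup_right]
        refine Nat.Coprime.mul_left hKc ?_
        obtain ⟨k, hk⟩ := IsPGroup.iff_card.mp (P p hp).2
        have h2 : K.relIndex (P p hp : Subgroup G) ∣ Nat.card (P p hp : Subgroup G) :=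
          relIndex_dvd_card _ _
        refine Nat.Coprime.coprime_dvd_left h2 ?_
        rw [hk]
        exact Nat.Coprime.pow_left k ((Nat.coprime_primes hpp.out hr.out).mpr hpr)
      obtain ⟨Q, hQ⟩ := exists_inv_sylow C hCp _ hL hLc (P p hp) le_sup_left
      exact ⟨Q, hQ, fun h => absurd h hpr⟩
  choose Q hQ1 hQ2 using hfam
  let I := {p // p ∈ (Nat.card G).primeFactors.erase r}
  let Ψ : C →* (∀ i : I, MulAut (Q i.1 (Finset.mem_of_mem_erase i.2) : Subgroup G)) :=
    MonoidHom.pi (fun i => resHom C _ (hQ1 i.1 (Finset.mem_of_mem_erase i.2)))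
  have hΨ : Function.Injective Ψ := by
    rw [injective_iff_map_eq_one]
    intro c hc
    apply Subtype.ext
    refine eq_one_of_fix (c : MulAut G) Q ?_
    intro p hp x hx
    by_cases hpr : p = r
    · exact hQ2 p hp hpr c c.2 x hx
    · have h1 := congrFun hc (⟨p, Finset.mem_erase.mpr ⟨hpr, hp⟩⟩ : I)
      have h2 := congrArg (fun f : MulAut (Q p hp : Subgroup G) => ((f ⟨x, hx⟩ : (Q p hp : Subgroup G)) : G)) h1
      exact h2
  let f' : ℕ → ℕ := fun p => if h : p ∈ (Nat.card G).primeFactors then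
    Nat.card (MulAut (↥(P p h : Subgroup G))) else 1
  have hprod : ∏ p : (Nat.card G).primeFactors, Nat.card (MulAut (↥(P p.1 p.2 : Subgroup G))) =
      ∏ p ∈ (Nat.card G).primeFactors, f' p := by
    refine Eq.trans (Finset.prod_congr rfl (fun p _ => ?_))
      (Finset.prod_coe_sort (Nat.card G).primeFactors f')
    simp only [f', dif_pos p.2]
  have hCdvd : Nat.card C ∣ ∏ p ∈ (Nat.card G).primeFactors.erase r, f' p := by
    have h1 := card_dvd_of_injective Ψ hΨ
    rw [Nat.card_pi] at h1
    rw [← Finset.prod_coe_sort]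
    refine h1.trans (dvd_of_eq (Finset.prod_congr rfl (fun p _ => ?_)))
    have hp := Finset.mem_of_mem_erase p.2
    have hpp : Fact p.1.Prime := ⟨Nat.prime_of_mem_primeFactors hp⟩
    simp only [f', dif_pos hp]
    exact card_mulAut_sylow (Q p.1 hp) (P p.1 hp)
  have hall : Nat.card A = Nat.card ρ.range * (Nat.card φ.range * Nat.card C) := by
    rw [← hCcard, hB1, ← hBcard, hA1]
  rw [hall, hprod]
  by_cases hrG : r ∈ (Nat.card G).primeFactors
  · rw [← Finset.mul_prod_erase _ _ hrG]
    have h1 : Nat.card ρ.range ∣ f' r := by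
      simp only [f', dif_pos hrG]
      rw [← card_mulAut_sylow P' (P r hrG)]
      exact hρr
    have h2 := Nat.mul_dvd_mul h1 (Nat.mul_dvd_mul hφr hCdvd)
    refine h2.trans (dvd_of_eq ?_)
    ring
  · rw [Finset.erase_eq_of_notMem hrG] at hCdvd
    have h1 : Nat.card ρ.range = 1 := by
      have h2 : ¬ r ∣ Nat.card G := fun h => hrG (Nat.mem_primeFactors.mpr ⟨hr.out, h, Nat.card_pos.ne'⟩)
      have h3 : Nat.card P' = 1 := by
        have h4 := P'.card_eq_multiplicity
        rw [Nat.factorization_eq_zero_of_not_dvd h2, pow_zero] at h4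
        exact h4
      have h5 : Subsingleton P' := (Nat.card_eq_one_iff_unique.mp h3).1
      have h6 : Subsingleton (MulAut P') := ⟨fun a b => by ext x; exact congrArg Subtype.val (Subsingleton.elim (a x) (b x))⟩
      exact Nat.card_unique
    rw [h1, one_mul]
    refine (Nat.mul_dvd_mul hφr hCdvd).trans (dvd_of_eq ?_)
    ring


end Pool.Agent.H898.AutSyl
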