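import Mathlib

set_option autoImplicit false

open MvPolynomial

namespace Pool.Agent.H898.Center

/-! ## Foliations of the plane given by polynomial 1-forms -/

/-- Polynomials in the two complex variables `x = X 0` and `y = X 1`. -/
abbrev Poly : Type := MvPolynomial (Fin 2) ℂ

/-- A polynomial 1-form `A dx + B dy` on `ℂ²`, stored as the pair `(A, B)`. -/
abbrev Form : Type := Poly × Poly

/-- The differential `df = f_x dx + f_y dy`. -/
noncomputable def diff (f : Poly) : Form := (pderiv 0 f, pderiv 1 f)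

/-- The space of polynomial 1-forms `A dx + B dy` with `deg A, deg B ≤ d`. -/
noncomputable def forms (d : ℕ) : Submodule ℂ Form :=
  (restrictTotalDegree (Fin 2) ℂ d).prod (restrictTotalDegree (Fin 2) ℂ d)

/-- The projectivization of `forms d`, i.e. the compactified space of foliations of
degree `d`. -/
abbrev Fol (d : ℕ) : Type := Projectivization ℂ (forms d)

/-! ## The Zariski topology -/

/-- The coordinates of the 1-form `A dx + B dy`: the coordinate `(0, m)` is the coefficient of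
the monomial `m` in `A` and the coordinate `(1, m)` is the coefficient of `m` in `B`. -/
noncomputable def coord (ω : Form) : Fin 2 × (Fin 2 →₀ ℕ) → ℂ :=
  fun k => if k.1 = 0 then coeff k.2 ω.1 else coeff k.2 ω.2

/-- Polynomials in the coordinates of a 1-form. -/
abbrev PolyFun : Type := MvPolynomial (Fin 2 × (Fin 2 →₀ ℕ)) ℂ

/-- The set of points of the projectivization at which all members of `S` vanish. -/
def zeroLocus (d : ℕ) (S : Set PolyFun) : Set (Fol d) :=
  {x | ∀ Φ ∈ S, eval (coord (x.rep : Form)) Φ = 0}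

/-- Zariski closed subsets of the projectivization: common zero sets of families of
homogeneous polynomials in the coordinates. -/
def IsAlgebraic {d : ℕ} (Z : Set (Fol d)) : Prop :=
  ∃ S : Set PolyFun, (∀ Φ ∈ S, ∃ n : ℕ, Φ.IsHomogeneous n) ∧ Z = zeroLocus d S

/-- The Zariski closure. -/
def zariskiClosure {d : ℕ} (Z : Set (Fol d)) : Set (Fol d) :=
  ⋂₀ {W | IsAlgebraic W ∧ Z ⊆ W}

/-- Irreducible Zariski closed sets. -/
def IsIrreducibleAlgebraic {d : ℕ} (Z : Set (Fol d)) : Prop :=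
  IsAlgebraic Z ∧ Z.Nonempty ∧
    ∀ Z₁ Z₂ : Set (Fol d), IsAlgebraic Z₁ → IsAlgebraic Z₂ → Z ⊆ Z₁ ∪ Z₂ → Z ⊆ Z₁ ∨ Z ⊆ Z₂

/-- `Z` is an irreducible component of `M`: a maximal irreducible Zariski closed set
contained in `M`. -/
def IsComponent {d : ℕ} (M Z : Set (Fol d)) : Prop :=
  Z ⊆ M ∧ IsIrreducibleAlgebraic Z ∧
    ∀ Z' : Set (Fol d), IsIrreducibleAlgebraic Z' → Z ⊆ Z' → Z' ⊆ M → Z' = Z

/-! ## The families -/

/-- The form `f₁ ⋯ f_s ∑ λ_j df_j / f_j = ∑ λ_j (∏_{k ≠ j} f_k) df_j`. -/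
noncomputable def logForm {s : ℕ} (f : Fin s → Poly) (lam : Fin s → ℂ) : Form :=
  ∑ j, lam j • ((∏ k ∈ Finset.univ.erase j, f k) • diff (f j))

/-- The logarithmic family `L(d₁, …, d_s)` inside the projectivization of `forms d`: all
foliations given by a nonzero form `f₁ ⋯ f_s ∑ λ_j df_j / f_j` with `deg f_j ≤ d_j`. -/
def logFamily (d : ℕ) {s : ℕ} (D : Fin s → ℕ) : Set (Fol d) :=
  {x | ∃ (f : Fin s → Poly) (lam : Fin s → ℂ), (∀ j, (f j).totalDegree ≤ D j) ∧
    ∃ (ω : forms d) (h : ω ≠ 0), (ω : Form) = logForm f lam ∧ x = Projectivization.mk ℂ ω h}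

/-- The polynomial `a + b x + c y`. -/
noncomputable def affine (a b c : ℂ) : Poly := C a + C b * X 0 + C c * X 1

/-- The family `A_i`: all foliations `dp/p + d(q/p^i)`, that is
`p^{i+1} (dp/p + d(q/p^i)) = p^i dp + p dq - i q dp`, with `deg p = 1` and `deg q = d`. -/
def familyA (d i : ℕ) : Set (Fol d) :=
  {x | ∃ (a b c : ℂ) (q : Poly), (b ≠ 0 ∨ c ≠ 0) ∧ q.totalDegree = d ∧
    ∃ (ω : forms d) (h : ω ≠ 0),
      (ω : Form) = (affine a b c) ^ i • diff (affine a b c) + (affine a b c) • diff q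
        - ((i : ℂ) • q) • diff (affine a b c) ∧
      x = Projectivization.mk ℂ ω h}

/-- The family `B_1`: all foliations `dq/q + dp`, that is `dq + q dp`, with `deg p = 1` and
`deg q = d`. -/
def familyB (d : ℕ) : Set (Fol d) :=
  {x | ∃ (a b c : ℂ) (q : Poly), (b ≠ 0 ∨ c ≠ 0) ∧ q.totalDegree = d ∧
    ∃ (ω : forms d) (h : ω ≠ 0), (ω : Form) = diff q + q • diff (affine a b c) ∧
      x = Projectivization.mk ℂ ω h}

/-- The form with first integral `f₁^{λ₁} ⋯ f_s^{λ_s} exp(g / (f₁^{n₁} ⋯ f_s^{n_s}))`, namely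
`F f₁ ⋯ f_s (∑ λ_j df_j / f_j + d(g / F))` with `F = f₁^{n₁} ⋯ f_s^{n_s}`, written without
denominators. -/
noncomputable def expForm {s : ℕ} (f : Fin s → Poly) (lam : Fin s → ℂ) (n : Fin s → ℕ)
    (g : Poly) : Form :=
  (∏ j, f j ^ n j) • logForm f lam + (∏ j, f j) • diff g
    - g • logForm f (fun j => (n j : ℂ))

/-- The exponential family with degree bounds `d₁, …, d_s; e`: all foliations with a first
integral `f₁^{λ₁} ⋯ f_s^{λ_s} exp(g / F)`, `F = f₁^{n₁} ⋯ f_s^{n_s}`, with `deg f_j ≤ d_j`,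
`deg g ≤ e` and `deg F ≤ e`. -/
def expFamily (d : ℕ) {s : ℕ} (D : Fin s → ℕ) (e : ℕ) : Set (Fol d) :=
  {x | ∃ (f : Fin s → Poly) (lam : Fin s → ℂ) (n : Fin s → ℕ) (g : Poly),
    (∀ j, (f j).totalDegree ≤ D j) ∧ g.totalDegree ≤ e ∧ (∏ j, f j ^ n j).totalDegree ≤ e ∧
    ∃ (ω : forms d) (h : ω ≠ 0), (ω : Form) = expForm f lam n g ∧
      x = Projectivization.mk ℂ ω h}


/-! ## The statements about `F(df)` -/

/-- The conditions of the problem on `f`: it has degree `d`, its critical points are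
non-degenerate and have pairwise distinct critical values. -/
def AsInProblem (d : ℕ) (f : Poly) : Prop :=
  f.totalDegree = d ∧
  (∀ p : Fin 2 → ℂ, eval p (pderiv 0 f) = 0 → eval p (pderiv 1 f) = 0 →
    eval p (pderiv 0 (pderiv 0 f) * pderiv 1 (pderiv 1 f) - pderiv 0 (pderiv 1 f) ^ 2) ≠ 0) ∧
  (∀ p q : Fin 2 → ℂ, eval p (pderiv 0 f) = 0 → eval p (pderiv 1 f) = 0 →
    eval q (pderiv 0 f) = 0 → eval q (pderiv 1 f) = 0 → eval p f = eval q f → p = q)

/-- The foliation `F(df)` belongs to `Z`. -/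
def Passes {d : ℕ} (Z : Set (Fol d)) (f : Poly) : Prop :=
  ∃ (ω : forms d) (h : ω ≠ 0), (ω : Form) = diff f ∧ Projectivization.mk ℂ ω h ∈ Z

/-- A property holds for generic polynomials of degree at most `d`: it holds for all those at
which some polynomial `Φ` in the coefficients does not vanish, where `Φ` does not vanish
identically on the polynomials of degree at most `d`. -/
def Generic (d : ℕ) (p : Poly → Prop) : Prop :=
  ∃ Φ : MvPolynomial (Fin 2 →₀ ℕ) ℂ,
    (∃ f₀ : Poly, f₀.totalDegree ≤ d ∧ eval (fun m => coeff m f₀) Φ ≠ 0) ∧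
    ∀ f : Poly, f.totalDegree ≤ d → eval (fun m => coeff m f) Φ ≠ 0 → p f

/-- The families under discussion: the closures of the logarithmic families, of the exponential
families, of the families `A_i` and of the family `B_1`. -/
def Candidate (d : ℕ) (Z : Set (Fol d)) : Prop :=
  (∃ (s : ℕ) (D : Fin s → ℕ), (∀ j, 1 ≤ D j) ∧ ∑ j, D j = d + 1 ∧
    Z = zariskiClosure (logFamily d D)) ∨
  (∃ (s : ℕ) (D : Fin s → ℕ) (e : ℕ), (∀ j, 1 ≤ D j) ∧ 1 ≤ e ∧ ∑ j, D j + e = d + 1 ∧
    Z = zariskiClosure (expFamily d D e)) ∨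
  (∃ i ≤ d, Z = zariskiClosure (familyA d i)) ∨
  Z = zariskiClosure (familyB d)


end Pool.Agent.H898.Center
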