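import Pool.Agent.H898.CenterDefs

set_option autoImplicit false

open MvPolynomial Filter Topology

namespace Pool.Agent.H898.Center

/-! ## The center locus `M(d)` -/

/-- `ω = A dx + B dy` belongs to `F(d)`: `A, B` are coprime and `max (deg A) (deg B) = d`. -/
def HasDegree (d : ℕ) (ω : Form) : Prop :=
  IsRelPrime ω.1 ω.2 ∧ max ω.1.totalDegree ω.2.totalDegree = d

/-- `p` is a reduced singularity of `ω = A dx + B dy`: a common zero of `A, B` at which
`A_x B_y - A_y B_x` does not vanish. -/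
def IsReducedSingularity (ω : Form) (p : Fin 2 → ℂ) : Prop :=
  eval p ω.1 = 0 ∧ eval p ω.2 = 0 ∧
    eval p (pderiv 0 ω.1 * pderiv 1 ω.2 - pderiv 1 ω.1 * pderiv 0 ω.2) ≠ 0

/-- `p` is a center of `ω = A dx + B dy`: a reduced singularity at which there are local
holomorphic coordinates `u, v`, centred at `p`, with `ω ∧ d(u² + v²) = 0` near `p`. -/
def IsCenter (ω : Form) (p : Fin 2 → ℂ) : Prop :=
  IsReducedSingularity ω p ∧ ∃ u v : (Fin 2 → ℂ) → ℂ,
    AnalyticAt ℂ u p ∧ AnalyticAt ℂ v p ∧ u p = 0 ∧ v p = 0 ∧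
    LinearIndependent ℂ ![fderiv ℂ u p, fderiv ℂ v p] ∧
    ∀ᶠ z in 𝓝 p, eval z ω.1 * fderiv ℂ (fun w => u w ^ 2 + v w ^ 2) z (Pi.single 1 1) -
      eval z ω.2 * fderiv ℂ (fun w => u w ^ 2 + v w ^ 2) z (Pi.single 0 1) = 0

/-- The center locus `M(d)`: the closure of the set of foliations of degree `d` having at least
one center. -/
def centerLocus (d : ℕ) : Set (Fol d) :=
  zariskiClosure {x | ∃ (ω : forms d) (h : ω ≠ 0), HasDegree d (ω : Form) ∧
    (∃ p, IsCenter (ω : Form) p) ∧ x = Projectivization.mk ℂ ω h}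

/-- The polynomial `A(x) + y²`. -/
noncomputable def quadPoly (A : Polynomial ℂ) : Poly := Polynomial.aeval (X 0 : Poly) A + X 1 ^ 2

end Pool.Agent.H898.Center
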