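import Pool.Agent.H898.CenterDefs

set_option autoImplicit false

open MvPolynomial

namespace Pool.Agent.H898.Center

/-! ## Proofs -/


theorem totalDegree_pderiv_le (i : Fin 2) (f : Poly) :
    (pderiv i f).totalDegree ≤ f.totalDegree - 1 := by
  refine Finset.sup_le fun m hm => ?_
  rw [mem_support_iff, coeff_pderiv] at hm
  have h1 : coeff (m + Finsupp.single i 1) f ≠ 0 := fun h0 => hm (by rw [h0]; simp)
  have h2 := le_totalDegree (mem_support_iff.mpr h1)
  have h3 : ((m + Finsupp.single i 1).sum fun _ e => e) = (m.sum fun _ e => e) + 1 := by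
    rw [Finsupp.sum_add_index' (fun _ => rfl) (fun _ _ _ => rfl)]
    simp
  omega

theorem pderiv_eq_zero_of_totalDegree_zero (i : Fin 2) (f : Poly) (h : f.totalDegree = 0) :
    pderiv i f = 0 := by
  rw [totalDegree_eq_zero_iff_eq_C] at h
  rw [h, pderiv_C]

theorem pderiv_comm (f : Poly) : pderiv 0 (pderiv 1 f) = pderiv 1 (pderiv 0 f) := by
  ext m
  simp only [coeff_pderiv]
  have : m + Finsupp.single 0 1 + Finsupp.single 1 1 = m + Finsupp.single 1 1 + Finsupp.single (0 : Fin 2) 1 := by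
    abel
  rw [this]
  simp
  ring

theorem coord_add_smul (ω η : Form) (t : ℂ) (k : Fin 2 × (Fin 2 →₀ ℕ)) :
    coord (ω + t • η) k = coord ω k + t * coord η k := by
  unfold coord
  split_ifs <;> simp

theorem coord_smul (ω : Form) (t : ℂ) : coord (t • ω) = fun k => t * coord ω k := by
  funext k
  unfold coord
  split_ifs <;> simp

theorem eval_smul_of_isHomogeneous {Φ : PolyFun} {n : ℕ} (hΦ : Φ.IsHomogeneous n)
    (v : Fin 2 × (Fin 2 →₀ ℕ) → ℂ) (t : ℂ) :
    eval (fun k => t * v k) Φ = t ^ n * eval v Φ := by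
  rw [eval_eq, eval_eq, Finset.mul_sum]
  refine Finset.sum_congr rfl fun m hm => ?_
  have hdeg : m.degree = n := by
    by_contra hne
    exact (mem_support_iff.mp hm) (hΦ.coeff_eq_zero hne)
  have : ∏ k ∈ m.support, (t * v k) ^ m k = t ^ n * ∏ k ∈ m.support, v k ^ m k := by
    simp only [mul_pow]
    rw [Finset.prod_mul_distrib, Finset.prod_pow_eq_pow_sum]
    congr 2
  rw [this]; ring

/-- the line argument -/
theorem eval_eq_zero_of_line (Φ : PolyFun) (ω η : Form) (s : Set ℂ) (hs : s.Finite)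
    (h : ∀ t : ℂ, t ∉ s → eval (coord (ω + t • η)) Φ = 0) : eval (coord ω) Φ = 0 := by
  let P : Polynomial ℂ :=
    aeval (fun k => Polynomial.C (coord ω k) + Polynomial.X * Polynomial.C (coord η k)) Φ
  have hP : ∀ t : ℂ, P.eval t = eval (coord (ω + t • η)) Φ := by
    intro t
    have h1 : P.eval t = (Polynomial.evalRingHom t).comp
        (aeval (fun k => Polynomial.C (coord ω k) + Polynomial.X * Polynomial.C (coord η k)) :
          PolyFun →ₐ[ℂ] Polynomial ℂ).toRingHom Φ := rfl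
    rw [h1]
    have h2 : (Polynomial.evalRingHom t).comp
        (aeval (fun k => Polynomial.C (coord ω k) + Polynomial.X * Polynomial.C (coord η k)) :
          PolyFun →ₐ[ℂ] Polynomial ℂ).toRingHom = eval (coord (ω + t • η)) := by
      apply ringHom_ext
      · intro r; simp
      · intro k
        simp [coord_add_smul]
        ring
    rw [h2]
  have hzero : P = 0 := by
    apply Polynomial.eq_zero_of_infinite_isRoot
    refine Set.Infinite.mono ?_ (hs.infinite_compl)
    intro t ht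
    show P.eval t = 0
    rw [hP t]; exact h t ht
  have := hP 0
  rw [hzero] at this
  simpa using this.symm

theorem mk_mem_zeroLocus {d : ℕ} (S : Set PolyFun) (hS : ∀ Φ ∈ S, ∃ n : ℕ, Φ.IsHomogeneous n)
    (ω : forms d) (h : ω ≠ 0) :
    Projectivization.mk ℂ ω h ∈ zeroLocus d S ↔ ∀ Φ ∈ S, eval (coord (ω : Form)) Φ = 0 := by
  obtain ⟨a, ha⟩ := Projectivization.exists_smul_eq_mk_rep ℂ ω h
  have hrep : (((Projectivization.mk ℂ ω h).rep : forms d) : Form) = (a : ℂ) • (ω : Form) := by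
    rw [← ha]; rfl
  constructor
  · intro hx Φ hΦ
    obtain ⟨n, hn⟩ := hS Φ hΦ
    have := hx Φ hΦ
    rw [hrep, coord_smul, eval_smul_of_isHomogeneous hn] at this
    rcases mul_eq_zero.mp this with h0 | h0
    · exact absurd h0 (pow_ne_zero n a.ne_zero)
    · exact h0
  · intro hx Φ hΦ
    obtain ⟨n, hn⟩ := hS Φ hΦ
    rw [hrep, coord_smul, eval_smul_of_isHomogeneous hn, hx Φ hΦ, mul_zero]


theorem subset_zariskiClosure {d : ℕ} (Z : Set (Fol d)) : Z ⊆ zariskiClosure Z :=
  fun _ hx _ hW => hW.2 hx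

theorem zariskiClosure_subset {d : ℕ} {Z W : Set (Fol d)} (hW : IsAlgebraic W) (h : Z ⊆ W) :
    zariskiClosure Z ⊆ W := fun _ hx => hx W ⟨hW, h⟩

theorem isAlgebraic_zariskiClosure {d : ℕ} (Z : Set (Fol d)) :
    IsAlgebraic (zariskiClosure Z) := by
  refine ⟨{Φ | (∃ n : ℕ, Φ.IsHomogeneous n) ∧ ∀ x ∈ Z, eval (coord (x.rep : Form)) Φ = 0},
    fun Φ hΦ => hΦ.1, ?_⟩
  apply Set.Subset.antisymm
  · intro x hx Φ hΦ
    have : x ∈ zeroLocus d {Φ} := hx (zeroLocus d {Φ})
      ⟨⟨{Φ}, by intro Ψ hΨ; rw [Set.mem_singleton_iff.mp hΨ]; exact hΦ.1, rfl⟩, by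
        intro y hy Ψ hΨ
        rw [Set.mem_singleton_iff.mp hΨ]
        exact hΦ.2 y hy⟩
    exact this Φ rfl
  · rintro x hx W ⟨⟨S, hS, rfl⟩, hZ⟩
    intro Φ hΦ
    exact hx Φ ⟨hS Φ hΦ, fun y hy => hZ hy Φ hΦ⟩

/-- A line argument for points of the projectivization. -/
theorem mem_zariskiClosure_of_line {d : ℕ} (Z : Set (Fol d)) (ω η : forms d) (h : ω ≠ 0)
    (hl : ∀ t : ℂ, t ≠ 0 → ∀ ht : ω + t • η ≠ 0, Projectivization.mk ℂ (ω + t • η) ht ∈ Z) :
    Projectivization.mk ℂ ω h ∈ zariskiClosure Z := by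
  rintro W ⟨⟨S, hS, rfl⟩, hZ⟩
  rw [mk_mem_zeroLocus S hS]
  intro Φ hΦ
  refine eval_eq_zero_of_line Φ ω η ({0} ∪ {t : ℂ | ω + t • η = 0}) ?_ ?_
  · refine (Set.finite_singleton 0).union ?_
    apply Set.Subsingleton.finite
    intro t ht u hu
    by_contra htu
    have ht' : ω + t • η = 0 := ht
    have hu' : ω + u • η = 0 := hu
    have h1 : (t - u) • η = 0 := by
      have e : (t - u) • η = t • η - u • η := sub_smul t u η
      have e2 : t • η - u • η = (ω + t • η) - (ω + u • η) := by abel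
      rw [e, e2, ht', hu', sub_zero]
    rcases smul_eq_zero.mp h1 with h2 | h2
    · exact htu (sub_eq_zero.mp h2)
    · apply h
      rw [h2, smul_zero, add_zero] at ht'
      exact ht'
  · intro t ht
    have ht1 : t ≠ 0 := fun h0 => ht (Or.inl h0)
    have ht2 : ω + t • η ≠ 0 := fun h0 => ht (Or.inr h0)
    have h3 := hZ (hl t ht1 ht2)
    rw [mk_mem_zeroLocus S hS] at h3
    exact h3 Φ hΦ

theorem diff_mul (f g : Poly) : diff (f * g) = f • diff g + g • diff f := by
  unfold diff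
  rw [Derivation.leibniz, Derivation.leibniz]
  simp

theorem diff_add (f g : Poly) : diff (f + g) = diff f + diff g := by
  unfold diff; simp

theorem diff_smul (t : ℂ) (g : Poly) : diff (t • g) = t • diff g := by
  unfold diff; simp

theorem diff_one : diff 1 = 0 := by
  unfold diff; simp

theorem deriv_pow_aux (δ : Derivation ℂ Poly Poly) (f : Poly) (n : ℕ) :
    f * δ (f ^ n) = (n : Poly) * (f ^ n * δ f) := by
  induction n with
  | zero => simp
  | succ n ih =>
    rw [pow_succ, Derivation.leibniz]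
    simp only [smul_eq_mul]
    push_cast
    linear_combination f * ih

theorem deriv_prod_pow_aux {ι : Type*} [DecidableEq ι] (δ : Derivation ℂ Poly Poly)
    (s : Finset ι) (f : ι → Poly) (n : ι → ℕ) :
    (∏ j ∈ s, f j) * δ (∏ j ∈ s, f j ^ n j) =
      (∏ j ∈ s, f j ^ n j) * ∑ j ∈ s, (n j : Poly) * ((∏ k ∈ s.erase j, f k) * δ (f j)) := by
  induction s using Finset.induction_on with
  | empty => simp
  | insert a s ha ih =>
    rw [Finset.prod_insert ha, Finset.prod_insert ha, Derivation.leibniz, Finset.sum_insert ha,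
      Finset.erase_insert ha]
    have h1 : ∀ j ∈ s, (n j : Poly) * ((∏ k ∈ (insert a s).erase j, f k) * δ (f j)) =
        f a * ((n j : Poly) * ((∏ k ∈ s.erase j, f k) * δ (f j))) := by
      intro j hj
      have hne : a ≠ j := fun h => ha (h ▸ hj)
      rw [Finset.erase_insert_of_ne hne, Finset.prod_insert (by simp [ha])]
      ring
    rw [Finset.sum_congr rfl h1, ← Finset.mul_sum]
    simp only [smul_eq_mul]
    have h2 := deriv_pow_aux δ (f a) (n a)
    linear_combination (f a ^ n a * f a) * ih + ((∏ j ∈ s, f j) * (∏ j ∈ s, f j ^ n j)) * h2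

theorem logForm_fst {s : ℕ} (f : Fin s → Poly) (lam : Fin s → ℂ) :
    (logForm f lam).1 = ∑ j, C (lam j) * ((∏ k ∈ Finset.univ.erase j, f k) * pderiv 0 (f j)) := by
  unfold logForm diff
  rw [Prod.fst_sum]
  refine Finset.sum_congr rfl fun j _ => ?_
  simp [smul_eq_C_mul]

theorem logForm_snd {s : ℕ} (f : Fin s → Poly) (lam : Fin s → ℂ) :
    (logForm f lam).2 = ∑ j, C (lam j) * ((∏ k ∈ Finset.univ.erase j, f k) * pderiv 1 (f j)) := by
  unfold logForm diff
  rw [Prod.snd_sum]
  refine Finset.sum_congr rfl fun j _ => ?_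
  simp [smul_eq_C_mul]

theorem erase_castSucc {s : ℕ} (j : Fin s) :
    (Finset.univ.erase (Fin.castSucc j) : Finset (Fin (s + 1))) =
      insert (Fin.last s) ((Finset.univ.erase j).map Fin.castSuccEmb) := by
  ext k
  refine Fin.lastCases ?_ (fun k => ?_) k
  · simp [Fin.ext_iff, (Fin.is_lt j).ne']
  · simp

theorem erase_last {s : ℕ} :
    (Finset.univ.erase (Fin.last s) : Finset (Fin (s + 1))) =
      (Finset.univ : Finset (Fin s)).map Fin.castSuccEmb := by
  ext k
  refine Fin.lastCases ?_ (fun k => ?_) k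
  · simp
  · simp [Fin.ext_iff, (Fin.is_lt k).ne]

theorem deriv_snoc_aux {s : ℕ} (δ : Derivation ℂ Poly Poly) (f : Fin s → Poly)
    (lam : Fin s → ℂ) (n : Fin s → ℕ) (g : Poly) (t : ℂ) (ht : t ≠ 0) :
    ∑ j, C (Fin.snoc (α := fun _ => ℂ) (fun j => lam j - n j / t) (1 / t) j) *
        ((∏ k ∈ Finset.univ.erase j,
          Fin.snoc (α := fun _ => Poly) f ((∏ j, f j ^ n j) + t • g) k) *
          δ (Fin.snoc (α := fun _ => Poly) f ((∏ j, f j ^ n j) + t • g) j)) =
      (∏ j, f j ^ n j) * (∑ j, C (lam j) * ((∏ k ∈ Finset.univ.erase j, f k) * δ (f j)))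
        + (∏ j, f j) * δ g
        - g * (∑ j, C (n j : ℂ) * ((∏ k ∈ Finset.univ.erase j, f k) * δ (f j)))
        + t • (g * ∑ j, C (lam j) * ((∏ k ∈ Finset.univ.erase j, f k) * δ (f j))) := by
  rw [Fin.sum_univ_castSucc]
  simp only [Fin.snoc_castSucc, Fin.snoc_last]
  have h1 : ∀ j : Fin s, (∏ k ∈ Finset.univ.erase (Fin.castSucc j),
      Fin.snoc (α := fun _ => Poly) f ((∏ j, f j ^ n j) + t • g) k) =
      ((∏ j, f j ^ n j) + t • g) * ∏ k ∈ Finset.univ.erase j, f k := by
    intro j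
    rw [erase_castSucc, Finset.prod_insert (by simp), Finset.prod_map]
    simp
  have h2 : (∏ k ∈ Finset.univ.erase (Fin.last s),
      Fin.snoc (α := fun _ => Poly) f ((∏ j, f j ^ n j) + t • g) k) = ∏ k, f k := by
    rw [erase_last, Finset.prod_map]
    simp
  simp only [h1, h2]
  have h3 := deriv_prod_pow_aux δ Finset.univ f n
  have h4 : ∀ j : Fin s, C (lam j - n j / t) * ((((∏ j, f j ^ n j) + t • g) *
      ∏ k ∈ Finset.univ.erase j, f k) * δ (f j)) =
      ((∏ j, f j ^ n j) + t • g) * (C (lam j) * ((∏ k ∈ Finset.univ.erase j, f k) * δ (f j)))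
      - C (1 / t) * ((∏ j, f j ^ n j) + t • g) *
        ((n j : Poly) * ((∏ k ∈ Finset.univ.erase j, f k) * δ (f j))) := by
    intro j
    have : (C (lam j - n j / t) : Poly) = C (lam j) - C (1 / t) * (n j : Poly) := by
      rw [← map_natCast (C : ℂ →+* Poly) (n j), ← C_mul, ← C_sub]
      congr 1
      ring
    rw [this]; ring
  simp only [h4]
  rw [Finset.sum_sub_distrib, ← Finset.mul_sum, ← Finset.mul_sum, map_add,
    Derivation.map_smul]
  have h5 : ∀ j : Fin s, (C (n j : ℂ) : Poly) = (n j : Poly) := fun j => by simp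
  simp only [h5]
  have ht' : (C (1 / t) : Poly) * C t = 1 := by
    rw [← C_mul]; simp [ht]
  simp only [smul_eq_C_mul]
  linear_combination (C (1 / t)) * h3 + ((∏ j, f j) * δ g
    - g * (∑ j, (n j : Poly) * ((∏ k ∈ Finset.univ.erase j, f k) * δ (f j)))) * ht'

theorem logForm_snoc {s : ℕ} (f : Fin s → Poly) (lam : Fin s → ℂ) (n : Fin s → ℕ) (g : Poly)
    (t : ℂ) (ht : t ≠ 0) :
    logForm (Fin.snoc (α := fun _ => Poly) f ((∏ j, f j ^ n j) + t • g))
        (Fin.snoc (α := fun _ => ℂ) (fun j => lam j - n j / t) (1 / t)) =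
      expForm f lam n g + t • (g • logForm f lam) := by
  apply Prod.ext
  · rw [logForm_fst, deriv_snoc_aux (pderiv 0) f lam n g t ht]
    simp [expForm, logForm_fst, diff]
  · rw [logForm_snd, deriv_snoc_aux (pderiv 1) f lam n g t ht]
    simp [expForm, logForm_snd, diff]

theorem totalDegree_term {s : ℕ} (i : Fin 2) (f : Fin s → Poly) (D : Fin s → ℕ)
    (hf : ∀ j, (f j).totalDegree ≤ D j) (j : Fin s) (c : ℂ) {d : ℕ} (hd : ∑ j, D j ≤ d + 1) :
    (C c * ((∏ k ∈ Finset.univ.erase j, f k) * pderiv i (f j))).totalDegree ≤ d := by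
  by_cases h0 : pderiv i (f j) = 0
  · simp [h0]
  have h1 : (f j).totalDegree ≠ 0 := fun h => h0 (pderiv_eq_zero_of_totalDegree_zero i (f j) h)
  have h2 := totalDegree_pderiv_le i (f j)
  have h3 : (∏ k ∈ Finset.univ.erase j, f k).totalDegree ≤
      ∑ k ∈ Finset.univ.erase j, D k :=
    (totalDegree_finsetProd _ _).trans (Finset.sum_le_sum fun k _ => hf k)
  have h4 : ∑ k ∈ Finset.univ.erase j, D k + D j = ∑ k, D k :=
    Finset.sum_erase_add _ _ (Finset.mem_univ j)
  have h5 := totalDegree_mul (C c) ((∏ k ∈ Finset.univ.erase j, f k) * pderiv i (f j))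
  have h6 := totalDegree_mul (∏ k ∈ Finset.univ.erase j, f k) (pderiv i (f j))
  rw [totalDegree_C] at h5
  have h7 := hf j
  omega

theorem logForm_mem_forms {s : ℕ} (f : Fin s → Poly) (lam : Fin s → ℂ) (D : Fin s → ℕ)
    (hf : ∀ j, (f j).totalDegree ≤ D j) {d : ℕ} (hd : ∑ j, D j ≤ d + 1) :
    logForm f lam ∈ forms d := by
  refine ⟨?_, ?_⟩
  · rw [logForm_fst]
    refine Submodule.sum_mem _ fun j _ => ?_
    rw [mem_restrictTotalDegree]
    exact totalDegree_term 0 f D hf j _ hd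
  · rw [logForm_snd]
    refine Submodule.sum_mem _ fun j _ => ?_
    rw [mem_restrictTotalDegree]
    exact totalDegree_term 1 f D hf j _ hd

theorem mul_mem_restrict {a b : ℕ} {g h : Poly} (hg : g.totalDegree ≤ a)
    (hh : h ∈ restrictTotalDegree (Fin 2) ℂ b) : g * h ∈ restrictTotalDegree (Fin 2) ℂ (a + b) := by
  rw [mem_restrictTotalDegree] at hh ⊢
  exact (totalDegree_mul g h).trans (by omega)

theorem smul_logForm_mem_forms {s : ℕ} (f : Fin s → Poly) (lam : Fin s → ℂ) (D : Fin s → ℕ)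
    (e : ℕ) (g : Poly) (hg : g.totalDegree ≤ e)
    (hf : ∀ j, (f j).totalDegree ≤ D j) {d : ℕ} (hd : ∑ j, D j + e = d + 1) :
    g • logForm f lam ∈ forms d := by
  by_cases hs : ∑ j, D j = 0
  · -- all `f j` are constants, hence the logarithmic form vanishes
    have h0 : ∀ j, (f j).totalDegree = 0 := fun j => by
      have h1 := hf j
      have h2 : D j ≤ ∑ j, D j := Finset.single_le_sum (fun _ _ => Nat.zero_le _) (Finset.mem_univ j)
      omega
    have h1 : logForm f lam = 0 := by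
      apply Prod.ext
      · rw [logForm_fst]
        refine Finset.sum_eq_zero fun j _ => ?_
        rw [pderiv_eq_zero_of_totalDegree_zero 0 (f j) (h0 j)]; simp
      · rw [logForm_snd]
        refine Finset.sum_eq_zero fun j _ => ?_
        rw [pderiv_eq_zero_of_totalDegree_zero 1 (f j) (h0 j)]; simp
    rw [h1, smul_zero]
    exact Submodule.zero_mem _
  · obtain ⟨b, hb⟩ : ∃ b, ∑ j, D j = b + 1 := Nat.exists_eq_succ_of_ne_zero hs
    have h1 := logForm_mem_forms f lam D hf hb.le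
    have hdb : d = e + b := by omega
    subst hdb
    exact ⟨mul_mem_restrict hg h1.1, mul_mem_restrict hg h1.2⟩

theorem expFamily_subset (d : ℕ) {s : ℕ} (D : Fin s → ℕ) (e : ℕ)
    (hsum : ∑ j, D j + e = d + 1) :
    expFamily d D e ⊆ zariskiClosure (logFamily d (Fin.snoc (α := fun _ => ℕ) D e)) := by
  rintro x ⟨f, lam, n, g, hf, hg, hF, ω, h, hω, rfl⟩
  refine mem_zariskiClosure_of_line _ ω
    ⟨g • logForm f lam, smul_logForm_mem_forms f lam D e g hg hf hsum⟩ h ?_
  intro t ht hne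
  refine ⟨Fin.snoc (α := fun _ => Poly) f ((∏ j, f j ^ n j) + t • g),
    Fin.snoc (α := fun _ => ℂ) (fun j => lam j - n j / t) (1 / t), ?_, _, hne, ?_, rfl⟩
  · intro j
    refine Fin.lastCases ?_ (fun j => ?_) j
    · simp only [Fin.snoc_last]
      refine (totalDegree_add _ _).trans (max_le hF ?_)
      exact (totalDegree_smul_le t g).trans hg
    · simp only [Fin.snoc_castSucc]
      exact hf j
  · rw [logForm_snoc f lam n g t ht, ← hω]
    rfl

/-- The coefficient of the monomial `m` in `B_x - A_y`, as a polynomial in the coordinates. -/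
noncomputable def curlCoord (m : Fin 2 →₀ ℕ) : PolyFun :=
  C ((m 0 : ℂ) + 1) * X (1, m + Finsupp.single 0 1) -
    C ((m 1 : ℂ) + 1) * X (0, m + Finsupp.single 1 1)

theorem eval_curlCoord (ω : Form) (m : Fin 2 →₀ ℕ) :
    eval (coord ω) (curlCoord m) = coeff m (pderiv 0 ω.2 - pderiv 1 ω.1) := by
  unfold curlCoord coord
  simp [coeff_pderiv]
  ring

theorem curlCoord_hom (m : Fin 2 →₀ ℕ) : (curlCoord m).IsHomogeneous 1 := by
  unfold curlCoord
  exact (isHomogeneous_C_mul_X _ _).sub (isHomogeneous_C_mul_X _ _)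

theorem det_hom (M : Matrix (Fin 3) (Fin 3) PolyFun) (h : ∀ i j, (M i j).IsHomogeneous 1) :
    M.det.IsHomogeneous 3 := by
  rw [Matrix.det_fin_three]
  have h3 : ∀ a b c a' b' c' : Fin 3, (M a a' * M b b' * M c c').IsHomogeneous 3 :=
    fun a b c a' b' c' => ((h a a').mul (h b b')).mul (h c c')
  exact (((((h3 _ _ _ _ _ _).sub (h3 _ _ _ _ _ _)).sub (h3 _ _ _ _ _ _)).add
    (h3 _ _ _ _ _ _)).add (h3 _ _ _ _ _ _)).sub (h3 _ _ _ _ _ _)

/-- The three monomials `y^{n+1}`, `x y^{n+1}`, `1`. -/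
noncomputable def mono (n : ℕ) : Fin 3 → (Fin 2 →₀ ℕ) :=
  ![Finsupp.single 1 1 + Finsupp.single 1 n,
    Finsupp.single 0 1 + (Finsupp.single 1 1 + Finsupp.single 1 n), 0]

theorem finsupp_eq_iff (m m' : Fin 2 →₀ ℕ) : m = m' ↔ m 0 = m' 0 ∧ m 1 = m' 1 := by
  rw [Finsupp.ext_iff, Fin.forall_fin_two]



theorem totalDegree_affine_le (a b c : ℂ) : (affine a b c).totalDegree ≤ 1 := by
  unfold affine
  refine (totalDegree_add _ _).trans (max_le ((totalDegree_add _ _).trans (max_le ?_ ?_)) ?_)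
  · simp
  · exact (totalDegree_mul _ _).trans (by simp)
  · exact (totalDegree_mul _ _).trans (by simp)

theorem logForm_one (p : Poly) (c : ℂ) : logForm ![p] ![c] = c • diff p := by
  unfold logForm
  simp

theorem logForm_one' (p : Poly) (c : Fin 1 → ℂ) : logForm ![p] c = c 0 • diff p := by
  unfold logForm
  simp

theorem familyA_subset (d i : ℕ) (hi : i ≤ d) : familyA d i ⊆ expFamily d ![1] d := by
  rintro x ⟨a, b, c, q, -, hq, ω, h, hω, rfl⟩
  refine ⟨![affine a b c], ![1], ![i], q, ?_, hq.le, ?_, ω, h, ?_, rfl⟩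
  · intro j
    fin_cases j
    exact totalDegree_affine_le a b c
  · simp only [Fin.prod_univ_one, Matrix.cons_val_zero]
    refine (totalDegree_pow _ _).trans ?_
    have := totalDegree_affine_le a b c
    calc i * (affine a b c).totalDegree ≤ i * 1 := Nat.mul_le_mul_left i this
      _ ≤ d := by omega
  · rw [hω]
    unfold expForm
    rw [logForm_one', logForm_one']
    simp only [Fin.prod_univ_one, Matrix.cons_val_zero, one_smul]
    congr 1
    rw [smul_comm, smul_assoc]

theorem familyB_subset (d : ℕ) : familyB d ⊆ expFamily d ![d] 1 := by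
  rintro x ⟨a, b, c, q, -, hq, ω, h, hω, rfl⟩
  refine ⟨![q], ![1], ![0], affine a b c, ?_, totalDegree_affine_le a b c, ?_, ω, h, ?_, rfl⟩
  · intro j
    fin_cases j
    exact hq.le
  · simp
  · rw [hω]
    unfold expForm
    rw [logForm_one', logForm_one']
    simp

theorem snoc_one (d : ℕ) : (Fin.snoc (α := fun _ => ℕ) ![1] d : Fin 2 → ℕ) = ![1, d] := by
  funext j
  fin_cases j <;> rfl

theorem snoc_two (d : ℕ) : (Fin.snoc (α := fun _ => ℕ) ![d] 1 : Fin 2 → ℕ) = ![d, 1] := by
  funext j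
  fin_cases j <;> rfl

theorem logForm_two (f g : Poly) (c e : ℂ) :
    logForm ![f, g] ![c, e] = c • (g • diff f) + e • (f • diff g) := by
  have h0 : (Finset.univ.erase (0 : Fin 2)) = {1} := by decide
  have h1 : (Finset.univ.erase (1 : Fin 2)) = {0} := by decide
  unfold logForm
  rw [Fin.sum_univ_two, h0, h1]
  simp

theorem logFamily_swap (d a b : ℕ) : logFamily d ![a, b] ⊆ logFamily d ![b, a] := by
  rintro x ⟨f, lam, hf, ω, h, hω, rfl⟩
  refine ⟨![f 1, f 0], ![lam 1, lam 0], ?_, ω, h, ?_, rfl⟩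
  · intro j
    fin_cases j
    · exact hf 1
    · exact hf 0
  · rw [hω, logForm_two]
    have e1 : f = ![f 0, f 1] := by funext j; fin_cases j <;> rfl
    have e2 : lam = ![lam 0, lam 1] := by funext j; fin_cases j <;> rfl
    conv_lhs => rw [e1, e2]
    rw [logForm_two, add_comm]

theorem zariskiClosure_mono {d : ℕ} {Z W : Set (Fol d)} (h : Z ⊆ W) :
    zariskiClosure Z ⊆ zariskiClosure W :=
  zariskiClosure_subset (isAlgebraic_zariskiClosure W) (h.trans (subset_zariskiClosure W))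

theorem closure_familyA_subset (d i : ℕ) (hi : i ≤ d) :
    zariskiClosure (familyA d i) ⊆ zariskiClosure (logFamily d ![1, d]) := by
  refine zariskiClosure_subset (isAlgebraic_zariskiClosure _) ?_
  refine (familyA_subset d i hi).trans ?_
  have := expFamily_subset d ![1] d (by simp; omega)
  rwa [snoc_one] at this

theorem closure_familyB_subset (d : ℕ) :
    zariskiClosure (familyB d) ⊆ zariskiClosure (logFamily d ![1, d]) := by
  refine zariskiClosure_subset (isAlgebraic_zariskiClosure _) ?_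
  refine (familyB_subset d).trans ?_
  have := expFamily_subset d ![d] 1 (by simp)
  rw [snoc_two] at this
  exact this.trans (zariskiClosure_mono (logFamily_swap d d 1))



/-- The coefficient of `m` in `X j * (B_x - A_y)`. -/
noncomputable def curlShift (j : Fin 2) (m : Fin 2 →₀ ℕ) : PolyFun :=
  if j ∈ m.support then curlCoord (m - Finsupp.single j 1) else 0

theorem eval_curlShift (ω : Form) (j : Fin 2) (m : Fin 2 →₀ ℕ) :
    eval (coord ω) (curlShift j m) = coeff m (X j * (pderiv 0 ω.2 - pderiv 1 ω.1)) := by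
  unfold curlShift
  rw [coeff_X_mul']
  split_ifs with h
  · exact eval_curlCoord ω _
  · simp

theorem curlShift_hom (j : Fin 2) (m : Fin 2 →₀ ℕ) : (curlShift j m).IsHomogeneous 1 := by
  unfold curlShift
  split_ifs
  · exact curlCoord_hom _
  · exact isHomogeneous_zero _ _ _

theorem eval_X_zero (ω : Form) (m : Fin 2 →₀ ℕ) :
    eval (coord ω) (X (0, m) : PolyFun) = coeff m ω.1 := by simp [coord]

theorem eval_X_one (ω : Form) (m : Fin 2 →₀ ℕ) :
    eval (coord ω) (X (1, m) : PolyFun) = coeff m ω.2 := by simp [coord]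

/-- The matrix detecting the family `A_i`. -/
noncomputable def matA (n i : ℕ) : Matrix (Fin 3) (Fin 3) PolyFun := fun k =>
  ![curlCoord (mono n k),
    curlShift 0 (mono n k) - C (1 + (i : ℂ)) * X (1, mono n k),
    curlShift 1 (mono n k) + C (1 + (i : ℂ)) * X (0, mono n k)]

/-- The matrix detecting the family `B_1`. -/
noncomputable def matB (n : ℕ) : Matrix (Fin 3) (Fin 3) PolyFun := fun k =>
  ![curlCoord (mono n k), X (1, mono n k), C (-1) * X (0, mono n k)]

theorem matA_hom (n i : ℕ) (k l : Fin 3) : (matA n i k l).IsHomogeneous 1 := by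
  fin_cases l
  · exact curlCoord_hom _
  · exact (curlShift_hom _ _).sub (isHomogeneous_C_mul_X _ _)
  · exact (curlShift_hom _ _).add (isHomogeneous_C_mul_X _ _)

theorem matB_hom (n : ℕ) (k l : Fin 3) : (matB n k l).IsHomogeneous 1 := by
  fin_cases l
  · exact curlCoord_hom _
  · exact isHomogeneous_X _ _
  · exact isHomogeneous_C_mul_X _ _

/-- The columns of `matA`, as polynomials. -/
noncomputable def colA (i : ℕ) (ω : Form) : Fin 3 → Poly :=
  ![pderiv 0 ω.2 - pderiv 1 ω.1,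
    X 0 * (pderiv 0 ω.2 - pderiv 1 ω.1) - C (1 + (i : ℂ)) * ω.2,
    X 1 * (pderiv 0 ω.2 - pderiv 1 ω.1) + C (1 + (i : ℂ)) * ω.1]

/-- The columns of `matB`, as polynomials. -/
noncomputable def colB (ω : Form) : Fin 3 → Poly :=
  ![pderiv 0 ω.2 - pderiv 1 ω.1, ω.2, C (-1) * ω.1]

theorem eval_matA (n i : ℕ) (ω : Form) (k l : Fin 3) :
    eval (coord ω) (matA n i k l) = coeff (mono n k) (colA i ω l) := by
  fin_cases l
  · exact eval_curlCoord ω _
  · show eval (coord ω) (curlShift 0 (mono n k) - C (1 + (i : ℂ)) * X (1, mono n k)) =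
      coeff (mono n k) (X 0 * (pderiv 0 ω.2 - pderiv 1 ω.1) - C (1 + (i : ℂ)) * ω.2)
    rw [map_sub, map_mul, eval_C, eval_curlShift, eval_X_one, coeff_sub, coeff_C_mul]
  · show eval (coord ω) (curlShift 1 (mono n k) + C (1 + (i : ℂ)) * X (0, mono n k)) =
      coeff (mono n k) (X 1 * (pderiv 0 ω.2 - pderiv 1 ω.1) + C (1 + (i : ℂ)) * ω.1)
    rw [map_add, map_mul, eval_C, eval_curlShift, eval_X_zero, coeff_add, coeff_C_mul]

theorem eval_matB (n : ℕ) (ω : Form) (k l : Fin 3) :
    eval (coord ω) (matB n k l) = coeff (mono n k) (colB ω l) := by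
  fin_cases l
  · exact eval_curlCoord ω _
  · exact eval_X_one ω _
  · show eval (coord ω) (C (-1) * X (0, mono n k) : PolyFun) = coeff (mono n k) (C (-1) * ω.1)
    rw [map_mul, eval_C, eval_X_zero, coeff_C_mul]

/-- A linear relation between the columns forces the determinant to vanish. -/
theorem det_eq_zero_of_relation (n : ℕ) (M : Matrix (Fin 3) (Fin 3) PolyFun) (ω : Form)
    (col : Fin 3 → Poly)
    (hM : ∀ k l, eval (coord ω) (M k l) = coeff (mono n k) (col l))
    (v : Fin 3 → ℂ) (hv : v ≠ 0)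
    (hrel : C (v 0) * col 0 + C (v 1) * col 1 + C (v 2) * col 2 = 0) :
    eval (coord ω) M.det = 0 := by
  rw [RingHom.map_det]
  refine Matrix.exists_mulVec_eq_zero_iff.mp ⟨v, hv, ?_⟩
  funext k
  have h := congrArg (coeff (mono n k)) hrel
  simp only [coeff_add, coeff_C_mul, coeff_zero] at h
  simp only [Matrix.mulVec, dotProduct, Fin.sum_univ_three, RingHom.mapMatrix_apply,
    Matrix.map_apply, hM, Pi.zero_apply]
  linear_combination h

theorem pderiv_affine_zero (a b c : ℂ) : pderiv 0 (affine a b c) = C b := by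
  unfold affine
  simp [pderiv_X]

theorem pderiv_affine_one (a b c : ℂ) : pderiv 1 (affine a b c) = C c := by
  unfold affine
  simp [pderiv_X]

theorem relation_familyA (i : ℕ) (a b c : ℂ) (q : Poly) (ω : Form)
    (hω : ω = (affine a b c) ^ i • diff (affine a b c) + (affine a b c) • diff q
        - ((i : ℂ) • q) • diff (affine a b c)) :
    C a * colA i ω 0 + C b * colA i ω 1 + C c * colA i ω 2 = 0 := by
  have h1 : ω.1 = (affine a b c) ^ i * C b + affine a b c * pderiv 0 q - C (i : ℂ) * q * C b := by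
    rw [hω]; simp [diff, pderiv_affine_zero, smul_eq_C_mul]
  have h2 : ω.2 = (affine a b c) ^ i * C c + affine a b c * pderiv 1 q - C (i : ℂ) * q * C c := by
    rw [hω]; simp [diff, pderiv_affine_one, smul_eq_C_mul]
  have hp0 : pderiv 0 ((affine a b c) ^ i) = (i : Poly) * (affine a b c) ^ (i - 1) * C b := by
    rw [Derivation.leibniz_pow, pderiv_affine_zero]; simp [mul_assoc]
  have hp1 : pderiv 1 ((affine a b c) ^ i) = (i : Poly) * (affine a b c) ^ (i - 1) * C c := by
    rw [Derivation.leibniz_pow, pderiv_affine_one]; simp [mul_assoc]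
  have h3 : pderiv 0 ω.2 = (i : Poly) * (affine a b c) ^ (i - 1) * C b * C c +
      (affine a b c * pderiv 0 (pderiv 1 q) + pderiv 1 q * C b) - C (i : ℂ) * C c * pderiv 0 q := by
    rw [h2]
    simp only [map_sub, map_add, Derivation.leibniz, hp0, pderiv_affine_zero, pderiv_C,
      smul_eq_mul, mul_zero, add_zero, zero_add]
    ring
  have h4 : pderiv 1 ω.1 = (i : Poly) * (affine a b c) ^ (i - 1) * C c * C b +
      (affine a b c * pderiv 1 (pderiv 0 q) + pderiv 0 q * C c) - C (i : ℂ) * C b * pderiv 1 q := by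
    rw [h1]
    simp only [map_sub, map_add, Derivation.leibniz, hp1, pderiv_affine_one, pderiv_C,
      smul_eq_mul, mul_zero, add_zero, zero_add]
    ring
  have h5 : pderiv 0 ω.2 - pderiv 1 ω.1 =
      C (1 + (i : ℂ)) * (C b * pderiv 1 q - C c * pderiv 0 q) := by
    rw [h3, h4, pderiv_comm, C_add, C_1]
    ring
  have h6 : C a * colA i ω 0 + C b * colA i ω 1 + C c * colA i ω 2 =
      affine a b c * (pderiv 0 ω.2 - pderiv 1 ω.1) +
        C (1 + (i : ℂ)) * (C c * ω.1 - C b * ω.2) := by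
    show C a * (pderiv 0 ω.2 - pderiv 1 ω.1) +
      C b * (X 0 * (pderiv 0 ω.2 - pderiv 1 ω.1) - C (1 + (i : ℂ)) * ω.2) +
      C c * (X 1 * (pderiv 0 ω.2 - pderiv 1 ω.1) + C (1 + (i : ℂ)) * ω.1) = _
    unfold affine
    ring
  rw [h6, h5, h1, h2]
  ring

theorem relation_familyB (a b c : ℂ) (q : Poly) (ω : Form)
    (hω : ω = diff q + q • diff (affine a b c)) :
    C 1 * colB ω 0 + C b * colB ω 1 + C c * colB ω 2 = 0 := by
  have h1 : ω.1 = pderiv 0 q + q * C b := by
    rw [hω]; simp [diff, pderiv_affine_zero]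
  have h2 : ω.2 = pderiv 1 q + q * C c := by
    rw [hω]; simp [diff, pderiv_affine_one]
  show C 1 * (pderiv 0 ω.2 - pderiv 1 ω.1) + C b * ω.2 + C c * (C (-1) * ω.1) = 0
  rw [h1, h2]
  simp only [map_add, Derivation.leibniz, pderiv_C, smul_eq_mul, mul_zero, zero_add]
  rw [pderiv_comm, C_neg, C_1]
  ring

theorem det_matA_familyA (n i : ℕ) (x : Fol (n + 2)) (hx : x ∈ familyA (n + 2) i) :
    x ∈ zeroLocus (n + 2) {(matA n i).det} := by
  obtain ⟨a, b, c, q, hbc, -, ω, h, hω, rfl⟩ := hx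
  rw [mk_mem_zeroLocus]
  · intro Φ hΦ
    rw [Set.mem_singleton_iff.mp hΦ]
    refine det_eq_zero_of_relation n (matA n i) ω (colA i ω) (eval_matA n i ω) ![a, b, c] ?_ ?_
    · intro h0
      have h1 := congrFun h0 1
      have h2 := congrFun h0 2
      simp at h1 h2
      rcases hbc with h | h
      · exact h h1
      · exact h h2
    · exact relation_familyA i a b c q ω hω
  · intro Φ hΦ
    rw [Set.mem_singleton_iff.mp hΦ]
    exact ⟨3, det_hom _ (matA_hom n i)⟩

theorem det_matB_familyB (n : ℕ) (x : Fol (n + 2)) (hx : x ∈ familyB (n + 2)) :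
    x ∈ zeroLocus (n + 2) {(matB n).det} := by
  obtain ⟨a, b, c, q, hbc, -, ω, h, hω, rfl⟩ := hx
  rw [mk_mem_zeroLocus]
  · intro Φ hΦ
    rw [Set.mem_singleton_iff.mp hΦ]
    refine det_eq_zero_of_relation n (matB n) ω (colB ω) (eval_matB n ω) ![1, b, c] ?_ ?_
    · intro h0
      have h1 := congrFun h0 0
      simp at h1
    · exact relation_familyB a b c q ω hω
  · intro Φ hΦ
    rw [Set.mem_singleton_iff.mp hΦ]
    exact ⟨3, det_hom _ (matB_hom n)⟩


/-! ### The witness `x² (y^{n+2} + 1)` -/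

/-- The logarithmic form with first integral `x² (y^{n+2} + 1)`. -/
noncomputable def witness (n : ℕ) : Form := logForm ![X 0, X 1 ^ (n + 2) + 1] ![2, 1]

theorem witness_fst (n : ℕ) : (witness n).1 =
    monomial (Finsupp.single 1 (n + 2)) (2 : ℂ) + monomial 0 (2 : ℂ) := by
  unfold witness
  rw [logForm_two]
  simp only [diff, Prod.fst_add, Prod.smul_fst, smul_eq_mul, pderiv_X_self, map_add,
    Derivation.leibniz_pow, pderiv_X_of_ne (show (1 : Fin 2) ≠ 0 by decide), mul_zero, smul_zero,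
    Derivation.map_one_eq_zero, add_zero, mul_one, smul_add]
  rw [X_pow_eq_monomial, smul_monomial, ← C_1, smul_eq_C_mul, ← C_mul]
  simp

theorem witness_snd (n : ℕ) : (witness n).2 =
    monomial (Finsupp.single 0 1 + Finsupp.single 1 (n + 1)) ((n : ℂ) + 2) := by
  unfold witness
  rw [logForm_two]
  simp only [diff, Prod.snd_add, Prod.smul_snd, smul_eq_mul, pderiv_X_self, map_add,
    Derivation.leibniz_pow, pderiv_X_of_ne (show (0 : Fin 2) ≠ 1 by decide), mul_zero, smul_zero,
    Derivation.map_one_eq_zero, add_zero, mul_one, zero_add, one_smul]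
  rw [show n + 2 - 1 = n + 1 from rfl, X_pow_eq_monomial, X, ← map_nsmul, monomial_mul]
  simp

theorem witness_curl (n : ℕ) : pderiv 0 (witness n).2 - pderiv 1 (witness n).1 =
    monomial (Finsupp.single 1 (n + 1)) (-((n : ℂ) + 2)) := by
  rw [witness_fst, witness_snd, pderiv_monomial, map_add, pderiv_monomial, pderiv_monomial]
  have e1 : (Finsupp.single (0 : Fin 2) 1 + Finsupp.single 1 (n + 1)) - Finsupp.single 0 1 =
      Finsupp.single (1 : Fin 2) (n + 1) := by
    rw [finsupp_eq_iff]; simp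
  have e2 : (Finsupp.single (1 : Fin 2) (n + 2)) - Finsupp.single 1 1 =
      Finsupp.single (1 : Fin 2) (n + 1) := by
    rw [finsupp_eq_iff]; simp
  rw [e1, e2]
  have e3 : (monomial (0 - Finsupp.single (1 : Fin 2) 1)) ((2 : ℂ) * ((0 : Fin 2 →₀ ℕ) 1 : ℕ)) = 0 := by
    simp
  rw [e3, add_zero, ← map_sub]
  congr 1
  simp
  ring

theorem witness_colA (n i : ℕ) (l : Fin 3) : colA i (witness n) l =
    ![monomial (Finsupp.single 1 (n + 1)) (-((n : ℂ) + 2)),
      monomial (Finsupp.single 0 1 + Finsupp.single 1 (n + 1)) (-((n : ℂ) + 2) * (2 + i)),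
      monomial (Finsupp.single 1 (n + 2)) (-((n : ℂ) + 2) + 2 * (1 + i)) +
        monomial 0 (2 * (1 + (i : ℂ)))] l := by
  fin_cases l
  · exact witness_curl n
  · show X 0 * (pderiv 0 (witness n).2 - pderiv 1 (witness n).1)
      - C (1 + (i : ℂ)) * (witness n).2 = _
    rw [witness_curl, witness_snd, X, monomial_mul, C_mul_monomial, ← map_sub]
    show _ = monomial (Finsupp.single 0 1 + Finsupp.single 1 (n + 1)) (-((n : ℂ) + 2) * (2 + i))
    congr 1
    ring
  · show X 1 * (pderiv 0 (witness n).2 - pderiv 1 (witness n).1)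
      + C (1 + (i : ℂ)) * (witness n).1 = _
    rw [witness_curl, witness_fst, X, monomial_mul, mul_add, C_mul_monomial, C_mul_monomial]
    show _ = monomial (Finsupp.single 1 (n + 2)) (-((n : ℂ) + 2) + 2 * (1 + i)) +
        monomial 0 (2 * (1 + (i : ℂ)))
    have e : (Finsupp.single (1 : Fin 2) 1 + Finsupp.single 1 (n + 1)) =
      Finsupp.single (1 : Fin 2) (n + 2) := by
      rw [finsupp_eq_iff]; simp; omega
    rw [e, ← add_assoc, ← map_add, one_mul]
    congr 2
    · ring
    · ring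

theorem witness_colB (n : ℕ) (l : Fin 3) : colB (witness n) l =
    ![monomial (Finsupp.single 1 (n + 1)) (-((n : ℂ) + 2)),
      monomial (Finsupp.single 0 1 + Finsupp.single 1 (n + 1)) ((n : ℂ) + 2),
      monomial (Finsupp.single 1 (n + 2)) (-2) + monomial 0 (-2 : ℂ)] l := by
  fin_cases l
  · exact witness_curl n
  · exact witness_snd n
  · show C (-1) * (witness n).1 = _
    rw [witness_fst, mul_add, C_mul_monomial, C_mul_monomial]
    show _ = monomial (Finsupp.single 1 (n + 2)) (-2 : ℂ) + monomial 0 (-2 : ℂ)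
    congr 2
    · ring
    · ring

theorem mono_values (n : ℕ) (k : Fin 3) : (mono n k) 0 = ![0, 1, 0] k ∧
    (mono n k) 1 = ![n + 1, n + 1, 0] k := by
  fin_cases k <;> simp [mono] <;> omega

theorem coeff_mono (n : ℕ) (k : Fin 3) (m : Fin 2 →₀ ℕ) (c : ℂ) :
    coeff (mono n k) (monomial m c : Poly) =
      if m 0 = ![0, 1, 0] k ∧ m 1 = ![n + 1, n + 1, 0] k then c else 0 := by
  rw [coeff_monomial]
  obtain ⟨h0, h1⟩ := mono_values n k
  have : (m = mono n k) ↔ (m 0 = ![0, 1, 0] k ∧ m 1 = ![n + 1, n + 1, 0] k) := by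
    rw [finsupp_eq_iff, h0, h1]
  simp only [this]

theorem coeff_matrix (n : ℕ) (α β γ κ : ℂ) (k l : Fin 3) :
    coeff (mono n k) ((![monomial (Finsupp.single 1 (n + 1)) α,
      monomial (Finsupp.single 0 1 + Finsupp.single 1 (n + 1)) β,
      monomial (Finsupp.single 1 (n + 2)) γ + monomial 0 κ] : Fin 3 → Poly) l) =
      Matrix.diagonal ![α, β, κ] k l := by
  fin_cases l
  · show coeff (mono n k) (monomial (Finsupp.single 1 (n + 1)) α : Poly) = _
    rw [coeff_mono]
    fin_cases k <;> simp [Matrix.diagonal]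
  · show coeff (mono n k)
      (monomial (Finsupp.single 0 1 + Finsupp.single 1 (n + 1)) β : Poly) = _
    rw [coeff_mono]
    fin_cases k <;> simp [Matrix.diagonal]
  · show coeff (mono n k) (monomial (Finsupp.single 1 (n + 2)) γ + monomial 0 κ : Poly) = _
    rw [coeff_add, coeff_mono, coeff_mono]
    fin_cases k <;> simp [Matrix.diagonal]

theorem det_matA_witness (n i : ℕ) : eval (coord (witness n)) (matA n i).det ≠ 0 := by
  rw [RingHom.map_det]
  have hM : (eval (coord (witness n))).mapMatrix (matA n i) =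
      Matrix.diagonal ![-((n : ℂ) + 2), -((n : ℂ) + 2) * (2 + i), 2 * (1 + i)] := by
    ext k l
    rw [RingHom.mapMatrix_apply, Matrix.map_apply, eval_matA, witness_colA, coeff_matrix]
  rw [hM, Matrix.det_diagonal, Fin.prod_univ_three]
  have h1 : ((n : ℂ) + 2) ≠ 0 := by exact_mod_cast (Nat.succ_ne_zero (n + 1))
  have h2 : (2 + (i : ℂ)) ≠ 0 := by
    have : ((2 + i : ℕ) : ℂ) ≠ 0 := Nat.cast_ne_zero.mpr (by omega)
    push_cast at this; exact this
  have h3 : (1 + (i : ℂ)) ≠ 0 := by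
    have : ((1 + i : ℕ) : ℂ) ≠ 0 := Nat.cast_ne_zero.mpr (by omega)
    push_cast at this; exact this
  exact mul_ne_zero (mul_ne_zero (neg_ne_zero.mpr h1) (mul_ne_zero (neg_ne_zero.mpr h1) h2))
    (mul_ne_zero two_ne_zero h3)

theorem det_matB_witness (n : ℕ) : eval (coord (witness n)) (matB n).det ≠ 0 := by
  rw [RingHom.map_det]
  have hM : (eval (coord (witness n))).mapMatrix (matB n) =
      Matrix.diagonal ![-((n : ℂ) + 2), (n : ℂ) + 2, -2] := by
    ext k l
    rw [RingHom.mapMatrix_apply, Matrix.map_apply, eval_matB, witness_colB, coeff_matrix]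
  rw [hM, Matrix.det_diagonal, Fin.prod_univ_three]
  have h1 : ((n : ℂ) + 2) ≠ 0 := by exact_mod_cast (Nat.succ_ne_zero (n + 1))
  exact mul_ne_zero (mul_ne_zero (neg_ne_zero.mpr h1) h1) (neg_ne_zero.mpr two_ne_zero)

theorem witness_degrees (n : ℕ) (j : Fin 2) :
    ((![X 0, X 1 ^ (n + 2) + 1] : Fin 2 → Poly) j).totalDegree ≤ (![1, n + 2] : Fin 2 → ℕ) j := by
  fin_cases j
  · show (X 0 : Poly).totalDegree ≤ 1
    simp
  · show (X 1 ^ (n + 2) + 1 : Poly).totalDegree ≤ n + 2
    refine (totalDegree_add _ _).trans (max_le ?_ ?_)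
    · simp
    · simp

theorem witness_mem_forms (n : ℕ) : witness n ∈ forms (n + 2) :=
  logForm_mem_forms _ _ ![1, n + 2] (witness_degrees n) (by
    rw [Fin.sum_univ_two]
    show 1 + (n + 2) ≤ n + 2 + 1
    omega)

theorem witness_ne_zero (n : ℕ) : witness n ≠ 0 := by
  intro h
  have h1 := witness_curl n
  rw [h] at h1
  have h2 : (monomial (Finsupp.single 1 (n + 1)) (-((n : ℂ) + 2)) : Poly) = 0 := by
    rw [← h1]; simp
  rw [monomial_eq_zero, neg_eq_zero] at h2
  exact absurd h2 (by exact_mod_cast (Nat.succ_ne_zero (n + 1)))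

theorem ssubset_of_det (n : ℕ) (Z : Set (Fol (n + 2))) (M : Matrix (Fin 3) (Fin 3) PolyFun)
    (hM : ∀ k l, (M k l).IsHomogeneous 1)
    (hsub : zariskiClosure Z ⊆ zariskiClosure (logFamily (n + 2) ![1, n + 2]))
    (hZ : ∀ x ∈ Z, x ∈ zeroLocus (n + 2) {M.det})
    (hw : eval (coord (witness n)) M.det ≠ 0) :
    zariskiClosure Z ⊂ zariskiClosure (logFamily (n + 2) ![1, n + 2]) := by
  have hS : ∀ Φ ∈ ({M.det} : Set PolyFun), ∃ m : ℕ, Φ.IsHomogeneous m := by
    intro Φ hΦ
    rw [Set.mem_singleton_iff.mp hΦ]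
    exact ⟨3, det_hom M hM⟩
  refine ⟨hsub, fun hsub' => ?_⟩
  have h1 : zariskiClosure Z ⊆ zeroLocus (n + 2) {M.det} :=
    zariskiClosure_subset ⟨{M.det}, hS, rfl⟩ hZ
  have hne : (⟨witness n, witness_mem_forms n⟩ : forms (n + 2)) ≠ 0 := by
    intro h
    exact witness_ne_zero n (congrArg Subtype.val h)
  have h2 : Projectivization.mk ℂ (⟨witness n, witness_mem_forms n⟩ : forms (n + 2)) hne ∈
      logFamily (n + 2) ![1, n + 2] :=
    ⟨![X 0, X 1 ^ (n + 2) + 1], ![2, 1], witness_degrees n, _, hne, rfl, rfl⟩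
  have h3 := h1 (hsub' (subset_zariskiClosure _ h2))
  rw [mk_mem_zeroLocus _ hS] at h3
  exact hw (h3 _ rfl)

theorem closure_familyA_ssubset (d i : ℕ) (hd : 2 ≤ d) (hi : i ≤ d) :
    zariskiClosure (familyA d i) ⊂ zariskiClosure (logFamily d ![1, d]) := by
  obtain ⟨n, rfl⟩ : ∃ n, d = n + 2 := ⟨d - 2, by omega⟩
  exact ssubset_of_det n _ (matA n i) (matA_hom n i) (closure_familyA_subset _ i hi)
    (det_matA_familyA n i) (det_matA_witness n i)

theorem closure_familyB_ssubset (d : ℕ) (hd : 2 ≤ d) :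
    zariskiClosure (familyB d) ⊂ zariskiClosure (logFamily d ![1, d]) := by
  obtain ⟨n, rfl⟩ : ∃ n, d = n + 2 := ⟨d - 2, by omega⟩
  exact ssubset_of_det n _ (matB n) (matB_hom n) (closure_familyB_subset _)
    (det_matB_familyB n) (det_matB_witness n)

theorem not_isComponent_of_ssubset {d : ℕ} {M Z L : Set (Fol d)} (hL : IsComponent M L)
    (hZ : Z ⊂ L) : ¬ IsComponent M Z := by
  intro h
  have := h.2.2 L hL.2.1 hZ.1 hL.1
  exact hZ.2 this.le

/-! ## Algebraic dependence -/

theorem exists_relation {σ κ : Type} [Fintype σ] [Fintype κ]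
    (h : Fintype.card σ < Fintype.card κ) (P : κ → MvPolynomial σ ℂ) :
    ∃ Ψ : MvPolynomial κ ℂ, Ψ ≠ 0 ∧ aeval P Ψ = 0 := by
  have hdep : ¬ AlgebraicIndependent ℂ P := by
    intro hP
    have h1 := hP.cardinalMk_le_trdeg
    rw [MvPolynomial.trdeg_of_isDomain] at h1
    simp at h1
    omega
  rw [algebraicIndependent_iff] at hdep
  push Not at hdep
  obtain ⟨Ψ, h1, h2⟩ := hdep
  exact ⟨Ψ, h2, h1⟩

/-! ## Polynomial maps and families -/

/-- Functions `ℂ^σ → ℂ` given by a polynomial. -/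
def PolyMap {σ : Type} (g : (σ → ℂ) → ℂ) : Prop :=
  ∃ P : MvPolynomial σ ℂ, ∀ v, g v = eval v P

theorem PolyMap.const {σ : Type} (c : ℂ) : PolyMap (fun _ : σ → ℂ => c) :=
  ⟨C c, fun v => by simp⟩

theorem PolyMap.coord {σ : Type} (k : σ) : PolyMap (fun v : σ → ℂ => v k) :=
  ⟨X k, fun v => by simp⟩

theorem PolyMap.add {σ : Type} {g h : (σ → ℂ) → ℂ} (hg : PolyMap g) (hh : PolyMap h) :
    PolyMap (fun v => g v + h v) := by
  obtain ⟨P, hP⟩ := hg
  obtain ⟨Q, hQ⟩ := hh
  exact ⟨P + Q, fun v => by simp [hP, hQ]⟩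

theorem PolyMap.mul {σ : Type} {g h : (σ → ℂ) → ℂ} (hg : PolyMap g) (hh : PolyMap h) :
    PolyMap (fun v => g v * h v) := by
  obtain ⟨P, hP⟩ := hg
  obtain ⟨Q, hQ⟩ := hh
  exact ⟨P * Q, fun v => by simp [hP, hQ]⟩

theorem PolyMap.neg {σ : Type} {g : (σ → ℂ) → ℂ} (hg : PolyMap g) :
    PolyMap (fun v => - g v) := by
  obtain ⟨P, hP⟩ := hg
  exact ⟨-P, fun v => by simp [hP]⟩

theorem PolyMap.sub {σ : Type} {g h : (σ → ℂ) → ℂ} (hg : PolyMap g) (hh : PolyMap h) :
    PolyMap (fun v => g v - h v) := by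
  simp only [sub_eq_add_neg]
  exact hg.add hh.neg

theorem PolyMap.sum {σ ι : Type} (s : Finset ι) {g : ι → (σ → ℂ) → ℂ}
    (hg : ∀ i ∈ s, PolyMap (g i)) : PolyMap (fun v => ∑ i ∈ s, g i v) := by
  classical
  induction s using Finset.induction_on with
  | empty => simpa using PolyMap.const 0
  | insert a s ha ih =>
    simp only [Finset.sum_insert ha]
    exact (hg a (Finset.mem_insert_self a s)).add
      (ih fun i hi => hg i (Finset.mem_insert_of_mem hi))

/-- Families of polynomials in `x, y` whose coefficients depend polynomially on parameters. -/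
def PolyFam {σ : Type} (g : (σ → ℂ) → Poly) : Prop := ∀ m, PolyMap (fun v => coeff m (g v))

theorem PolyFam.const {σ : Type} (f : Poly) : PolyFam (fun _ : σ → ℂ => f) :=
  fun _ => PolyMap.const _

theorem PolyFam.C {σ : Type} {g : (σ → ℂ) → ℂ} (hg : PolyMap g) :
    PolyFam (fun v => (MvPolynomial.C (g v) : Poly)) := by
  intro m
  classical
  simp only [coeff_C]
  by_cases h : 0 = m
  · simpa [h] using hg
  · simpa [h] using PolyMap.const 0

theorem PolyFam.add {σ : Type} {g h : (σ → ℂ) → Poly} (hg : PolyFam g) (hh : PolyFam h) :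
    PolyFam (fun v => g v + h v) := by
  intro m
  simp only [coeff_add]
  exact (hg m).add (hh m)

theorem PolyFam.mul {σ : Type} {g h : (σ → ℂ) → Poly} (hg : PolyFam g) (hh : PolyFam h) :
    PolyFam (fun v => g v * h v) := by
  intro m
  classical
  simp only [coeff_mul]
  exact PolyMap.sum _ fun i _ => (hg i.1).mul (hh i.2)

theorem PolyFam.neg {σ : Type} {g : (σ → ℂ) → Poly} (hg : PolyFam g) :
    PolyFam (fun v => - g v) := by
  intro m
  simp only [coeff_neg]
  exact (hg m).neg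

theorem PolyFam.sub {σ : Type} {g h : (σ → ℂ) → Poly} (hg : PolyFam g) (hh : PolyFam h) :
    PolyFam (fun v => g v - h v) := by
  intro m
  simp only [coeff_sub]
  exact (hg m).sub (hh m)

theorem PolyFam.sum {σ ι : Type} (s : Finset ι) {g : ι → (σ → ℂ) → Poly}
    (hg : ∀ i ∈ s, PolyFam (g i)) : PolyFam (fun v => ∑ i ∈ s, g i v) := by
  intro m
  simp only [coeff_sum]
  exact PolyMap.sum _ fun i hi => hg i hi m

theorem PolyFam.prod {σ ι : Type} (s : Finset ι) {g : ι → (σ → ℂ) → Poly}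
    (hg : ∀ i ∈ s, PolyFam (g i)) : PolyFam (fun v => ∏ i ∈ s, g i v) := by
  classical
  induction s using Finset.induction_on with
  | empty => simpa using PolyFam.const 1
  | insert a s ha ih =>
    simp only [Finset.prod_insert ha]
    exact (hg a (Finset.mem_insert_self a s)).mul
      (ih fun i hi => hg i (Finset.mem_insert_of_mem hi))

theorem PolyFam.pow {σ : Type} {g : (σ → ℂ) → Poly} (hg : PolyFam g) (n : ℕ) :
    PolyFam (fun v => g v ^ n) := by
  induction n with
  | zero => simpa using PolyFam.const 1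
  | succ n ih =>
    simp only [pow_succ]
    exact ih.mul hg

theorem PolyFam.pderiv {σ : Type} {g : (σ → ℂ) → Poly} (hg : PolyFam g) (i : Fin 2) :
    PolyFam (fun v => MvPolynomial.pderiv i (g v)) := by
  intro m
  simp only [coeff_pderiv]
  exact (hg _).mul (PolyMap.const _)

/-- The coordinates of the logarithmic form depend polynomially on the parameters. -/
theorem polyMap_coord_logForm {σ : Type} {s : ℕ} (f : Fin s → (σ → ℂ) → Poly)
    (lam : Fin s → (σ → ℂ) → ℂ) (hf : ∀ j, PolyFam (f j)) (hl : ∀ j, PolyMap (lam j))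
    (k : Fin 2 × (Fin 2 →₀ ℕ)) :
    PolyMap (fun v => coord (logForm (fun j => f j v) (fun j => lam j v)) k) := by
  have h0 : ∀ i : Fin 2, PolyFam (fun v => ∑ j, MvPolynomial.C (lam j v) *
      ((∏ k ∈ Finset.univ.erase j, f k v) * MvPolynomial.pderiv i (f j v))) := fun i =>
    PolyFam.sum _ fun j _ => (PolyFam.C (hl j)).mul
      ((PolyFam.prod _ fun k _ => hf k).mul ((hf j).pderiv i))
  unfold coord
  split_ifs
  · simp only [logForm_fst]
    exact h0 0 _
  · simp only [logForm_snd]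
    exact h0 1 _


/-! ## Polynomials of bounded degree -/

/-- Indices of the monomials of degree at most `D`. -/
abbrev T (D : ℕ) : Type := Σ a : Fin (D + 1), Fin (D + 1 - (a : ℕ))

/-- The monomial with index `t`. -/
noncomputable def mT {D : ℕ} (t : T D) : Fin 2 →₀ ℕ :=
  Finsupp.single 0 (t.1 : ℕ) + Finsupp.single 1 (t.2 : ℕ)

theorem mT_zero {D : ℕ} (t : T D) : mT t 0 = t.1 := by simp [mT]

theorem mT_one {D : ℕ} (t : T D) : mT t 1 = t.2 := by simp [mT]

theorem card_T (D : ℕ) : 2 * Fintype.card (T D) = (D + 1) * (D + 2) := by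
  rw [Fintype.card_sigma]
  simp only [Fintype.card_fin]
  rw [Fin.sum_univ_eq_sum_range (fun a => D + 1 - a) (D + 1)]
  have h1 : ∑ a ∈ Finset.range (D + 1), (D + 1 - a) = ∑ a ∈ Finset.range (D + 1), (a + 1) := by
    rw [← Finset.sum_range_reflect]
    refine Finset.sum_congr rfl fun a ha => ?_
    rw [Finset.mem_range] at ha
    omega
  rw [h1]
  have h2 := Finset.sum_range_id_mul_two (D + 2)
  rw [Finset.sum_range_succ'] at h2
  have h3 : D + 2 - 1 = D + 1 := rfl
  rw [h3] at h2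
  linarith [h2]

theorem mT_injective {D : ℕ} : Function.Injective (mT : T D → (Fin 2 →₀ ℕ)) := by
  rintro ⟨a, b⟩ ⟨a', b'⟩ h
  have h0 : (a : ℕ) = a' := by
    have := DFunLike.congr_fun h 0
    rwa [mT_zero, mT_zero] at this
  have h1 : (b : ℕ) = b' := by
    have := DFunLike.congr_fun h 1
    rwa [mT_one, mT_one] at this
  have ha : a = a' := Fin.ext h0
  subst ha
  have hb : b = b' := Fin.ext h1
  subst hb
  rfl

theorem mT_le {D : ℕ} (t : T D) : mT t 0 + mT t 1 ≤ D := by
  rw [mT_zero, mT_one]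
  have h1 := t.1.is_lt
  have h2 := t.2.is_lt
  omega

/-- The index of a monomial. -/
def idx {D : ℕ} (a b : ℕ) (h : a + b ≤ D) : T D := ⟨⟨a, by omega⟩, ⟨b, by simp; omega⟩⟩

theorem mT_idx {D : ℕ} (a b : ℕ) (h : a + b ≤ D) :
    mT (idx a b h) = Finsupp.single 0 a + Finsupp.single 1 b := rfl

theorem exists_mT {D : ℕ} (m : Fin 2 →₀ ℕ) (h : m 0 + m 1 ≤ D) : ∃ t : T D, mT t = m :=
  ⟨idx (m 0) (m 1) h, by rw [mT_idx, finsupp_eq_iff]; simp⟩

/-- The polynomial with given coefficients. -/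
noncomputable def poly (D : ℕ) (c : T D → ℂ) : Poly := ∑ t, monomial (mT t) (c t)

theorem coeff_poly {D : ℕ} (c : T D → ℂ) (t : T D) : coeff (mT t) (poly D c) = c t := by
  classical
  unfold poly
  rw [coeff_sum, Finset.sum_eq_single t]
  · simp
  · intro t' _ hne
    rw [coeff_monomial, if_neg fun h => hne (mT_injective h)]
  · simp

theorem sum_le_totalDegree {f : Poly} {m : Fin 2 →₀ ℕ} (h : coeff m f ≠ 0) :
    m 0 + m 1 ≤ f.totalDegree := by
  have h1 := le_totalDegree (mem_support_iff.mpr h)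
  rw [Finsupp.sum_fintype _ _ (fun _ => rfl), Fin.sum_univ_two] at h1
  exact h1

theorem totalDegree_le_of_coeff {f : Poly} {D : ℕ} (h : ∀ m, coeff m f ≠ 0 → m 0 + m 1 ≤ D) :
    f.totalDegree ≤ D := by
  refine Finset.sup_le fun m hm => ?_
  rw [Finsupp.sum_fintype _ _ (fun _ => rfl), Fin.sum_univ_two]
  exact h m (mem_support_iff.mp hm)

theorem totalDegree_poly {D : ℕ} (c : T D → ℂ) : (poly D c).totalDegree ≤ D := by
  refine totalDegree_le_of_coeff fun m hm => ?_
  by_contra hlt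
  apply hm
  classical
  unfold poly
  rw [coeff_sum]
  refine Finset.sum_eq_zero fun t _ => ?_
  rw [coeff_monomial, if_neg]
  intro h
  apply hlt
  rw [← h]
  exact mT_le t

theorem poly_coeff {D : ℕ} {f : Poly} (hf : f.totalDegree ≤ D) :
    poly D (fun t => coeff (mT t) f) = f := by
  ext m
  by_cases hm : m 0 + m 1 ≤ D
  · obtain ⟨t, rfl⟩ := exists_mT m hm
    rw [coeff_poly]
  · have h1 : coeff m f = 0 := by
      by_contra h
      exact hm ((sum_le_totalDegree h).trans hf)
    have h2 : coeff m (poly D fun t => coeff (mT t) f) = 0 := by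
      by_contra h
      exact hm ((sum_le_totalDegree h).trans (totalDegree_poly _))
    rw [h1, h2]

theorem polyFam_poly {σ : Type} {D : ℕ} (c : T D → (σ → ℂ) → ℂ) (hc : ∀ t, PolyMap (c t)) :
    PolyFam (fun v => poly D (fun t => c t v)) := by
  unfold poly
  refine PolyFam.sum _ fun t _ => ?_
  intro m
  classical
  simp only [coeff_monomial]
  split_ifs
  · exact hc t
  · exact PolyMap.const 0



theorem eval_aeval_eq {σ κ : Type} (P : κ → MvPolynomial σ ℂ) (Ψ : MvPolynomial κ ℂ)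
    (v : σ → ℂ) : eval v (aeval P Ψ) = eval (fun t => eval v (P t)) Ψ := by
  have h : (eval v).comp (aeval P : MvPolynomial κ ℂ →ₐ[ℂ] MvPolynomial σ ℂ).toRingHom =
      eval (fun t => eval v (P t)) := by
    apply ringHom_ext
    · intro r; simp
    · intro k; simp
  exact RingHom.congr_fun h Ψ

theorem PolyMap.comp {σ κ : Type} {g : κ → (σ → ℂ) → ℂ} (hg : ∀ t, PolyMap (g t))
    (Ψ : MvPolynomial κ ℂ) : PolyMap (fun v => eval (fun t => g t v) Ψ) := by
  choose P hP using hg
  refine ⟨aeval P Ψ, fun v => ?_⟩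
  rw [eval_aeval_eq]
  simp only [hP]

theorem PolyMap.prod {σ ι : Type} (s : Finset ι) {g : ι → (σ → ℂ) → ℂ}
    (hg : ∀ i ∈ s, PolyMap (g i)) : PolyMap (fun v => ∏ i ∈ s, g i v) := by
  classical
  induction s using Finset.induction_on with
  | empty => simpa using PolyMap.const 1
  | insert a s ha ih =>
    simp only [Finset.prod_insert ha]
    exact (hg a (Finset.mem_insert_self a s)).mul
      (ih fun i hi => hg i (Finset.mem_insert_of_mem hi))

theorem PolyMap.eq_zero_of_dense {σ : Type} {g h : (σ → ℂ) → ℂ} (hg : PolyMap g)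
    (hh : PolyMap h) (hne : ∃ v, h v ≠ 0) (hz : ∀ v, h v ≠ 0 → g v = 0) (v : σ → ℂ) :
    g v = 0 := by
  obtain ⟨P, hP⟩ := hg
  obtain ⟨Q, hQ⟩ := hh
  have h1 : P * Q = 0 := by
    apply MvPolynomial.funext
    intro u
    rw [map_mul, ← hP, ← hQ, map_zero]
    by_cases hu : h u = 0
    · rw [hu, mul_zero]
    · rw [hz u hu, zero_mul]
  rcases mul_eq_zero.mp h1 with h2 | h2
  · rw [hP, h2, map_zero]
  · obtain ⟨u, hu⟩ := hne
    rw [hQ, h2, map_zero] at hu
    exact absurd rfl hu

theorem eval_homogeneousComponent_eq_zero {κ : Type} (Ψ : MvPolynomial κ ℂ) (x : κ → ℂ)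
    (h : ∀ a : ℂ, eval (fun t => a * x t) Ψ = 0) (n : ℕ) :
    eval x (homogeneousComponent n Ψ) = 0 := by
  have key : ∀ (m : ℕ) (a : ℂ), eval (fun t => a * x t) (homogeneousComponent m Ψ) =
      a ^ m * eval x (homogeneousComponent m Ψ) := by
    intro m a
    have hm := homogeneousComponent_isHomogeneous m Ψ
    rw [eval_eq, eval_eq, Finset.mul_sum]
    refine Finset.sum_congr rfl fun e he => ?_
    have hdeg : e.degree = m := by
      by_contra hne
      exact (mem_support_iff.mp he) (hm.coeff_eq_zero hne)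
    have : ∏ k ∈ e.support, (a * x k) ^ e k = a ^ m * ∏ k ∈ e.support, x k ^ e k := by
      simp only [mul_pow]
      rw [Finset.prod_mul_distrib, Finset.prod_pow_eq_pow_sum]
      congr 2
    rw [this]; ring
  let Q : Polynomial ℂ := ∑ m ∈ Finset.range (Ψ.totalDegree + 1),
    Polynomial.C (eval x (homogeneousComponent m Ψ)) * Polynomial.X ^ m
  have hQ : Q = 0 := by
    apply Polynomial.funext
    intro a
    rw [Polynomial.eval_zero, ← h a]
    conv_rhs => rw [← sum_homogeneousComponent Ψ]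
    rw [map_sum, Polynomial.eval_finsetSum]
    refine Finset.sum_congr rfl fun m _ => ?_
    rw [key m a]
    simp
    ring
  by_cases hn : n < Ψ.totalDegree + 1
  · have h1 : Q.coeff n = eval x (homogeneousComponent n Ψ) := by
      simp only [Q, Polynomial.finsetSum_coeff, Polynomial.coeff_C_mul, Polynomial.coeff_X_pow]
      rw [Finset.sum_eq_single n]
      · simp
      · intro b _ hb
        simp [hb.symm]
      · intro hn'
        exact absurd (Finset.mem_range.mpr hn) hn'
    rw [← h1, hQ, Polynomial.coeff_zero]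
  · rw [homogeneousComponent_eq_zero _ _ (by omega), map_zero]

/-- The index of the constant monomial. -/
def c0 (D : ℕ) : T D := idx 0 0 (Nat.zero_le _)

theorem mT_c0 (D : ℕ) : mT (c0 D) = 0 := by
  unfold c0
  rw [mT_idx]; simp

/-- Indices of the nonconstant monomials of degree at most `d`. -/
abbrev K (d : ℕ) : Type := {t : T d // t ≠ c0 d}

theorem card_K (d : ℕ) : Fintype.card (K d) = Fintype.card (T d) - 1 := by
  rw [Fintype.card_subtype_compl, Fintype.card_subtype_eq]

/-- A coordinate of the 1-form that reads off the coefficient of a monomial of `f` in `df`. -/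
noncomputable def kap {d : ℕ} (t : T d) : Fin 2 × (Fin 2 →₀ ℕ) :=
  if 0 < (t.1 : ℕ) then (0, mT t - Finsupp.single 0 1) else (1, mT t - Finsupp.single 1 1)

/-- The factor appearing in that coordinate. -/
noncomputable def wt {d : ℕ} (t : T d) : ℂ := if 0 < (t.1 : ℕ) then ((t.1 : ℕ) : ℂ) else ((t.2 : ℕ) : ℂ)

theorem wt_ne_zero {d : ℕ} (t : K d) : wt t.1 ≠ 0 := by
  unfold wt
  split_ifs with h
  · exact_mod_cast h.ne'
  · have h0 : (t.1.1 : ℕ) = 0 := by omega
    intro hz
    have h1 : (t.1.2 : ℕ) = 0 := by exact_mod_cast hz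
    apply t.2
    apply mT_injective
    rw [mT_c0, finsupp_eq_iff, mT_zero, mT_one]
    simp [h0, h1]

theorem coord_diff_kap {d : ℕ} (t : K d) (f : Poly) :
    coord (diff f) (kap t.1) = wt t.1 * coeff (mT t.1) f := by
  unfold coord kap wt diff
  split_ifs with h h2 h2
  · simp only [coeff_pderiv]
    have e : mT t.1 - Finsupp.single 0 1 + Finsupp.single 0 1 = mT t.1 := by
      rw [finsupp_eq_iff]
      simp [mT_zero]
      omega
    rw [e]
    have e2 : (((mT t.1 - Finsupp.single 0 1 : Fin 2 →₀ ℕ) 0 : ℕ) : ℂ) + 1 = ((t.1.1 : ℕ) : ℂ) := by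
      have : (mT t.1 - Finsupp.single 0 1 : Fin 2 →₀ ℕ) 0 + 1 = (t.1.1 : ℕ) := by
        simp [mT_zero]
        omega
      exact_mod_cast this
    rw [e2, mul_comm]
  · exact absurd rfl h2
  · exact absurd h2 (by simp)
  · have h0 : (t.1.1 : ℕ) = 0 := by omega
    have h1 : (t.1.2 : ℕ) ≠ 0 := by
      intro h1
      apply t.2
      apply mT_injective
      rw [mT_c0, finsupp_eq_iff, mT_zero, mT_one]
      simp [h0, h1]
    simp only [coeff_pderiv]
    have e : mT t.1 - Finsupp.single 1 1 + Finsupp.single 1 1 = mT t.1 := by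
      rw [finsupp_eq_iff]
      simp [mT_one]
      omega
    rw [e]
    have e2 : (((mT t.1 - Finsupp.single 1 1 : Fin 2 →₀ ℕ) 1 : ℕ) : ℂ) + 1 = ((t.1.2 : ℕ) : ℂ) := by
      have : (mT t.1 - Finsupp.single 1 1 : Fin 2 →₀ ℕ) 1 + 1 = (t.1.2 : ℕ) := by
        simp [mT_one]
        omega
      exact_mod_cast this
    rw [e2, mul_comm]


/-! ## Relations satisfied by the logarithmic forms -/

theorem logForm_smul {s : ℕ} (f : Fin s → Poly) (lam : Fin s → ℂ) (a : ℂ) :
    logForm f (fun j => a * lam j) = a • logForm f lam := by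
  unfold logForm
  rw [Finset.smul_sum]
  refine Finset.sum_congr rfl fun j _ => ?_
  rw [smul_smul]

theorem logForm_scale {s : ℕ} (f : Fin s → Poly) (lam : Fin s → ℂ) (c : Fin s → ℂ) :
    logForm (fun j => C (c j) * f j) lam = (∏ j, c j) • logForm f lam := by
  have h : ∀ (i : Fin 2) (j : Fin s), C (lam j) * ((∏ k ∈ Finset.univ.erase j, C (c k) * f k) *
      pderiv i (C (c j) * f j)) =
      C (∏ j, c j) * (C (lam j) * ((∏ k ∈ Finset.univ.erase j, f k) * pderiv i (f j))) := by
    intro i j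
    rw [Finset.prod_mul_distrib, pderiv_C_mul, ← Finset.mul_prod_erase Finset.univ c
      (Finset.mem_univ j), C_mul, ← map_prod]
    ring
  apply Prod.ext
  · rw [Prod.smul_fst, logForm_fst, logForm_fst, smul_eq_C_mul, Finset.mul_sum]
    exact Finset.sum_congr rfl fun j _ => h 0 j
  · rw [Prod.smul_snd, logForm_snd, logForm_snd, smul_eq_C_mul, Finset.mul_sum]
    exact Finset.sum_congr rfl fun j _ => h 1 j

/-- The family of logarithmic forms with `f_j(0) = 1`, parametrized by the other coefficients of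
the `f_j` and by the `λ_j`. -/
noncomputable def nf {s : ℕ} (D : Fin s → ℕ) (j : Fin s) (v : (Σ j, T (D j)) → ℂ) : Poly :=
  poly (D j) (fun t => if t = c0 (D j) then 1 else v ⟨j, t⟩)

theorem polyFam_nf {s : ℕ} (D : Fin s → ℕ) (j : Fin s) : PolyFam (nf D j) := by
  have h : ∀ t : T (D j), PolyMap (fun v : (Σ j, T (D j)) → ℂ =>
      if t = c0 (D j) then (1 : ℂ) else v ⟨j, t⟩) := by
    intro t
    by_cases ht : t = c0 (D j)
    · simp only [ht, if_true]
      exact PolyMap.const 1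
    · simp only [ht, if_false]
      exact PolyMap.coord (σ := Σ j, T (D j)) ⟨j, t⟩
  exact polyFam_poly (σ := Σ j, T (D j)) _ h

theorem exists_param {s : ℕ} (D : Fin s → ℕ) (f : Fin s → Poly) (lam : Fin s → ℂ)
    (hf : ∀ j, (f j).totalDegree ≤ D j) (h1 : ∀ j, coeff 0 (f j) = 1) :
    ∃ v : (Σ j, T (D j)) → ℂ, (∀ j, nf D j v = f j) ∧ ∀ j, v ⟨j, c0 (D j)⟩ = lam j := by
  refine ⟨fun x => if x.2 = c0 (D x.1) then lam x.1 else coeff (mT x.2) (f x.1), ?_, ?_⟩
  · intro j
    conv_rhs => rw [← poly_coeff (hf j)]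
    unfold nf
    congr 1
    funext t
    by_cases ht : t = c0 (D j)
    · simp only [ht, if_true, mT_c0, h1]
    · simp only [ht, if_false]
  · intro j
    simp

theorem exists_homogeneous_relation (d : ℕ) {s : ℕ} (D : Fin s → ℕ)
    (hcard : ∑ j, Fintype.card (T (D j)) < Fintype.card (K d)) :
    ∃ (n : ℕ) (Ψ : MvPolynomial (K d) ℂ), Ψ ≠ 0 ∧ Ψ.IsHomogeneous n ∧
      ∀ (f : Fin s → Poly) (lam : Fin s → ℂ), (∀ j, (f j).totalDegree ≤ D j) →
        eval (fun t : K d => coord (logForm f lam) (kap t.1)) Ψ = 0 := by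
  have hP : ∀ t : K d, PolyMap (fun v : (Σ j, T (D j)) → ℂ =>
      coord (logForm (fun j => nf D j v) (fun j => v ⟨j, c0 (D j)⟩)) (kap t.1)) := fun t =>
    polyMap_coord_logForm (nf D) (fun j v => v ⟨j, c0 (D j)⟩) (polyFam_nf D)
      (fun j => PolyMap.coord _) _
  choose P hP using hP
  obtain ⟨Ψ0, hΨ0, hrel⟩ := exists_relation (by rw [Fintype.card_sigma]; exact hcard) P
  -- vanishing on the normalised forms
  have h1 : ∀ (f : Fin s → Poly) (lam : Fin s → ℂ), (∀ j, (f j).totalDegree ≤ D j) →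
      (∀ j, coeff 0 (f j) = 1) →
      eval (fun t : K d => coord (logForm f lam) (kap t.1)) Ψ0 = 0 := by
    intro f lam hf hc
    obtain ⟨v, hv1, hv2⟩ := exists_param D f lam hf hc
    have h2 : f = fun j => nf D j v := funext fun j => (hv1 j).symm
    have h3 : lam = fun j => v ⟨j, c0 (D j)⟩ := funext fun j => (hv2 j).symm
    rw [h2, h3]
    simp only [hP]
    rw [← eval_aeval_eq, hrel, map_zero]
  obtain ⟨n, hn⟩ : ∃ n, homogeneousComponent n Ψ0 ≠ 0 := by
    by_contra hall
    push Not at hall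
    apply hΨ0
    rw [← sum_homogeneousComponent Ψ0]
    exact Finset.sum_eq_zero fun m _ => hall m
  refine ⟨n, homogeneousComponent n Ψ0, hn, homogeneousComponent_isHomogeneous n Ψ0, ?_⟩
  have h2 : ∀ (f : Fin s → Poly) (lam : Fin s → ℂ), (∀ j, (f j).totalDegree ≤ D j) →
      (∀ j, coeff 0 (f j) = 1) →
      eval (fun t : K d => coord (logForm f lam) (kap t.1)) (homogeneousComponent n Ψ0) = 0 := by
    intro f lam hf hc
    apply eval_homogeneousComponent_eq_zero
    intro a
    have := h1 f (fun j => a * lam j) hf hc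
    rw [logForm_smul, coord_smul] at this
    exact this
  have h3 : ∀ (f : Fin s → Poly) (lam : Fin s → ℂ), (∀ j, (f j).totalDegree ≤ D j) →
      (∀ j, coeff 0 (f j) ≠ 0) →
      eval (fun t : K d => coord (logForm f lam) (kap t.1)) (homogeneousComponent n Ψ0) = 0 := by
    intro f lam hf hc
    have h4 := h2 (fun j => C (coeff 0 (f j))⁻¹ * f j) (fun j => (∏ k, coeff 0 (f k)) * lam j)
      (fun j => by
        refine (totalDegree_mul _ _).trans ?_
        rw [totalDegree_C, zero_add]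
        exact hf j)
      (fun j => by rw [coeff_C_mul, inv_mul_cancel₀ (hc j)])
    rw [logForm_scale, logForm_smul, smul_smul, ← Finset.prod_mul_distrib,
      Finset.prod_eq_one (fun j _ => inv_mul_cancel₀ (hc j)), one_smul] at h4
    exact h4
  intro f lam hf
  -- the full family
  let g : Fin s → (((Σ j, T (D j)) ⊕ Fin s) → ℂ) → Poly := fun j v =>
    poly (D j) (fun t => v (Sum.inl ⟨j, t⟩))
  have hg : ∀ j, PolyFam (g j) := fun j => polyFam_poly _ fun t => PolyMap.coord _
  have h5 := PolyMap.comp (fun t : K d => polyMap_coord_logForm g (fun j v => v (Sum.inr j)) hg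
    (fun j => PolyMap.coord _) (kap t.1)) (homogeneousComponent n Ψ0)
  have h6 := PolyMap.prod (σ := (Σ j, T (D j)) ⊕ Fin s) Finset.univ
    (g := fun j v => v (Sum.inl ⟨j, c0 (D j)⟩)) (fun j _ => PolyMap.coord _)
  have h7 := PolyMap.eq_zero_of_dense h5 h6 ⟨fun _ => 1, by simp⟩ (by
    intro v hv
    refine h3 _ _ (fun j => totalDegree_poly _) fun j => ?_
    have h8 : v (Sum.inl ⟨j, c0 (D j)⟩) ≠ 0 := (Finset.prod_ne_zero_iff.mp hv) j (Finset.mem_univ j)
    have h9 := coeff_poly (fun t => v (Sum.inl ⟨j, t⟩)) (c0 (D j))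
    rw [mT_c0] at h9
    show coeff 0 (poly (D j) (fun t => v (Sum.inl ⟨j, t⟩))) ≠ 0
    rw [h9]
    exact h8)
    (Sum.elim (fun x => coeff (mT x.2) (f x.1)) lam)
  have h10 : ∀ j, g j (Sum.elim (fun x => coeff (mT x.2) (f x.1)) lam) = f j := fun j => by
    show poly (D j) (fun t => coeff (mT t) (f j)) = f j
    exact poly_coeff (hf j)
  simp only [h10] at h7
  exact h7



theorem Passes.mono {d : ℕ} {Z W : Set (Fol d)} (h : Z ⊆ W) {f : Poly} (hf : Passes Z f) :
    Passes W f := by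
  obtain ⟨ω, h0, h1, h2⟩ := hf
  exact ⟨ω, h0, h1, h h2⟩

theorem kap_injective {d : ℕ} : Function.Injective (fun t : K d => kap t.1) := by
  intro t t' h
  have key : ∀ t : K d, ¬ 0 < (t.1.1 : ℕ) → 0 < (t.1.2 : ℕ) := by
    intro t h0
    have h0' : (t.1.1 : ℕ) = 0 := by omega
    by_contra h1
    have h1' : (t.1.2 : ℕ) = 0 := by omega
    apply t.2
    apply mT_injective
    rw [mT_c0, finsupp_eq_iff, mT_zero, mT_one]
    simp [h0', h1']
  apply Subtype.ext
  apply mT_injective
  simp only [kap] at h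
  rw [finsupp_eq_iff, mT_zero, mT_zero, mT_one, mT_one]
  split_ifs at h with h1 h2 h2
  · have h3 := (Prod.mk.inj h).2
    rw [finsupp_eq_iff] at h3
    simp [mT_zero, mT_one] at h3
    omega
  · exact absurd (Prod.mk.inj h).1 (by decide)
  · exact absurd (Prod.mk.inj h).1 (by decide)
  · have h3 := (Prod.mk.inj h).2
    rw [finsupp_eq_iff] at h3
    simp [mT_zero, mT_one] at h3
    have := key t h1
    have := key t' h2
    omega

/-- For a generic polynomial `f` of degree at most `d`, the foliation `F(df)` is not in the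
closure of a logarithmic family with few parameters. -/
theorem exists_excluding (d : ℕ) {s : ℕ} (D : Fin s → ℕ)
    (hcard : ∑ j, Fintype.card (T (D j)) < Fintype.card (K d)) :
    ∃ Θ : MvPolynomial (K d) ℂ, Θ ≠ 0 ∧ ∀ f : Poly,
      eval (fun t : K d => coeff (mT t.1) f) Θ ≠ 0 →
        ¬ Passes (zariskiClosure (logFamily d D)) f := by
  obtain ⟨n, Ψ, h0, hn, hΨ⟩ := exists_homogeneous_relation d D hcard
  have hev : ∀ u : K d → ℂ, eval u (aeval (fun t : K d => C (wt t.1) * X t) Ψ) =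
      eval (fun t => wt t.1 * u t) Ψ := by
    intro u
    rw [eval_aeval_eq]
    simp
  refine ⟨aeval (fun t : K d => C (wt t.1) * X t) Ψ, ?_, ?_⟩
  · intro hz
    apply h0
    apply MvPolynomial.funext
    intro u
    have h1 := hev (fun t => (wt t.1)⁻¹ * u t)
    rw [hz] at h1
    rw [map_zero]
    have h2 : (fun t : K d => wt t.1 * ((wt t.1)⁻¹ * u t)) = u := by
      funext t
      rw [← mul_assoc, mul_inv_cancel₀ (wt_ne_zero t), one_mul]
    rw [h2] at h1
    simpa using h1.symm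
  · intro f hf hpass
    obtain ⟨ω, h, hω, hmem⟩ := hpass
    have hS : ∀ Φ ∈ ({rename (fun t : K d => kap t.1) Ψ} : Set PolyFun),
        ∃ m : ℕ, Φ.IsHomogeneous m := by
      intro Φ hΦ
      rw [Set.mem_singleton_iff.mp hΦ]
      exact ⟨n, hn.rename_isHomogeneous⟩
    have hsub : zariskiClosure (logFamily d D) ⊆
        zeroLocus d {rename (fun t : K d => kap t.1) Ψ} := by
      refine zariskiClosure_subset ⟨_, hS, rfl⟩ ?_
      rintro x ⟨f', lam, hf', ω', h', hω', rfl⟩
      rw [mk_mem_zeroLocus _ hS]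
      intro Φ hΦ
      rw [Set.mem_singleton_iff.mp hΦ, eval_rename, hω']
      exact hΨ f' lam hf'
    have h1 := hsub hmem
    rw [mk_mem_zeroLocus _ hS] at h1
    have h2 := h1 _ rfl
    rw [eval_rename, hω] at h2
    apply hf
    rw [hev]
    have h3 : (coord (diff f) ∘ fun t : K d => kap t.1) =
        fun t : K d => wt t.1 * coeff (mT t.1) f := by
      funext t
      exact coord_diff_kap t f
    rwa [h3] at h2

/-- The dimension count. -/
theorem card_lt (d : ℕ) (hd : 7 ≤ d) {s : ℕ} (D : Fin s → ℕ) (h1 : ∀ j, 1 ≤ D j)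
    (h2 : ∀ j, D j < d) (hsum : ∑ j, D j = d + 1) :
    ∑ j, Fintype.card (T (D j)) < Fintype.card (K d) := by
  have hK : 2 * (Fintype.card (K d) : ℤ) = (d : ℤ) * d + 3 * d := by
    have e1 := card_K d
    have e2 := card_T d
    have e3 : (d + 1) * (d + 2) = d * d + 3 * d + 2 := by ring
    have e4 : 2 * Fintype.card (K d) = d * d + 3 * d := by omega
    exact_mod_cast e4
  have hT : 2 * ((∑ j, Fintype.card (T (D j)) : ℕ) : ℤ) =
      ∑ j, ((D j : ℤ) + 1) * ((D j : ℤ) + 2) := by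
    push_cast
    rw [Finset.mul_sum]
    refine Finset.sum_congr rfl fun j _ => ?_
    exact_mod_cast card_T (D j)
  have hsum' : ∑ j, (D j : ℤ) = d + 1 := by exact_mod_cast hsum
  have hs : 2 ≤ s := by
    by_contra hlt
    have h3 : ∑ j, D j ≤ ∑ _j : Fin s, (d - 1) :=
      Finset.sum_le_sum fun j _ => by have := h2 j; omega
    rw [Finset.sum_const, Finset.card_univ, Fintype.card_fin, smul_eq_mul] at h3
    have h4 : s * (d - 1) ≤ 1 * (d - 1) := Nat.mul_le_mul_right _ (by omega)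
    omega
  have hbound : ∑ j, ((D j : ℤ) + 1) * ((D j : ℤ) + 2) ≤ (d : ℤ) * d + d + 12 := by
    by_cases hA : ∃ j, D j = d - 1
    · obtain ⟨j0, hj0⟩ := hA
      rw [← Finset.add_sum_erase Finset.univ _ (Finset.mem_univ j0)] at hsum' ⊢
      have hj0' : (D j0 : ℤ) = d - 1 := by
        rw [hj0]; push_cast [show 1 ≤ d by omega]; ring
      have h5 : ∑ j ∈ Finset.univ.erase j0, (D j : ℤ) = 2 := by linarith
      have h6 : ∀ j ∈ Finset.univ.erase j0, ((D j : ℤ) + 1) * ((D j : ℤ) + 2) ≤ 6 * (D j : ℤ) := by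
        intro j hj
        have h7 : (D j : ℤ) ≤ ∑ j ∈ Finset.univ.erase j0, (D j : ℤ) :=
          Finset.single_le_sum (f := fun j => (D j : ℤ)) (fun i _ => by positivity) hj
        rw [h5] at h7
        have h8 : (1 : ℤ) ≤ D j := by exact_mod_cast h1 j
        nlinarith
      have h9 := Finset.sum_le_sum h6
      rw [← Finset.mul_sum, h5] at h9
      rw [hj0']
      nlinarith
    · push Not at hA
      have h6 : ∀ j ∈ (Finset.univ : Finset (Fin s)), ((D j : ℤ) + 1) * ((D j : ℤ) + 2) ≤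
          6 + ((d : ℤ) + 2) * ((D j : ℤ) - 1) := by
        intro j _
        have h8 : (1 : ℤ) ≤ D j := by exact_mod_cast h1 j
        have h9 : (D j : ℤ) ≤ d - 2 := by
          have e1 := h2 j
          have e2 := hA j
          have e3 : D j + 2 ≤ d := by omega
          have : ((D j : ℤ) + 2) ≤ d := by exact_mod_cast e3
          linarith
        nlinarith
      have h9 := Finset.sum_le_sum h6
      rw [Finset.sum_add_distrib, ← Finset.mul_sum, Finset.sum_sub_distrib, hsum'] at h9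
      simp only [Finset.sum_const, Finset.card_univ, Fintype.card_fin, nsmul_eq_mul] at h9
      have h10 : (2 : ℤ) ≤ s := by exact_mod_cast hs
      have h11 : (7 : ℤ) ≤ d := by exact_mod_cast hd
      nlinarith
  have h11 : (7 : ℤ) ≤ d := by exact_mod_cast hd
  have : ((∑ j, Fintype.card (T (D j)) : ℕ) : ℤ) < (Fintype.card (K d) : ℤ) := by
    linarith
  exact_mod_cast this



/-! ## Generic polynomials -/

/-- Auxiliary form of genericity. -/
def Gen (d : ℕ) (p : Poly → Prop) : Prop :=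
  ∃ Θ : MvPolynomial (T d) ℂ, Θ ≠ 0 ∧ ∀ f : Poly, f.totalDegree ≤ d →
    eval (fun t => coeff (mT t) f) Θ ≠ 0 → p f

theorem Gen.mono {d : ℕ} {p q : Poly → Prop} (h : ∀ f, f.totalDegree ≤ d → p f → q f)
    (hp : Gen d p) : Gen d q := by
  obtain ⟨Θ, h0, h1⟩ := hp
  exact ⟨Θ, h0, fun f hf hne => h f hf (h1 f hf hne)⟩

theorem Gen.true {d : ℕ} {p : Poly → Prop} (h : ∀ f, p f) : Gen d p :=
  ⟨1, one_ne_zero, fun f _ _ => h f⟩

theorem Gen.and {d : ℕ} {p q : Poly → Prop} (hp : Gen d p) (hq : Gen d q) :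
    Gen d (fun f => p f ∧ q f) := by
  obtain ⟨Θ, h0, h1⟩ := hp
  obtain ⟨Θ', h0', h1'⟩ := hq
  refine ⟨Θ * Θ', mul_ne_zero h0 h0', fun f hf hne => ?_⟩
  rw [map_mul] at hne
  exact ⟨h1 f hf (left_ne_zero_of_mul hne), h1' f hf (right_ne_zero_of_mul hne)⟩

theorem Gen.forall {d : ℕ} {ι : Type} [Fintype ι] {p : ι → Poly → Prop}
    (hp : ∀ i, Gen d (p i)) : Gen d (fun f => ∀ i, p i f) := by
  choose Θ h0 h1 using hp
  refine ⟨∏ i, Θ i, Finset.prod_ne_zero_iff.mpr fun i _ => h0 i, fun f hf hne i => ?_⟩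
  rw [map_prod] at hne
  exact h1 i f hf (Finset.prod_ne_zero_iff.mp hne i (Finset.mem_univ i))

theorem Gen.of_K {d : ℕ} {p : Poly → Prop} (Θ : MvPolynomial (K d) ℂ) (h0 : Θ ≠ 0)
    (h : ∀ f : Poly, eval (fun t : K d => coeff (mT t.1) f) Θ ≠ 0 → p f) : Gen d p := by
  refine ⟨rename Subtype.val Θ, ?_, ?_⟩
  · intro hz
    apply h0
    exact rename_injective _ Subtype.val_injective (by rw [hz, map_zero])
  · intro f _ hne
    apply h
    rw [eval_rename] at hne
    exact hne

theorem Gen.generic {d : ℕ} {p : Poly → Prop} (hp : Gen d p) : Generic d p := by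
  obtain ⟨Θ, h0, h1⟩ := hp
  refine ⟨rename mT Θ, ?_, ?_⟩
  · obtain ⟨u, hu⟩ : ∃ u, eval u Θ ≠ 0 := by
      by_contra hall
      push Not at hall
      exact h0 (MvPolynomial.funext fun u => by rw [hall u, map_zero])
    refine ⟨poly d u, totalDegree_poly u, ?_⟩
    rw [eval_rename]
    have : ((fun m => coeff m (poly d u)) ∘ mT) = u := funext fun t => coeff_poly u t
    rwa [this]
  · intro f hf hne
    rw [eval_rename] at hne
    exact h1 f hf hne

/-- Hypersurface containing a family with few parameters. -/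
theorem Gen.not_mem_family {d : ℕ} {σ : Type} [Fintype σ] (F : (σ → ℂ) → Poly) (hF : PolyFam F)
    (hcard : Fintype.card σ < Fintype.card (T d)) : Gen d (fun f => ¬ ∃ v, f = F v) := by
  have h := fun t : T d => hF (mT t)
  choose P hP using h
  obtain ⟨Θ, h0, hrel⟩ := exists_relation hcard P
  refine ⟨Θ, h0, fun f _ hne => ?_⟩
  rintro ⟨v, rfl⟩
  apply hne
  simp only [hP]
  rw [← eval_aeval_eq, hrel, map_zero]

/-- `F(df)` belongs to the logarithmic family when some degree bound is at least `deg f`. -/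
theorem passes_logFamily {d : ℕ} {s : ℕ} (D : Fin s → ℕ) (j : Fin s) (hj : d ≤ D j) (f : Poly)
    (hf : f.totalDegree ≤ d) (hne : diff f ≠ 0) : Passes (logFamily d D) f := by
  classical
  have hmem : diff f ∈ forms d := by
    refine ⟨?_, ?_⟩
    · show pderiv 0 f ∈ restrictTotalDegree (Fin 2) ℂ d
      rw [mem_restrictTotalDegree]
      exact (totalDegree_pderiv_le 0 f).trans (by omega)
    · show pderiv 1 f ∈ restrictTotalDegree (Fin 2) ℂ d
      rw [mem_restrictTotalDegree]
      exact (totalDegree_pderiv_le 1 f).trans (by omega)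
  refine ⟨⟨diff f, hmem⟩, fun h => hne (congrArg Subtype.val h), rfl,
    fun k => if k = j then f else 1, fun k => if k = j then 1 else 0, ?_, _, _, ?_, rfl⟩
  · intro k
    by_cases hk : k = j
    · subst hk
      simpa using hf.trans hj
    · simp [hk]
  · show diff f = _
    unfold logForm
    rw [Finset.sum_eq_single j]
    · simp only [if_true, one_smul]
      rw [Finset.prod_eq_one, one_smul]
      intro k hk
      rw [if_neg (Finset.ne_of_mem_erase hk)]
    · intro k _ hk
      simp only [if_neg hk, zero_smul]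
    · intro h
      exact absurd (Finset.mem_univ j) h

theorem diff_ne_zero {f : Poly} (hf : f.totalDegree ≠ 0) : diff f ≠ 0 := by
  intro h
  apply hf
  rw [totalDegree_eq_zero_iff_eq_C]
  ext m
  by_cases hm : m = 0
  · subst hm; simp
  · rw [coeff_C, if_neg (Ne.symm hm)]
    obtain ⟨t, ht0⟩ := exists_mT (D := m 0 + m 1) m le_rfl
    have ht : t ≠ c0 _ := by
      intro h1
      apply hm
      rw [← ht0, h1]
      exact mT_c0 _
    rw [← ht0]
    have h1 := coord_diff_kap ⟨t, ht⟩ f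
    rw [h] at h1
    have h2 : coord (0 : Form) (kap t) = 0 := by
      unfold coord; split_ifs <;> simp
    rw [h2] at h1
    rcases mul_eq_zero.mp h1.symm with h3 | h3
    · exact absurd h3 (wt_ne_zero ⟨t, ht⟩)
    · exact h3

/-- Generic polynomials of degree at most `d` have degree `d`. -/
theorem gen_totalDegree (d : ℕ) : Gen d (fun f => f.totalDegree = d) := by
  refine ⟨X (idx d 0 (le_of_eq (add_zero d))), X_ne_zero _, fun f hf hne => ?_⟩
  rw [eval_X, mT_idx] at hne
  have := sum_le_totalDegree hne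
  simp at this
  omega

/-- For generic `f` of degree at most `d`, `d ≥ 7`, the foliation `F(df)` lies in the closure of
`L(d_1, …, d_s)` only if some `d_j` is at least `d`. -/
theorem gen_logFamily (d : ℕ) (hd : 7 ≤ d) : Gen d (fun f => ∀ (s : ℕ) (D : Fin s → ℕ),
    (∀ j, 1 ≤ D j) → ∑ j, D j = d + 1 → Passes (zariskiClosure (logFamily d D)) f →
      ∃ j, d ≤ D j) := by
  have h1 : Gen d (fun f => ∀ i : (Σ s : Fin (d + 2), (Fin s → Fin (d + 2))),
      (∀ j, 1 ≤ (i.2 j : ℕ)) → ∑ j, (i.2 j : ℕ) = d + 1 → (∀ j, (i.2 j : ℕ) < d) →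
      ¬ Passes (zariskiClosure (logFamily d (fun j => (i.2 j : ℕ)))) f) := by
    apply Gen.forall
    rintro ⟨s, D⟩
    by_cases hc : (∀ j, 1 ≤ (D j : ℕ)) ∧ ∑ j, (D j : ℕ) = d + 1 ∧ (∀ j, (D j : ℕ) < d)
    · obtain ⟨Θ, h0, h2⟩ := exists_excluding d (fun j => (D j : ℕ))
        (card_lt d hd _ hc.1 hc.2.2 hc.2.1)
      exact Gen.of_K Θ h0 fun f hf _ _ _ => h2 f hf
    · exact Gen.true fun f ha hb hc' => absurd ⟨ha, hb, hc'⟩ hc
  refine h1.mono fun f _ hf s D hD hsum hpass => ?_
  by_contra hall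
  push Not at hall
  have hs : s < d + 2 := by
    have h3 : ∑ _j : Fin s, 1 ≤ ∑ j, D j := Finset.sum_le_sum fun j _ => hD j
    rw [Finset.sum_const, Finset.card_univ, Fintype.card_fin, smul_eq_mul, mul_one, hsum] at h3
    omega
  have h4 := hf ⟨⟨s, hs⟩, fun j => ⟨D j, by have := hall j; omega⟩⟩ hD hsum hall
  exact h4 hpass



/-! ## Substitutions -/

/-- The substitution `x ↦ A`, `y ↦ B`. -/
noncomputable def sub (A B : Poly) : Poly →ₐ[ℂ] Poly := aeval ![A, B]

theorem sub_monomial (A B : Poly) (m : Fin 2 →₀ ℕ) (c : ℂ) :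
    sub A B (monomial m c) = C c * (A ^ (m 0) * B ^ (m 1)) := by
  unfold sub
  rw [aeval_monomial, Finsupp.prod_fintype _ _ (fun _ => pow_zero _), Fin.prod_univ_two]
  rfl

theorem sub_poly {D : ℕ} (A B : Poly) (c : T D → ℂ) :
    sub A B (poly D c) = ∑ t, C (c t) * (A ^ (t.1 : ℕ) * B ^ (t.2 : ℕ)) := by
  unfold poly
  rw [map_sum]
  refine Finset.sum_congr rfl fun t _ => ?_
  rw [sub_monomial, mT_zero, mT_one]

theorem totalDegree_sub {D : ℕ} {A B f : Poly} (hA : A.totalDegree ≤ 1) (hB : B.totalDegree ≤ 1)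
    (hf : f.totalDegree ≤ D) : (sub A B f).totalDegree ≤ D := by
  rw [← poly_coeff hf, sub_poly]
  refine totalDegree_finsetSum_le fun t _ => ?_
  refine (totalDegree_mul _ _).trans ?_
  rw [totalDegree_C, zero_add]
  refine (totalDegree_mul _ _).trans ?_
  have h1 := totalDegree_pow A (t.1 : ℕ)
  have h2 := totalDegree_pow B (t.2 : ℕ)
  have h3 : (t.1 : ℕ) * A.totalDegree ≤ (t.1 : ℕ) * 1 := Nat.mul_le_mul_left _ hA
  have h4 : (t.2 : ℕ) * B.totalDegree ≤ (t.2 : ℕ) * 1 := Nat.mul_le_mul_left _ hB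
  have h5 := mT_le t
  rw [mT_zero, mT_one] at h5
  omega

theorem sub_X_zero (A B : Poly) : sub A B (X 0) = A := by simp [sub]

theorem sub_X_one (A B : Poly) : sub A B (X 1) = B := by simp [sub]

theorem sub_C (A B : Poly) (c : ℂ) : sub A B (C c) = C c := by simp [sub]

theorem sub_sub (A B A' B' f : Poly) :
    sub A B (sub A' B' f) = sub (sub A B A') (sub A B B') f := by
  have h : (sub A B).comp (sub A' B') = sub (sub A B A') (sub A B B') := by
    apply algHom_ext
    intro i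
    fin_cases i
    · show sub A B (sub A' B' (X 0)) = sub (sub A B A') (sub A B B') (X 0)
      rw [sub_X_zero, sub_X_zero]
    · show sub A B (sub A' B' (X 1)) = sub (sub A B A') (sub A B B') (X 1)
      rw [sub_X_one, sub_X_one]
  exact AlgHom.congr_fun h f

theorem sub_id (f : Poly) : sub (X 0) (X 1) f = f := by
  have h : sub (X 0) (X 1) = AlgHom.id ℂ Poly := by
    apply algHom_ext
    intro i
    fin_cases i
    · show sub (X 0) (X 1) (X 0) = X 0
      rw [sub_X_zero]
    · show sub (X 0) (X 1) (X 1) = X 1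
      rw [sub_X_one]
  exact AlgHom.congr_fun h f

/-- The chain rule. -/
theorem pderiv_sub (i : Fin 2) (A B f : Poly) : pderiv i (sub A B f) =
    sub A B (pderiv 0 f) * pderiv i A + sub A B (pderiv 1 f) * pderiv i B := by
  induction f using MvPolynomial.induction_on with
  | C a => simp
  | add p q hp hq => rw [map_add, map_add, hp, hq]; simp only [map_add]; ring
  | mul_X p j hp =>
    rw [map_mul]
    fin_cases j
    · simp only [Fin.zero_eta, sub_X_zero, Derivation.leibniz, hp, pderiv_X_self,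
        pderiv_X_of_ne (show (0 : Fin 2) ≠ 1 by decide), smul_eq_mul, map_add, map_mul, mul_one,
        mul_zero, zero_add]
      ring
    · simp only [Fin.mk_one, sub_X_one, Derivation.leibniz, hp, pderiv_X_self,
        pderiv_X_of_ne (show (1 : Fin 2) ≠ 0 by decide), smul_eq_mul, map_add, map_mul, mul_one,
        mul_zero, zero_add]
      ring

theorem eval_sub' (u : Fin 2 → ℂ) (A B f : Poly) :
    eval u (sub A B f) = eval ![eval u A, eval u B] f := by
  have h : (eval u).comp (sub A B).toRingHom = eval ![eval u A, eval u B] := by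
    apply ringHom_ext
    · intro r; simp
    · intro i
      fin_cases i
      · show eval u (sub A B (X 0)) = _
        rw [sub_X_zero]; simp
      · show eval u (sub A B (X 1)) = _
        rw [sub_X_one]; simp
  exact RingHom.congr_fun h f

theorem polyFam_sub {σ : Type} {D : ℕ} {A B : (σ → ℂ) → Poly} (hA : PolyFam A) (hB : PolyFam B)
    {c : T D → (σ → ℂ) → ℂ} (hc : ∀ t, PolyMap (c t)) :
    PolyFam (fun v => sub (A v) (B v) (poly D (fun t => c t v))) := by
  simp only [sub_poly]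
  exact PolyFam.sum _ fun t _ => (PolyFam.C (hc t)).mul ((hA.pow _).mul (hB.pow _))

theorem idx_inj {D a b a' b' : ℕ} {h : a + b ≤ D} {h' : a' + b' ≤ D} :
    idx a b h = idx a' b' h' ↔ a = a' ∧ b = b' := by
  constructor
  · intro he
    have h1 := congrArg mT he
    rw [mT_idx, mT_idx, finsupp_eq_iff] at h1
    simpa using h1
  · rintro ⟨rfl, rfl⟩
    rfl

theorem coeff_zero_eq_eval (f : Poly) : coeff 0 f = eval 0 f := by
  rw [← constantCoeff_eq, MvPolynomial.eval_zero]

theorem coeff_x (f : Poly) : coeff (Finsupp.single 0 1) f = eval 0 (pderiv 0 f) := by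
  rw [← coeff_zero_eq_eval, coeff_pderiv]
  simp

theorem coeff_y (f : Poly) : coeff (Finsupp.single 1 1) f = eval 0 (pderiv 1 f) := by
  rw [← coeff_zero_eq_eval, coeff_pderiv]
  simp

theorem coeff_xx (f : Poly) :
    2 * coeff (Finsupp.single 0 2) f = eval 0 (pderiv 0 (pderiv 0 f)) := by
  rw [← coeff_zero_eq_eval, coeff_pderiv, coeff_pderiv]
  have : (0 : Fin 2 →₀ ℕ) + Finsupp.single 0 1 + Finsupp.single 0 1 = Finsupp.single 0 2 := by
    rw [finsupp_eq_iff]; simp
  rw [this]
  simp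
  ring

theorem coeff_yy (f : Poly) :
    2 * coeff (Finsupp.single 1 2) f = eval 0 (pderiv 1 (pderiv 1 f)) := by
  rw [← coeff_zero_eq_eval, coeff_pderiv, coeff_pderiv]
  have : (0 : Fin 2 →₀ ℕ) + Finsupp.single 1 1 + Finsupp.single 1 1 = Finsupp.single 1 2 := by
    rw [finsupp_eq_iff]; simp
  rw [this]
  simp
  ring

theorem coeff_xy (f : Poly) :
    coeff (Finsupp.single 0 1 + Finsupp.single 1 1) f = eval 0 (pderiv 0 (pderiv 1 f)) := by
  rw [← coeff_zero_eq_eval, coeff_pderiv, coeff_pderiv]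
  rw [zero_add]
  simp



/-! ## Generic polynomials have non-degenerate critical points -/

/-- Extension by zero of the free parameters. -/
noncomputable def fr {d : ℕ} (S : Finset (T d)) (v : ({t : T d // t ∉ S} ⊕ Fin 4) → ℂ)
    (t : T d) : ℂ := if h : t ∈ S then 0 else v (Sum.inl ⟨t, h⟩)

theorem polyMap_fr {d : ℕ} (S : Finset (T d)) (t : T d) : PolyMap (fun v => fr S v t) := by
  unfold fr
  by_cases h : t ∈ S
  · simp only [h, dif_pos]
    exact PolyMap.const 0
  · simp only [h, dif_neg, not_false_eq_true]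
    exact PolyMap.coord _

theorem card_param {d : ℕ} (S : Finset (T d)) (hS : S.card = 5) :
    Fintype.card ({t : T d // t ∉ S} ⊕ Fin 4) < Fintype.card (T d) := by
  rw [Fintype.card_sum, Fintype.card_fin]
  have h1 : Fintype.card {t : T d // t ∉ S} = Fintype.card (T d) - S.card := by
    rw [Fintype.card_subtype_compl, Fintype.card_coe]
  have h2 : S.card ≤ Fintype.card (T d) := Finset.card_le_univ S
  omega

/-- The special indices in the first case. -/
def SA (d : ℕ) (hd : 2 ≤ d) : Finset (T d) :=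
  {idx 1 0 (by omega), idx 0 1 (by omega), idx 2 0 (by omega), idx 0 2 (by omega),
    idx 1 1 (by omega)}

theorem card_SA (d : ℕ) (hd : 2 ≤ d) : (SA d hd).card = 5 := by
  unfold SA
  rw [Finset.card_insert_of_notMem, Finset.card_insert_of_notMem, Finset.card_insert_of_notMem,
    Finset.card_insert_of_notMem, Finset.card_singleton]
  all_goals simp [idx_inj]

/-- The coefficients of the polynomials with a degenerate critical point at the origin. -/
noncomputable def cA (d : ℕ) (hd : 2 ≤ d) (t : T d)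
    (v : ({t : T d // t ∉ SA d hd} ⊕ Fin 4) → ℂ) : ℂ :=
  fr (SA d hd) v t + (if t = idx 2 0 (by omega) then v (Sum.inr 2) * v (Sum.inr 2) else 0) +
    (if t = idx 0 2 (by omega) then v (Sum.inr 3) * v (Sum.inr 3) else 0) +
    (if t = idx 1 1 (by omega) then 2 * v (Sum.inr 2) * v (Sum.inr 3) else 0)

theorem PolyMap.ite {σ : Type} {p : Prop} [Decidable p] {g h : (σ → ℂ) → ℂ} (hg : PolyMap g)
    (hh : PolyMap h) : PolyMap (fun v => if p then g v else h v) := by
  split_ifs
  · exact hg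
  · exact hh

theorem polyMap_cA (d : ℕ) (hd : 2 ≤ d) (t : T d) : PolyMap (cA d hd t) := by
  unfold cA
  refine (((polyMap_fr _ t).add ?_).add ?_).add ?_
  · exact PolyMap.ite ((PolyMap.coord _).mul (PolyMap.coord _)) (PolyMap.const 0)
  · exact PolyMap.ite ((PolyMap.coord _).mul (PolyMap.coord _)) (PolyMap.const 0)
  · exact PolyMap.ite (((PolyMap.const 2).mul (PolyMap.coord _)).mul (PolyMap.coord _))
      (PolyMap.const 0)

theorem cA_eq (d : ℕ) (hd : 2 ≤ d) (g : T d → ℂ) (p0 p1 a b : ℂ)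
    (h10 : g (idx 1 0 (by omega)) = 0) (h01 : g (idx 0 1 (by omega)) = 0)
    (h20 : g (idx 2 0 (by omega)) = a * a) (h02 : g (idx 0 2 (by omega)) = b * b)
    (h11 : g (idx 1 1 (by omega)) = 2 * a * b) (t : T d) :
    cA d hd t (Sum.elim (fun t => g t.1) ![p0, p1, a, b]) = g t := by
  unfold cA fr
  by_cases ht : t ∈ SA d hd
  · rw [dif_pos ht]
    simp only [SA, Finset.mem_insert, Finset.mem_singleton] at ht
    rcases ht with rfl | rfl | rfl | rfl | rfl <;>
      simp [idx_inj, h10, h01, h20, h02, h11]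
  · rw [dif_neg ht]
    simp only [SA, Finset.mem_insert, Finset.mem_singleton, not_or] at ht
    obtain ⟨-, -, e1, e2, e3⟩ := ht
    simp [e1, e2, e3]

theorem gen_nondegenerate (d : ℕ) (hd : 2 ≤ d) : Gen d (fun f => ∀ p : Fin 2 → ℂ,
    eval p (pderiv 0 f) = 0 → eval p (pderiv 1 f) = 0 →
    eval p (pderiv 0 (pderiv 0 f) * pderiv 1 (pderiv 1 f) - pderiv 0 (pderiv 1 f) ^ 2) ≠ 0) := by
  have hfam : PolyFam (fun v : ({t : T d // t ∉ SA d hd} ⊕ Fin 4) → ℂ =>
      sub (X 0 - C (v (Sum.inr 0))) (X 1 - C (v (Sum.inr 1))) (poly d (fun t => cA d hd t v))) :=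
    polyFam_sub ((PolyFam.const _).sub (PolyFam.C (PolyMap.coord _)))
      ((PolyFam.const _).sub (PolyFam.C (PolyMap.coord _))) (polyMap_cA d hd)
  refine (Gen.not_mem_family _ hfam (card_param _ (card_SA d hd))).mono ?_
  intro f hf hnot p hx hy hdeg
  apply hnot
  let g := sub (X 0 + C (p 0)) (X 1 + C (p 1)) f
  have hA : (X 0 + C (p 0) : Poly).totalDegree ≤ 1 :=
    (totalDegree_add _ _).trans (max_le (by simp) (by simp))
  have hB : (X 1 + C (p 1) : Poly).totalDegree ≤ 1 :=
    (totalDegree_add _ _).trans (max_le (by simp) (by simp))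
  have hg : g.totalDegree ≤ d := totalDegree_sub hA hB hf
  have hd0 : ∀ r : Poly, pderiv 0 (sub (X 0 + C (p 0)) (X 1 + C (p 1)) r) =
      sub (X 0 + C (p 0)) (X 1 + C (p 1)) (pderiv 0 r) := by
    intro r
    rw [pderiv_sub]
    simp [pderiv_X_of_ne (show (1 : Fin 2) ≠ 0 by decide)]
  have hd1 : ∀ r : Poly, pderiv 1 (sub (X 0 + C (p 0)) (X 1 + C (p 1)) r) =
      sub (X 0 + C (p 0)) (X 1 + C (p 1)) (pderiv 1 r) := by
    intro r
    rw [pderiv_sub]
    simp [pderiv_X_of_ne (show (0 : Fin 2) ≠ 1 by decide)]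
  have hev : ∀ r : Poly, eval 0 (sub (X 0 + C (p 0)) (X 1 + C (p 1)) r) = eval p r := by
    intro r
    rw [eval_sub']
    congr 2
    funext i
    fin_cases i <;> simp
  have g10 : coeff (Finsupp.single 0 1) g = 0 := by rw [coeff_x, hd0, hev, hx]
  have g01 : coeff (Finsupp.single 1 1) g = 0 := by rw [coeff_y, hd1, hev, hy]
  have g20 : 2 * coeff (Finsupp.single 0 2) g = eval p (pderiv 0 (pderiv 0 f)) := by
    rw [coeff_xx, hd0, hd0, hev]
  have g02 : 2 * coeff (Finsupp.single 1 2) g = eval p (pderiv 1 (pderiv 1 f)) := by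
    rw [coeff_yy, hd1, hd1, hev]
  have g11 : coeff (Finsupp.single 0 1 + Finsupp.single 1 1) g =
      eval p (pderiv 0 (pderiv 1 f)) := by
    rw [coeff_xy, hd1, hd0, hev]
  rw [map_sub, map_mul, map_pow, ← g20, ← g02, ← g11] at hdeg
  obtain ⟨a, ha⟩ := IsAlgClosed.exists_pow_nat_eq (coeff (Finsupp.single 0 2) g) (n := 2) (by norm_num)
  obtain ⟨b', hb'⟩ := IsAlgClosed.exists_pow_nat_eq (coeff (Finsupp.single 1 2) g) (n := 2) (by norm_num)
  obtain ⟨b, hb, hab⟩ : ∃ b, b ^ 2 = coeff (Finsupp.single 1 2) g ∧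
      coeff (Finsupp.single 0 1 + Finsupp.single 1 1) g = 2 * a * b := by
    have h1 : (coeff (Finsupp.single 0 1 + Finsupp.single 1 1) g) ^ 2 = (2 * a * b') ^ 2 := by
      rw [← ha, ← hb'] at hdeg
      linear_combination -hdeg
    rcases sq_eq_sq_iff_eq_or_eq_neg.mp h1 with h2 | h2
    · exact ⟨b', hb', h2⟩
    · exact ⟨-b', by rw [neg_sq, hb'], by rw [h2]; ring⟩
  refine ⟨Sum.elim (fun t => coeff (mT t.1) g) ![p 0, p 1, a, b], ?_⟩
  have hc : ∀ t, cA d hd t (Sum.elim (fun t => coeff (mT t.1) g) ![p 0, p 1, a, b]) =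
      coeff (mT t) g := by
    intro t
    refine cA_eq d hd (fun t => coeff (mT t) g) (p 0) (p 1) a b ?_ ?_ ?_ ?_ ?_ t
    · show coeff (mT _) g = 0
      rw [mT_idx]; simpa using g10
    · show coeff (mT _) g = 0
      rw [mT_idx]; simpa using g01
    · show coeff (mT _) g = a * a
      rw [mT_idx, ← sq, ha]; simp
    · show coeff (mT _) g = b * b
      rw [mT_idx, ← sq, hb]; simp
    · show coeff (mT _) g = 2 * a * b
      rw [mT_idx, hab]
  simp only [hc, poly_coeff hg]
  show f = sub (X 0 - C (p 0)) (X 1 - C (p 1)) g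
  show f = sub (X 0 - C (p 0)) (X 1 - C (p 1)) (sub (X 0 + C (p 0)) (X 1 + C (p 1)) f)
  rw [sub_sub, map_add, map_add, sub_X_zero, sub_X_one, sub_C, sub_C, sub_add_cancel,
    sub_add_cancel, sub_id]



/-! ## Generic polynomials have distinct critical values -/

/-- The special indices in the second case. -/
def SB (d : ℕ) (hd : 3 ≤ d) : Finset (T d) :=
  {idx 1 0 (by omega), idx 0 1 (by omega), idx 2 0 (by omega), idx 3 0 (by omega),
    idx 1 1 (by omega)}

theorem card_SB (d : ℕ) (hd : 3 ≤ d) : (SB d hd).card = 5 := by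
  unfold SB
  rw [Finset.card_insert_of_notMem, Finset.card_insert_of_notMem, Finset.card_insert_of_notMem,
    Finset.card_insert_of_notMem, Finset.card_singleton]
  all_goals simp [idx_inj]

/-- A linear functional of the coefficients. -/
noncomputable def lin {d : ℕ} (w : T d → ℂ) (u : T d → ℂ) : ℂ := ∑ t, w t * u t

/-- Weights of `h(1,0) - h(0,0)`. -/
noncomputable def w1 {d : ℕ} (t : T d) : ℂ :=
  if (t.2 : ℕ) = 0 then (if t = c0 d then 0 else 1) else 0

/-- Weights of `h_x(1,0)`. -/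
noncomputable def w2 {d : ℕ} (t : T d) : ℂ := if (t.2 : ℕ) = 0 then ((t.1 : ℕ) : ℂ) else 0

/-- Weights of `h_y(1,0)`. -/
noncomputable def w3 {d : ℕ} (t : T d) : ℂ := if (t.2 : ℕ) = 1 then 1 else 0

/-- The coefficients of the polynomials with critical points `(0,0)` and `(1,0)` on the same
level. -/
noncomputable def cB (d : ℕ) (hd : 3 ≤ d) (t : T d)
    (v : ({t : T d // t ∉ SB d hd} ⊕ Fin 4) → ℂ) : ℂ :=
  fr (SB d hd) v t +
    (if t = idx 2 0 (by omega) then
      -3 * lin w1 (fr (SB d hd) v) + lin w2 (fr (SB d hd) v) else 0) +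
    (if t = idx 3 0 (by omega) then
      2 * lin w1 (fr (SB d hd) v) + -1 * lin w2 (fr (SB d hd) v) else 0) +
    (if t = idx 1 1 (by omega) then -1 * lin w3 (fr (SB d hd) v) else 0)

theorem polyMap_lin {d : ℕ} (S : Finset (T d)) (w : T d → ℂ) :
    PolyMap (fun v => lin w (fr S v)) := by
  unfold lin
  exact PolyMap.sum _ fun t _ => (PolyMap.const _).mul (polyMap_fr S t)

theorem polyMap_cB (d : ℕ) (hd : 3 ≤ d) (t : T d) : PolyMap (cB d hd t) := by
  unfold cB
  refine (((polyMap_fr _ t).add ?_).add ?_).add ?_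
  · exact PolyMap.ite (((PolyMap.const _).mul (polyMap_lin _ _)).add (polyMap_lin _ _))
      (PolyMap.const 0)
  · exact PolyMap.ite (((PolyMap.const _).mul (polyMap_lin _ _)).add
      ((PolyMap.const _).mul (polyMap_lin _ _))) (PolyMap.const 0)
  · exact PolyMap.ite ((PolyMap.const _).mul (polyMap_lin _ _)) (PolyMap.const 0)

theorem fr_eq (d : ℕ) (hd : 3 ≤ d) (g : T d → ℂ) (q : Fin 4 → ℂ)
    (h10 : g (idx 1 0 (by omega)) = 0) (h01 : g (idx 0 1 (by omega)) = 0) (t : T d) :
    g t = fr (SB d hd) (Sum.elim (fun t => g t.1) q) t +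
      (if t = idx 2 0 (by omega) then g (idx 2 0 (by omega)) else 0) +
      (if t = idx 3 0 (by omega) then g (idx 3 0 (by omega)) else 0) +
      (if t = idx 1 1 (by omega) then g (idx 1 1 (by omega)) else 0) := by
  unfold fr
  by_cases ht : t ∈ SB d hd
  · rw [dif_pos ht]
    simp only [SB, Finset.mem_insert, Finset.mem_singleton] at ht
    rcases ht with rfl | rfl | rfl | rfl | rfl <;>
      simp [idx_inj, h10, h01]
  · rw [dif_neg ht]
    simp only [SB, Finset.mem_insert, Finset.mem_singleton, not_or] at ht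
    obtain ⟨-, -, e1, e2, e3⟩ := ht
    simp [e1, e2, e3]

theorem lin_eq (d : ℕ) (hd : 3 ≤ d) (g : T d → ℂ) (q : Fin 4 → ℂ)
    (h10 : g (idx 1 0 (by omega)) = 0) (h01 : g (idx 0 1 (by omega)) = 0) (w : T d → ℂ) :
    lin w g = lin w (fr (SB d hd) (Sum.elim (fun t => g t.1) q)) +
      w (idx 2 0 (by omega)) * g (idx 2 0 (by omega)) +
      w (idx 3 0 (by omega)) * g (idx 3 0 (by omega)) +
      w (idx 1 1 (by omega)) * g (idx 1 1 (by omega)) := by
  unfold lin
  have h : ∀ t ∈ (Finset.univ : Finset (T d)), w t * g t =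
      w t * fr (SB d hd) (Sum.elim (fun t => g t.1) q) t +
      (if t = idx 2 0 (by omega) then w t * g (idx 2 0 (by omega)) else 0) +
      (if t = idx 3 0 (by omega) then w t * g (idx 3 0 (by omega)) else 0) +
      (if t = idx 1 1 (by omega) then w t * g (idx 1 1 (by omega)) else 0) := by
    intro t _
    conv_lhs => rw [fr_eq d hd g q h10 h01 t]
    split_ifs <;> ring
  rw [Finset.sum_congr rfl h, Finset.sum_add_distrib, Finset.sum_add_distrib,
    Finset.sum_add_distrib, Finset.sum_ite_eq', Finset.sum_ite_eq', Finset.sum_ite_eq']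
  simp

theorem w1_idx {d : ℕ} (a b : ℕ) (h : a + b ≤ d) :
    w1 (idx a b h) = if b = 0 then (if a = 0 then 0 else 1) else 0 := by
  unfold w1 c0
  simp only [idx_inj]
  show (if b = 0 then if a = 0 ∧ b = 0 then (0 : ℂ) else 1 else 0) = _
  by_cases hb : b = 0 <;> simp [hb]

theorem w2_idx {d : ℕ} (a b : ℕ) (h : a + b ≤ d) :
    w2 (idx a b h) = if b = 0 then (a : ℂ) else 0 := rfl

theorem w3_idx {d : ℕ} (a b : ℕ) (h : a + b ≤ d) :
    w3 (idx a b h) = if b = 1 then (1 : ℂ) else 0 := rfl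

theorem cB_eq (d : ℕ) (hd : 3 ≤ d) (g : T d → ℂ) (q : Fin 4 → ℂ)
    (h10 : g (idx 1 0 (by omega)) = 0) (h01 : g (idx 0 1 (by omega)) = 0)
    (h1 : lin w1 g = 0) (h2 : lin w2 g = 0) (h3 : lin w3 g = 0) (t : T d) :
    cB d hd t (Sum.elim (fun t => g t.1) q) = g t := by
  have e1 := lin_eq d hd g q h10 h01 w1
  have e2 := lin_eq d hd g q h10 h01 w2
  have e3 := lin_eq d hd g q h10 h01 w3
  rw [h1, w1_idx, w1_idx, w1_idx] at e1
  rw [h2, w2_idx, w2_idx, w2_idx] at e2
  rw [h3, w3_idx, w3_idx, w3_idx] at e3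
  norm_num at e1 e2 e3
  rw [fr_eq d hd g q h10 h01 t]
  unfold cB
  have f1 : -3 * lin w1 (fr (SB d hd) (Sum.elim (fun t => g t.1) q)) +
      lin w2 (fr (SB d hd) (Sum.elim (fun t => g t.1) q)) = g (idx 2 0 (by omega)) := by
    linear_combination (-3 : ℂ) * (-e1) + (-e2)
  have f2 : 2 * lin w1 (fr (SB d hd) (Sum.elim (fun t => g t.1) q)) +
      -1 * lin w2 (fr (SB d hd) (Sum.elim (fun t => g t.1) q)) = g (idx 3 0 (by omega)) := by
    linear_combination (2 : ℂ) * (-e1) - (-e2)
  have f3 : -1 * lin w3 (fr (SB d hd) (Sum.elim (fun t => g t.1) q)) =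
      g (idx 1 1 (by omega)) := by
    linear_combination e3
  rw [f1, f2, f3]

/-- Evaluation of the coefficients functional. -/
theorem lin_w1_eq {d : ℕ} (c : T d → ℂ) :
    lin w1 c = eval ![1, 0] (poly d c) - eval 0 (poly d c) := by
  have h0 : eval 0 (poly d c) = c (c0 d) := by
    rw [← coeff_zero_eq_eval, ← mT_c0 d, coeff_poly]
  rw [h0]
  unfold lin poly w1
  rw [map_sum]
  have h : ∀ t ∈ (Finset.univ : Finset (T d)), eval ![1, 0] (monomial (mT t) (c t)) =
      (if (t.2 : ℕ) = 0 then (if t = c0 d then 0 else 1) else 0) * c t +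
        (if t = c0 d then c t else 0) := by
    intro t _
    rw [eval_monomial, Finsupp.prod_fintype _ _ (fun _ => pow_zero _), Fin.prod_univ_two, mT_zero,
      mT_one]
    simp only [Matrix.cons_val_zero, Matrix.cons_val_one, one_pow, one_mul]
    by_cases h1 : t = c0 d
    · subst h1
      have : ((c0 d).2 : ℕ) = 0 := rfl
      simp [this]
    · by_cases h2 : (t.2 : ℕ) = 0
      · simp [h1, h2]
      · simp [h1, h2]
  rw [Finset.sum_congr rfl h, Finset.sum_add_distrib, Finset.sum_ite_eq']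
  simp

theorem lin_w2_eq {d : ℕ} (c : T d → ℂ) :
    lin w2 c = eval ![1, 0] (pderiv 0 (poly d c)) := by
  unfold lin poly w2
  rw [map_sum, map_sum]
  refine Finset.sum_congr rfl fun t _ => ?_
  rw [pderiv_monomial, eval_monomial, Finsupp.prod_fintype _ _ (fun _ => pow_zero _),
    Fin.prod_univ_two, mT_zero]
  simp only [Matrix.cons_val_zero, Matrix.cons_val_one, one_pow, one_mul, Finsupp.tsub_apply,
    mT_one]
  by_cases h2 : (t.2 : ℕ) = 0
  · simp [h2, mul_comm]
  · simp [h2]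

theorem lin_w3_eq {d : ℕ} (c : T d → ℂ) :
    lin w3 c = eval ![1, 0] (pderiv 1 (poly d c)) := by
  unfold lin poly w3
  rw [map_sum, map_sum]
  refine Finset.sum_congr rfl fun t _ => ?_
  rw [pderiv_monomial, eval_monomial, Finsupp.prod_fintype _ _ (fun _ => pow_zero _),
    Fin.prod_univ_two, mT_one]
  simp only [Matrix.cons_val_zero, Matrix.cons_val_one, one_pow, one_mul, Finsupp.tsub_apply,
    mT_one]
  rcases Nat.lt_trichotomy (t.2 : ℕ) 1 with h2 | h2 | h2
  · have h3 : (t.2 : ℕ) = 0 := by omega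
    simp [h3]
  · simp [h2]
  · have h3 : (t.2 : ℕ) ≠ 1 := by omega
    have h4 : (t.2 : ℕ) - 1 ≠ 0 := by omega
    simp [h3, h4]



/-- Two critical points on the same level with different first coordinates. -/
def TwoCrit (f : Poly) : Prop := ∃ p q : Fin 2 → ℂ, p 0 ≠ q 0 ∧
  eval p (pderiv 0 f) = 0 ∧ eval p (pderiv 1 f) = 0 ∧
  eval q (pderiv 0 f) = 0 ∧ eval q (pderiv 1 f) = 0 ∧ eval p f = eval q f

/-- The family containing these polynomials. -/
noncomputable def famB (d : ℕ) (hd : 3 ≤ d) (v : ({t : T d // t ∉ SB d hd} ⊕ Fin 4) → ℂ) : Poly :=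
  sub (C (v (Sum.inr 0)) + C (v (Sum.inr 1)) * X 0)
    (X 1 - C (v (Sum.inr 2)) - C (v (Sum.inr 3)) * X 0) (poly d (fun t => cB d hd t v))

theorem twoCrit_mem (d : ℕ) (hd : 3 ≤ d) (f : Poly) (hf : f.totalDegree ≤ d) (h : TwoCrit f) :
    ∃ v, f = famB d hd v := by
  obtain ⟨p, q, hpq, hpx, hpy, hqx, hqy, hval⟩ := h
  have hne : q 0 - p 0 ≠ 0 := sub_ne_zero.mpr (Ne.symm hpq)
  let A : Poly := C (p 0) + C (q 0 - p 0) * X 0
  let B : Poly := C (p 1) + C (q 1 - p 1) * X 0 + X 1
  let h := sub A B f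
  have hCX : ∀ c : ℂ, (C c * X 0 : Poly).totalDegree ≤ 1 := fun c =>
    (totalDegree_mul _ _).trans (by simp)
  have hA : A.totalDegree ≤ 1 := (totalDegree_add _ _).trans (max_le (by simp) (hCX _))
  have hB : B.totalDegree ≤ 1 := (totalDegree_add _ _).trans
    (max_le ((totalDegree_add _ _).trans (max_le (by simp) (hCX _))) (by simp))
  have hh : h.totalDegree ≤ d := totalDegree_sub hA hB hf
  have dA0 : pderiv 0 A = C (q 0 - p 0) := by
    simp [A]
  have dA1 : pderiv 1 A = 0 := by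
    simp [A, pderiv_X_of_ne (show (0 : Fin 2) ≠ 1 by decide)]
  have dB0 : pderiv 0 B = C (q 1 - p 1) := by
    simp [B, pderiv_X_of_ne (show (1 : Fin 2) ≠ 0 by decide)]
  have dB1 : pderiv 1 B = 1 := by
    simp [B, pderiv_X_of_ne (show (0 : Fin 2) ≠ 1 by decide)]
  have ev0 : ∀ r : Poly, eval 0 (sub A B r) = eval p r := by
    intro r
    rw [eval_sub']
    congr 2
    funext i
    fin_cases i <;> simp [A, B]
  have ev1 : ∀ r : Poly, eval ![1, 0] (sub A B r) = eval q r := by
    intro r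
    rw [eval_sub']
    congr 2
    funext i
    fin_cases i <;> simp [A, B]
  have hx0 : eval 0 (pderiv 0 h) = 0 := by
    show eval 0 (pderiv 0 (sub A B f)) = 0
    rw [pderiv_sub, map_add, map_mul, map_mul, ev0, ev0, hpx, hpy]; ring
  have hy0 : eval 0 (pderiv 1 h) = 0 := by
    show eval 0 (pderiv 1 (sub A B f)) = 0
    rw [pderiv_sub, map_add, map_mul, map_mul, ev0, ev0, hpx, hpy]; ring
  have hx1 : eval ![1, 0] (pderiv 0 h) = 0 := by
    show eval ![1, 0] (pderiv 0 (sub A B f)) = 0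
    rw [pderiv_sub, map_add, map_mul, map_mul, ev1, ev1, hqx, hqy]; ring
  have hy1 : eval ![1, 0] (pderiv 1 h) = 0 := by
    show eval ![1, 0] (pderiv 1 (sub A B f)) = 0
    rw [pderiv_sub, map_add, map_mul, map_mul, ev1, ev1, hqx, hqy]; ring
  have hlev : eval ![1, 0] h - eval 0 h = 0 := by
    show eval ![1, 0] (sub A B f) - eval 0 (sub A B f) = 0
    rw [ev0, ev1, hval, sub_self]
  obtain ⟨a1, ha1⟩ : ∃ a1 : ℂ, (q 0 - p 0) * a1 = 1 := ⟨_, mul_inv_cancel₀ hne⟩
  obtain ⟨a0, ha0⟩ : ∃ a0 : ℂ, a0 = -(p 0 * a1) := ⟨_, rfl⟩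
  obtain ⟨b0, hb0⟩ : ∃ b0 : ℂ, b0 = p 1 + (q 1 - p 1) * a0 := ⟨_, rfl⟩
  obtain ⟨b1, hb1⟩ : ∃ b1 : ℂ, b1 = (q 1 - p 1) * a1 := ⟨_, rfl⟩
  have hc : ∀ t, cB d hd t (Sum.elim (fun t => coeff (mT t.1) h) ![a0, a1, b0, b1]) =
      coeff (mT t) h := by
    intro t
    refine cB_eq d hd (fun t => coeff (mT t) h) ![a0, a1, b0, b1] ?_ ?_ ?_ ?_ ?_ t
    · show coeff (mT _) h = 0
      rw [mT_idx]
      have := coeff_x h
      rw [hx0] at this
      simpa using this
    · show coeff (mT _) h = 0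
      rw [mT_idx]
      have := coeff_y h
      rw [hy0] at this
      simpa using this
    · rw [lin_w1_eq, poly_coeff hh, hlev]
    · rw [lin_w2_eq, poly_coeff hh, hx1]
    · rw [lin_w3_eq, poly_coeff hh, hy1]
  refine ⟨Sum.elim (fun t => coeff (mT t.1) h) ![a0, a1, b0, b1], ?_⟩
  unfold famB
  simp only [hc, poly_coeff hh]
  show f = sub (C a0 + C a1 * X 0) (X 1 - C b0 - C b1 * X 0) (sub A B f)
  rw [sub_sub]
  have hA' : sub (C a0 + C a1 * X 0) (X 1 - C b0 - C b1 * X 0) A = X 0 := by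
    show sub _ _ (C (p 0) + C (q 0 - p 0) * X 0) = X 0
    rw [map_add, map_mul, sub_X_zero, sub_C, sub_C]
    have e1 : p 0 + (q 0 - p 0) * a0 = 0 := by
      rw [ha0]
      linear_combination (-(p 0)) * ha1
    have e3 : (C (p 0) + C (q 0 - p 0) * (C a0 + C a1 * X 0) : Poly) =
        C (p 0 + (q 0 - p 0) * a0) + C ((q 0 - p 0) * a1) * X 0 := by
      simp only [C_add, C_mul]; ring
    rw [e3, e1, ha1]; simp
  have hB' : sub (C a0 + C a1 * X 0) (X 1 - C b0 - C b1 * X 0) B = X 1 := by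
    show sub _ _ (C (p 1) + C (q 1 - p 1) * X 0 + X 1) = X 1
    rw [map_add, map_add, map_mul, sub_X_zero, sub_X_one, sub_C, sub_C]
    rw [hb0, hb1, C_add, C_mul, C_mul]
    ring
  rw [hA', hB', sub_id]

theorem polyFam_famB (d : ℕ) (hd : 3 ≤ d) : PolyFam (famB d hd) :=
  polyFam_sub ((PolyFam.C (PolyMap.coord _)).add
      ((PolyFam.C (PolyMap.coord _)).mul (PolyFam.const _)))
    (((PolyFam.const _).sub (PolyFam.C (PolyMap.coord _))).sub
      ((PolyFam.C (PolyMap.coord _)).mul (PolyFam.const _))) (polyMap_cB d hd)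

theorem polyFam_famB' (d : ℕ) (hd : 3 ≤ d) :
    PolyFam (fun v => sub (X 1) (X 0) (famB d hd v)) := by
  unfold famB
  simp only [sub_sub, map_add, map_mul, map_sub, sub_C, sub_X_zero, sub_X_one]
  exact polyFam_sub ((PolyFam.C (PolyMap.coord _)).add
      ((PolyFam.C (PolyMap.coord _)).mul (PolyFam.const _)))
    (((PolyFam.const _).sub (PolyFam.C (PolyMap.coord _))).sub
      ((PolyFam.C (PolyMap.coord _)).mul (PolyFam.const _))) (polyMap_cB d hd)

theorem gen_distinct (d : ℕ) (hd : 3 ≤ d) : Gen d (fun f => ∀ p q : Fin 2 → ℂ,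
    eval p (pderiv 0 f) = 0 → eval p (pderiv 1 f) = 0 →
    eval q (pderiv 0 f) = 0 → eval q (pderiv 1 f) = 0 → eval p f = eval q f → p = q) := by
  refine ((Gen.not_mem_family _ (polyFam_famB d hd) (card_param _ (card_SB d hd))).and
    (Gen.not_mem_family _ (polyFam_famB' d hd) (card_param _ (card_SB d hd)))).mono ?_
  rintro f hf ⟨h1, h2⟩ p q hpx hpy hqx hqy hval
  by_contra hne
  have hcase : p 0 ≠ q 0 ∨ p 1 ≠ q 1 := by
    by_contra hall
    push Not at hall
    apply hne
    funext i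
    fin_cases i
    · exact hall.1
    · exact hall.2
  rcases hcase with h | h
  · exact h1 (twoCrit_mem d hd f hf ⟨p, q, h, hpx, hpy, hqx, hqy, hval⟩)
  · apply h2
    have ev : ∀ (u : Fin 2 → ℂ) (r : Poly), eval ![u 1, u 0] (sub (X 1) (X 0) r) = eval u r := by
      intro u r
      rw [eval_sub']
      congr 2
      funext i
      fin_cases i <;> simp
    have hd0 : pderiv 0 (sub (X 1) (X 0) f) = sub (X 1) (X 0) (pderiv 1 f) := by
      rw [pderiv_sub]
      simp [pderiv_X_of_ne (show (1 : Fin 2) ≠ 0 by decide)]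
    have hd1 : pderiv 1 (sub (X 1) (X 0) f) = sub (X 1) (X 0) (pderiv 0 f) := by
      rw [pderiv_sub]
      simp [pderiv_X_of_ne (show (0 : Fin 2) ≠ 1 by decide)]
    have hdeg : (sub (X 1) (X 0) f).totalDegree ≤ d := totalDegree_sub (by simp) (by simp) hf
    obtain ⟨v, hv⟩ := twoCrit_mem d hd (sub (X 1) (X 0) f) hdeg
      ⟨![p 1, p 0], ![q 1, q 0], h, by rw [hd0, ev, hpy], by rw [hd1, ev, hpx],
        by rw [hd0, ev, hqy], by rw [hd1, ev, hqx], by rw [ev, ev, hval]⟩
    refine ⟨v, ?_⟩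
    rw [← hv, sub_sub, sub_X_zero, sub_X_one, sub_id]



/-! ## The Zariski topology is Noetherian -/

/-- The finitely many coordinates that matter for forms of degree at most `d`. -/
abbrev V (d : ℕ) : Type := Fin 2 × T d

/-- Removal of the other coordinates. -/
noncomputable def rho (d : ℕ) : PolyFun →ₐ[ℂ] MvPolynomial (V d) ℂ :=
  aeval fun k => if h : k.2 0 + k.2 1 ≤ d then X (k.1, idx (k.2 0) (k.2 1) h) else 0

/-- The coordinates as a function on `V d`. -/
noncomputable def coordV {d : ℕ} (ω : forms d) : V d → ℂ :=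
  fun k => coord (ω : Form) (k.1, mT k.2)

theorem eval_rho {d : ℕ} (ω : forms d) (Φ : PolyFun) :
    eval (coordV ω) (rho d Φ) = eval (coord (ω : Form)) Φ := by
  unfold rho
  rw [eval_aeval_eq]
  congr 2
  funext k
  obtain ⟨i, m⟩ := k
  by_cases h : m 0 + m 1 ≤ d
  · simp only [h, dif_pos, eval_X]
    unfold coordV
    have hm : mT (idx (m 0) (m 1) h) = m := by
      rw [mT_idx, finsupp_eq_iff]; simp
    show coord (ω : Form) (i, mT (idx (m 0) (m 1) h)) = coord (ω : Form) (i, m)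
    rw [hm]
  · simp only [h, dif_neg, not_false_eq_true, map_zero]
    have h1 : ∀ f : Poly, f ∈ restrictTotalDegree (Fin 2) ℂ d → coeff m f = 0 := by
      intro f hf
      by_contra hne
      rw [mem_restrictTotalDegree] at hf
      exact h ((sum_le_totalDegree hne).trans hf)
    unfold coord
    split_ifs
    · exact (h1 _ ω.2.1).symm
    · exact (h1 _ ω.2.2).symm

/-- The ideal of a set of points. -/
noncomputable def idealOf {d : ℕ} (Z : Set (Fol d)) : Ideal (MvPolynomial (V d) ℂ) where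
  carrier := {Ψ | ∀ x ∈ Z, eval (coordV x.rep) Ψ = 0}
  add_mem' := by
    intro a b ha hb x hx
    rw [map_add, ha x hx, hb x hx, add_zero]
  zero_mem' := by
    intro x _
    rw [map_zero]
  smul_mem' := by
    intro c a ha x hx
    rw [smul_eq_mul, map_mul, ha x hx, mul_zero]

theorem idealOf_anti {d : ℕ} {Z W : Set (Fol d)} (h : Z ⊆ W) : idealOf W ≤ idealOf Z :=
  fun _ hΨ x hx => hΨ x (h hx)

theorem subset_of_idealOf_le {d : ℕ} {Z W : Set (Fol d)} (hW : IsAlgebraic W)
    (h : idealOf W ≤ idealOf Z) : Z ⊆ W := by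
  obtain ⟨S, hS, rfl⟩ := hW
  intro x hx Φ hΦ
  have h1 : rho d Φ ∈ idealOf (zeroLocus d S) := by
    intro y hy
    rw [eval_rho]
    exact hy Φ hΦ
  have h2 := h h1 x hx
  rwa [eval_rho] at h2

theorem isAlgebraic_inter {d : ℕ} {Z W : Set (Fol d)} (hZ : IsAlgebraic Z) (hW : IsAlgebraic W) :
    IsAlgebraic (Z ∩ W) := by
  obtain ⟨S, hS, rfl⟩ := hZ
  obtain ⟨S', hS', rfl⟩ := hW
  refine ⟨S ∪ S', ?_, ?_⟩
  · rintro Φ (hΦ | hΦ)
    · exact hS Φ hΦ
    · exact hS' Φ hΦ
  · ext x
    constructor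
    · rintro ⟨h1, h2⟩ Φ (hΦ | hΦ)
      · exact h1 Φ hΦ
      · exact h2 Φ hΦ
    · intro h
      exact ⟨fun Φ hΦ => h Φ (Or.inl hΦ), fun Φ hΦ => h Φ (Or.inr hΦ)⟩

theorem isAlgebraic_union {d : ℕ} {Z W : Set (Fol d)} (hZ : IsAlgebraic Z) (hW : IsAlgebraic W) :
    IsAlgebraic (Z ∪ W) := by
  obtain ⟨S, hS, rfl⟩ := hZ
  obtain ⟨S', hS', rfl⟩ := hW
  refine ⟨{Φ | ∃ Φ₁ ∈ S, ∃ Φ₂ ∈ S', Φ = Φ₁ * Φ₂}, ?_, ?_⟩
  · rintro Φ ⟨Φ₁, h₁, Φ₂, h₂, rfl⟩
    obtain ⟨n, hn⟩ := hS Φ₁ h₁
    obtain ⟨m, hm⟩ := hS' Φ₂ h₂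
    exact ⟨n + m, hn.mul hm⟩
  · ext x
    constructor
    · rintro (h | h) Φ ⟨Φ₁, h₁, Φ₂, h₂, rfl⟩
      · rw [map_mul, h Φ₁ h₁, zero_mul]
      · rw [map_mul, h Φ₂ h₂, mul_zero]
    · intro h
      by_contra hne
      rw [Set.mem_union, not_or] at hne
      obtain ⟨h1, h2⟩ := hne
      have h1' : ¬ ∀ Φ ∈ S, eval (coord (x.rep : Form)) Φ = 0 := h1
      have h2' : ¬ ∀ Φ ∈ S', eval (coord (x.rep : Form)) Φ = 0 := h2
      push Not at h1' h2'
      obtain ⟨Φ₁, h₁, h₁'⟩ := h1'
      obtain ⟨Φ₂, h₂, h₂'⟩ := h2'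
      have h3 := h (Φ₁ * Φ₂) ⟨Φ₁, h₁, Φ₂, h₂, rfl⟩
      rw [map_mul] at h3
      exact (mul_ne_zero h₁' h₂') h3

theorem isAlgebraic_empty (d : ℕ) : IsAlgebraic (∅ : Set (Fol d)) := by
  refine ⟨{1}, ?_, ?_⟩
  · intro Φ hΦ
    rw [Set.mem_singleton_iff.mp hΦ]
    exact ⟨0, isHomogeneous_one _ _⟩
  · ext x
    constructor
    · intro h
      exact absurd h (Set.notMem_empty x)
    · intro h
      have := h 1 rfl
      simp at this

/-- Every Zariski closed set is a finite union of irreducible ones. -/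
theorem exists_decomposition {d : ℕ} (Z : Set (Fol d)) (hZ : IsAlgebraic Z) :
    ∃ 𝒲 : Set (Set (Fol d)), 𝒲.Finite ∧ (∀ W ∈ 𝒲, IsIrreducibleAlgebraic W) ∧ Z = ⋃₀ 𝒲 := by
  have hwf : WellFounded (fun I J : Ideal (MvPolynomial (V d) ℂ) => J < I) :=
    (inferInstance : WellFoundedGT (Ideal (MvPolynomial (V d) ℂ))).wf
  induction hI : idealOf Z using hwf.induction generalizing Z with
  | _ I ih =>
    subst hI
    by_cases hne : Z.Nonempty
    · by_cases hirr : IsIrreducibleAlgebraic Z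
      · exact ⟨{Z}, Set.finite_singleton Z, by
          intro W hW
          rw [Set.mem_singleton_iff.mp hW]
          exact hirr, by simp⟩
      · have h1 : ¬ ∀ Z₁ Z₂ : Set (Fol d), IsAlgebraic Z₁ → IsAlgebraic Z₂ → Z ⊆ Z₁ ∪ Z₂ →
            Z ⊆ Z₁ ∨ Z ⊆ Z₂ := fun h => hirr ⟨hZ, hne, h⟩
        push Not at h1
        obtain ⟨Z₁, Z₂, hZ₁, hZ₂, hsub, hn₁, hn₂⟩ := h1
        have key : ∀ W : Set (Fol d), IsAlgebraic W → ¬ Z ⊆ W → idealOf Z < idealOf (Z ∩ W) := by
          intro W hW hn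
          refine lt_of_le_of_ne (idealOf_anti Set.inter_subset_left) fun heq => ?_
          have h2 : Z ⊆ Z ∩ W := subset_of_idealOf_le (isAlgebraic_inter hZ hW) heq.ge
          exact hn fun x hx => (h2 hx).2
        obtain ⟨𝒲₁, hf₁, hi₁, he₁⟩ := ih _ (key Z₁ hZ₁ hn₁) (Z ∩ Z₁) (isAlgebraic_inter hZ hZ₁) rfl
        obtain ⟨𝒲₂, hf₂, hi₂, he₂⟩ := ih _ (key Z₂ hZ₂ hn₂) (Z ∩ Z₂) (isAlgebraic_inter hZ hZ₂) rfl
        refine ⟨𝒲₁ ∪ 𝒲₂, hf₁.union hf₂, ?_, ?_⟩
        · rintro W (hW | hW)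
          · exact hi₁ W hW
          · exact hi₂ W hW
        · rw [Set.sUnion_union, ← he₁, ← he₂, ← Set.inter_union_distrib_left]
          exact (Set.inter_eq_left.mpr hsub).symm
    · rw [Set.not_nonempty_iff_eq_empty] at hne
      exact ⟨∅, Set.finite_empty, by simp, by simp [hne]⟩

theorem isAlgebraic_sUnion {d : ℕ} {𝒲 : Set (Set (Fol d))} (hfin : 𝒲.Finite)
    (h : ∀ W ∈ 𝒲, IsAlgebraic W) : IsAlgebraic (⋃₀ 𝒲) := by
  induction 𝒲, hfin using Set.Finite.induction_on with
  | empty => simpa using isAlgebraic_empty d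
  | @insert W 𝒲 _ _ ih =>
    rw [Set.sUnion_insert]
    exact isAlgebraic_union (h W (Set.mem_insert W 𝒲))
      (ih fun W' hW' => h W' (Set.mem_insert_of_mem W hW'))

theorem subset_member {d : ℕ} {Z : Set (Fol d)} (hZ : IsIrreducibleAlgebraic Z)
    {𝒲 : Set (Set (Fol d))} (hfin : 𝒲.Finite) (h : ∀ W ∈ 𝒲, IsAlgebraic W) (hsub : Z ⊆ ⋃₀ 𝒲) :
    ∃ W ∈ 𝒲, Z ⊆ W := by
  induction 𝒲, hfin using Set.Finite.induction_on with
  | empty =>
    obtain ⟨x, hx⟩ := hZ.2.1
    have := hsub hx
    simp at this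
  | @insert W 𝒲 _ hfin ih =>
    rw [Set.sUnion_insert] at hsub
    have hal : ∀ W' ∈ 𝒲, IsAlgebraic W' := fun W' hW' => h W' (Set.mem_insert_of_mem W hW')
    rcases hZ.2.2 W (⋃₀ 𝒲) (h W (Set.mem_insert W 𝒲)) (isAlgebraic_sUnion hfin hal) hsub with
      h1 | h1
    · exact ⟨W, Set.mem_insert W 𝒲, h1⟩
    · obtain ⟨W', hW', h2⟩ := ih hal h1
      exact ⟨W', Set.mem_insert_of_mem W hW', h2⟩

/-- A Zariski closed set has finitely many irreducible components. -/
theorem finite_components {d : ℕ} (M : Set (Fol d)) (hM : IsAlgebraic M) :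
    {Z | IsComponent M Z}.Finite := by
  obtain ⟨𝒲, hfin, hirr, rfl⟩ := exists_decomposition M hM
  refine hfin.subset ?_
  intro Z hZ
  obtain ⟨W, hW, hsub⟩ := subset_member hZ.2.1 hfin (fun W hW => (hirr W hW).1) hZ.1
  have h1 := hZ.2.2 W (hirr W hW) hsub (Set.subset_sUnion_of_mem hW)
  rw [← h1]
  exact hW



/-! ## Closed sets and generic polynomials -/

theorem diff_mem_forms {d : ℕ} {f : Poly} (hf : f.totalDegree ≤ d) : diff f ∈ forms d := by
  refine ⟨?_, ?_⟩
  · show pderiv 0 f ∈ restrictTotalDegree (Fin 2) ℂ d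
    rw [mem_restrictTotalDegree]
    exact (totalDegree_pderiv_le 0 f).trans (by omega)
  · show pderiv 1 f ∈ restrictTotalDegree (Fin 2) ℂ d
    rw [mem_restrictTotalDegree]
    exact (totalDegree_pderiv_le 1 f).trans (by omega)

theorem polyMap_coord_diff {d : ℕ} (k : Fin 2 × (Fin 2 →₀ ℕ)) :
    PolyMap (fun u : T d → ℂ => coord (diff (poly d u)) k) := by
  have h : PolyFam (fun u : T d → ℂ => poly d u) :=
    polyFam_poly (fun t u => u t) (fun t => PolyMap.coord t)
  unfold coord diff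
  split_ifs
  · exact (h.pderiv 0) _
  · exact (h.pderiv 1) _

/-- If a closed set does not contain some `F(dg)`, `deg g ≤ d`, it does not contain the generic
`F(df)`. -/
theorem gen_closed {d : ℕ} {W : Set (Fol d)} (hW : IsAlgebraic W) {g : Poly}
    (hg : g.totalDegree ≤ d) (hne : diff g ≠ 0) (hnot : ¬ Passes W g) :
    Gen d (fun f => ¬ Passes W f) := by
  obtain ⟨S, hS, rfl⟩ := hW
  obtain ⟨Φ, hΦ, hval⟩ : ∃ Φ ∈ S, eval (coord (diff g)) Φ ≠ 0 := by
    by_contra hall
    push Not at hall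
    apply hnot
    refine ⟨⟨diff g, diff_mem_forms hg⟩, fun h => hne (congrArg Subtype.val h), rfl, ?_⟩
    rw [mk_mem_zeroLocus S hS]
    exact hall
  obtain ⟨Θ, hΘ0⟩ := PolyMap.comp (fun k => polyMap_coord_diff (d := d) k) Φ
  have hΘ : ∀ u : T d → ℂ, eval (fun k => coord (diff (poly d u)) k) Φ = eval u Θ := hΘ0
  refine ⟨Θ, ?_, ?_⟩
  · rintro rfl
    have h1 := hΘ (fun t => coeff (mT t) g)
    rw [map_zero, poly_coeff hg] at h1
    exact hval h1
  · rintro f hf hne' ⟨ω, h, hω, hmem⟩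
    rw [mk_mem_zeroLocus S hS] at hmem
    apply hne'
    rw [← hΘ, poly_coeff hf, ← hω]
    exact hmem Φ hΦ

/-- The components through the generic `F(df)` are those containing all `F(dg)`, `deg g ≤ d`. -/
theorem gen_components {d : ℕ} (M : Set (Fol d)) (hM : IsAlgebraic M) :
    Gen d (fun f => ∀ Z, IsComponent M Z → Passes Z f →
      ∀ g : Poly, g.totalDegree ≤ d → g.totalDegree ≠ 0 → Passes Z g) := by
  have hfin := finite_components M hM
  have : Fintype {Z | IsComponent M Z} := hfin.fintype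
  have h1 : Gen d (fun f => ∀ Z : {Z | IsComponent M Z}, Passes Z.1 f →
      ∀ g : Poly, g.totalDegree ≤ d → g.totalDegree ≠ 0 → Passes Z.1 g) := by
    apply Gen.forall
    rintro ⟨Z, hZ⟩
    by_cases hall : ∀ g : Poly, g.totalDegree ≤ d → g.totalDegree ≠ 0 → Passes Z g
    · exact Gen.true fun _ _ => hall
    · push Not at hall
      obtain ⟨g, hg, hg0, hnot⟩ := hall
      exact (gen_closed hZ.2.1.1 hg (diff_ne_zero hg0) hnot).mono
        fun f _ hf hpass => absurd hpass hf
  exact h1.mono fun f _ hf Z hZ => hf ⟨Z, hZ⟩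

theorem gen_of_relation (d : ℕ) (Xs : Set Form) (Ψ : MvPolynomial (K d) ℂ) (h0 : Ψ ≠ 0) (n : ℕ)
    (hn : Ψ.IsHomogeneous n)
    (hX : ∀ ω ∈ Xs, eval (fun t : K d => coord ω (kap t.1)) Ψ = 0) :
    Gen d (fun f => ¬ Passes (zariskiClosure {x : Fol d | ∃ (ω : forms d) (h : ω ≠ 0),
      (ω : Form) ∈ Xs ∧ x = Projectivization.mk ℂ ω h}) f) := by
  have hev : ∀ u : K d → ℂ, eval u (aeval (fun t : K d => C (wt t.1) * X t) Ψ) =
      eval (fun t => wt t.1 * u t) Ψ := by
    intro u
    rw [eval_aeval_eq]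
    simp
  refine Gen.of_K (aeval (fun t : K d => C (wt t.1) * X t) Ψ) ?_ ?_
  · intro hz
    apply h0
    apply MvPolynomial.funext
    intro u
    have h1 := hev (fun t => (wt t.1)⁻¹ * u t)
    rw [hz] at h1
    rw [map_zero]
    have h2 : (fun t : K d => wt t.1 * ((wt t.1)⁻¹ * u t)) = u := by
      funext t
      rw [← mul_assoc, mul_inv_cancel₀ (wt_ne_zero t), one_mul]
    rw [h2] at h1
    simpa using h1.symm
  · rintro f hf ⟨ω, h, hω, hmem⟩
    have hS : ∀ Φ ∈ ({rename (fun t : K d => kap t.1) Ψ} : Set PolyFun),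
        ∃ m : ℕ, Φ.IsHomogeneous m := by
      intro Φ hΦ
      rw [Set.mem_singleton_iff.mp hΦ]
      exact ⟨n, hn.rename_isHomogeneous⟩
    have hsub := zariskiClosure_subset (Z := {x : Fol d | ∃ (ω : forms d) (h : ω ≠ 0),
      (ω : Form) ∈ Xs ∧ x = Projectivization.mk ℂ ω h})
      (W := Center.zeroLocus d {rename (fun t : K d => kap t.1) Ψ})
      ⟨_, hS, rfl⟩ (by
        rintro x ⟨ω', h', hω', rfl⟩
        rw [mk_mem_zeroLocus _ hS]
        intro Φ hΦ
        rw [Set.mem_singleton_iff.mp hΦ, eval_rename]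
        exact hX _ hω')
    have h1 := hsub hmem
    rw [mk_mem_zeroLocus _ hS] at h1
    have h2 := h1 _ rfl
    rw [eval_rename, hω] at h2
    apply hf
    rw [hev]
    have h3 : (coord (diff f) ∘ fun t : K d => kap t.1) =
        fun t : K d => wt t.1 * coeff (mT t.1) f := by
      funext t
      exact coord_diff_kap t f
    rwa [h3] at h2

/-- The foliations given by the members of a family of 1-forms `G v`. -/
def paramFamily (d : ℕ) {N : ℕ} (G : (Fin N → ℂ) → Form) : Set (Fol d) :=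
  {x | ∃ (v : Fin N → ℂ) (ω : forms d) (h : ω ≠ 0), (ω : Form) = G v ∧
    x = Projectivization.mk ℂ ω h}

theorem PolyMap.precomp {σ σ' : Type} {g : (σ → ℂ) → ℂ} (hg : PolyMap g) (φ : σ → σ') :
    PolyMap (fun v : σ' → ℂ => g (fun i => v (φ i))) := by
  obtain ⟨P, hP⟩ := hg
  refine ⟨rename φ P, fun v => ?_⟩
  show g (fun i => v (φ i)) = _
  rw [hP, eval_rename]
  rfl

/-- The dimension bound. -/
theorem gen_paramFamily (d : ℕ) {N : ℕ} (G : (Fin N → ℂ) → Form)
    (hG : ∀ k, ∃ P : MvPolynomial (Fin N) ℂ, ∀ v, coord (G v) k = eval v P)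
    (hN : 2 * (N + 1) < d * (d + 3)) :
    Gen d (fun f => ¬ Passes (zariskiClosure (paramFamily d G)) f) := by
  have hcard : Fintype.card (Fin N ⊕ Fin 1) < Fintype.card (K d) := by
    rw [Fintype.card_sum, Fintype.card_fin, Fintype.card_fin, card_K]
    have e2 := card_T d
    have e3 : (d + 1) * (d + 2) = d * (d + 3) + 2 := by ring
    omega
  have hP : ∀ t : K d, PolyMap (fun v : (Fin N ⊕ Fin 1) → ℂ =>
      v (Sum.inr 0) * coord (G (fun i => v (Sum.inl i))) (kap t.1)) := fun t =>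
    (PolyMap.coord _).mul (PolyMap.precomp (g := fun v => coord (G v) (kap t.1)) (hG _) Sum.inl)
  choose P hP using hP
  obtain ⟨Ψ0, hΨ0, hrel⟩ := exists_relation hcard P
  obtain ⟨n, hn⟩ : ∃ n, homogeneousComponent n Ψ0 ≠ 0 := by
    by_contra hall
    push Not at hall
    apply hΨ0
    rw [← sum_homogeneousComponent Ψ0]
    exact Finset.sum_eq_zero fun m _ => hall m
  refine (gen_of_relation d {ω | ∃ v, ω = G v} (homogeneousComponent n Ψ0) hn n
    (homogeneousComponent_isHomogeneous n Ψ0) ?_).mono ?_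
  · rintro ω ⟨v, rfl⟩
    apply eval_homogeneousComponent_eq_zero
    intro a
    have h1 : (fun t : K d => a * coord (G v) (kap t.1)) =
        fun t => eval (Sum.elim v (fun _ => a)) (P t) := by
      funext t
      rw [← hP]
      rfl
    rw [h1, ← eval_aeval_eq, hrel, map_zero]
  · rintro f hf hnot hpass
    apply hnot
    refine hpass.mono (zariskiClosure_mono ?_)
    rintro x ⟨v, ω, h, hω, rfl⟩
    exact ⟨ω, h, ⟨v, hω⟩, rfl⟩

/-! ## Irreducibility of the logarithmic families -/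

theorem irreducible_logFamily (d : ℕ) {s : ℕ} (D : Fin s → ℕ) (hne : (logFamily d D).Nonempty)
    (hsum : ∑ j, D j ≤ d + 1) :
    IsIrreducibleAlgebraic (zariskiClosure (logFamily d D)) := by
  refine ⟨isAlgebraic_zariskiClosure _, hne.mono (subset_zariskiClosure _), ?_⟩
  rintro Z₁ Z₂ hZ₁ hZ₂ hsub
  by_contra hcon
  rw [not_or] at hcon
  have key : ∀ Z : Set (Fol d), IsAlgebraic Z → ¬ zariskiClosure (logFamily d D) ⊆ Z →
      ∃ Φ : PolyFun, (∀ (ω : forms d) (h : ω ≠ 0), Projectivization.mk ℂ ω h ∈ Z →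
        eval (coord (ω : Form)) Φ = 0) ∧
        ∃ (f : Fin s → Poly) (lam : Fin s → ℂ), (∀ j, (f j).totalDegree ≤ D j) ∧
          logForm f lam ≠ 0 ∧ eval (coord (logForm f lam)) Φ ≠ 0 := by
    intro Z hZ hn
    have h1 : ¬ logFamily d D ⊆ Z := fun h => hn (zariskiClosure_subset hZ h)
    obtain ⟨S, hS, rfl⟩ := hZ
    rw [Set.not_subset] at h1
    obtain ⟨x, ⟨f, lam, hf, ω, h, hω, rfl⟩, hx⟩ := h1
    rw [mk_mem_zeroLocus S hS] at hx
    push Not at hx
    obtain ⟨Φ, hΦ, hval⟩ := hx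
    refine ⟨Φ, ?_, f, lam, hf, ?_, ?_⟩
    · intro ω' h' hmem
      rw [mk_mem_zeroLocus S hS] at hmem
      exact hmem Φ hΦ
    · rw [← hω]
      intro h0
      exact h (Subtype.ext h0)
    · rw [← hω]
      exact hval
  obtain ⟨Φ₁, hz₁, f₁, lam₁, hf₁, hne₁, hv₁⟩ := key Z₁ hZ₁ hcon.1
  obtain ⟨Φ₂, hz₂, f₂, lam₂, hf₂, hne₂, hv₂⟩ := key Z₂ hZ₂ hcon.2
  -- the polynomial parametrization
  let g : Fin s → (((Σ j, T (D j)) ⊕ Fin s) → ℂ) → Poly := fun j v =>
    poly (D j) (fun t => v (Sum.inl ⟨j, t⟩))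
  have hg : ∀ j, PolyFam (g j) := fun j => polyFam_poly _ fun t => PolyMap.coord _
  have hc : ∀ k, PolyMap (fun v => coord (logForm (fun j => g j v) (fun j => v (Sum.inr j))) k) :=
    fun k => polyMap_coord_logForm g (fun j v => v (Sum.inr j)) hg (fun j => PolyMap.coord _) k
  have hpar : ∀ (f : Fin s → Poly) (lam : Fin s → ℂ), (∀ j, (f j).totalDegree ≤ D j) →
      ∃ v : ((Σ j, T (D j)) ⊕ Fin s) → ℂ,
        logForm (fun j => g j v) (fun j => v (Sum.inr j)) = logForm f lam := by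
    intro f lam hf
    refine ⟨Sum.elim (fun x => coeff (mT x.2) (f x.1)) lam, ?_⟩
    have h10 : ∀ j, g j (Sum.elim (fun x => coeff (mT x.2) (f x.1)) lam) = f j := fun j => by
      show poly (D j) (fun t => coeff (mT t) (f j)) = f j
      exact poly_coeff (hf j)
    simp only [h10]
    rfl
  obtain ⟨k, hk⟩ : ∃ k, coord (logForm f₁ lam₁) k ≠ 0 := by
    by_contra hall
    push Not at hall
    apply hne₁
    apply Prod.ext
    · ext m
      have := hall (0, m)
      simpa [coord] using this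
    · ext m
      have := hall (1, m)
      simpa [coord] using this
  obtain ⟨P, hP0⟩ := hc k
  obtain ⟨Q₁, hQ10⟩ := PolyMap.comp hc Φ₁
  obtain ⟨Q₂, hQ20⟩ := PolyMap.comp hc Φ₂
  have hP : ∀ v, coord (logForm (fun j => g j v) (fun j => v (Sum.inr j))) k = eval v P := hP0
  have hQ₁ : ∀ v, eval (coord (logForm (fun j => g j v) (fun j => v (Sum.inr j)))) Φ₁ =
      eval v Q₁ := hQ10
  have hQ₂ : ∀ v, eval (coord (logForm (fun j => g j v) (fun j => v (Sum.inr j)))) Φ₂ =
      eval v Q₂ := hQ20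
  obtain ⟨v₁, hv₁'⟩ := hpar f₁ lam₁ hf₁
  obtain ⟨v₂, hv₂'⟩ := hpar f₂ lam₂ hf₂
  have n0 : P ≠ 0 := by
    rintro rfl
    apply hk
    have := hP v₁
    rw [hv₁', map_zero] at this
    exact this
  have n1 : Q₁ ≠ 0 := by
    rintro rfl
    apply hv₁
    have := hQ₁ v₁
    rw [hv₁', map_zero] at this
    exact this
  have n2 : Q₂ ≠ 0 := by
    rintro rfl
    apply hv₂
    have := hQ₂ v₂
    rw [hv₂', map_zero] at this
    exact this
  obtain ⟨v, hv⟩ : ∃ v, eval v (P * Q₁ * Q₂) ≠ 0 := by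
    by_contra hall
    push Not at hall
    exact (mul_ne_zero (mul_ne_zero n0 n1) n2)
      (MvPolynomial.funext fun u => by rw [hall u, map_zero])
  rw [map_mul, map_mul] at hv
  have e2 := right_ne_zero_of_mul hv
  have e1 := right_ne_zero_of_mul (left_ne_zero_of_mul hv)
  have e0 := left_ne_zero_of_mul (left_ne_zero_of_mul hv)
  rw [← hP] at e0
  rw [← hQ₁] at e1
  rw [← hQ₂] at e2
  have hdeg : ∀ j, (g j v).totalDegree ≤ D j := fun j => totalDegree_poly _
  have hmem := logForm_mem_forms (fun j => g j v) (fun j => v (Sum.inr j)) D hdeg hsum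
  obtain ⟨ω, hω0⟩ : ∃ ω : forms d, (ω : Form) =
      logForm (fun j => g j v) (fun j => v (Sum.inr j)) := ⟨⟨_, hmem⟩, rfl⟩
  have hω : ω ≠ 0 := by
    intro h0
    have h1 : logForm (fun j => g j v) (fun j => v (Sum.inr j)) = 0 := by
      rw [← hω0, h0]; rfl
    apply e0
    rw [h1]
    unfold coord
    split_ifs <;> simp
  have hin0 : Projectivization.mk ℂ ω hω ∈ logFamily d D :=
    ⟨fun j => g j v, fun j => v (Sum.inr j), hdeg, ω, hω, hω0, rfl⟩
  have hin : Projectivization.mk ℂ ω hω ∈ Z₁ ∪ Z₂ :=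
    hsub (subset_zariskiClosure _ hin0)
  rcases hin with h | h
  · apply e1
    rw [← hω0]
    exact hz₁ ω hω h
  · apply e2
    rw [← hω0]
    exact hz₂ ω hω h



/-! ## Special polynomials -/

/-- A quadratic curve version of the line argument. -/
theorem eval_eq_zero_of_curve (Φ : PolyFun) (ω η₁ η₂ : Form) (s : Set ℂ) (hs : s.Finite)
    (h : ∀ t : ℂ, t ∉ s → eval (coord (ω + t • η₁ + (t ^ 2) • η₂)) Φ = 0) :
    eval (coord ω) Φ = 0 := by
  let P : Polynomial ℂ :=
    aeval (fun k => Polynomial.C (coord ω k) + Polynomial.X * Polynomial.C (coord η₁ k) +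
      Polynomial.X ^ 2 * Polynomial.C (coord η₂ k)) Φ
  have hP : ∀ t : ℂ, P.eval t = eval (coord (ω + t • η₁ + (t ^ 2) • η₂)) Φ := by
    intro t
    have h1 : P.eval t = (Polynomial.evalRingHom t).comp
        (aeval (fun k => Polynomial.C (coord ω k) + Polynomial.X * Polynomial.C (coord η₁ k) +
          Polynomial.X ^ 2 * Polynomial.C (coord η₂ k)) :
          PolyFun →ₐ[ℂ] Polynomial ℂ).toRingHom Φ := rfl
    rw [h1]
    have h2 : (Polynomial.evalRingHom t).comp
        (aeval (fun k => Polynomial.C (coord ω k) + Polynomial.X * Polynomial.C (coord η₁ k) +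
          Polynomial.X ^ 2 * Polynomial.C (coord η₂ k)) :
          PolyFun →ₐ[ℂ] Polynomial ℂ).toRingHom =
        eval (coord (ω + t • η₁ + (t ^ 2) • η₂)) := by
      apply ringHom_ext
      · intro r; simp
      · intro k
        simp [coord_add_smul]
        ring
    rw [h2]
  have hzero : P = 0 := by
    apply Polynomial.eq_zero_of_infinite_isRoot
    refine Set.Infinite.mono ?_ (hs.infinite_compl)
    intro t ht
    show P.eval t = 0
    rw [hP t]; exact h t ht
  have := hP 0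
  rw [hzero] at this
  simpa using this.symm

theorem mem_zariskiClosure_of_curve {d : ℕ} (Z : Set (Fol d)) (ω η₁ η₂ : forms d) (h : ω ≠ 0)
    (hl : ∀ t : ℂ, t ≠ 0 → ∀ ht : ω + t • η₁ + (t ^ 2) • η₂ ≠ 0,
      Projectivization.mk ℂ (ω + t • η₁ + (t ^ 2) • η₂) ht ∈ Z) :
    Projectivization.mk ℂ ω h ∈ zariskiClosure Z := by
  rintro W ⟨⟨S, hS, rfl⟩, hZ⟩
  rw [mk_mem_zeroLocus S hS]
  intro Φ hΦ
  refine eval_eq_zero_of_curve Φ ω η₁ η₂
    ({0} ∪ {t : ℂ | ω + t • η₁ + (t ^ 2) • η₂ = 0}) ?_ ?_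
  · refine (Set.finite_singleton 0).union ?_
    obtain ⟨k, hk⟩ : ∃ k, coord (ω : Form) k ≠ 0 := by
      by_contra hall
      push Not at hall
      apply h
      apply Subtype.ext
      apply Prod.ext
      · ext m
        have := hall (0, m)
        simpa [coord] using this
      · ext m
        have := hall (1, m)
        simpa [coord] using this
    let Q : Polynomial ℂ := Polynomial.C (coord (ω : Form) k) +
      Polynomial.X * Polynomial.C (coord (η₁ : Form) k) +
      Polynomial.X ^ 2 * Polynomial.C (coord (η₂ : Form) k)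
    have hQ : Q ≠ 0 := by
      intro h0
      apply hk
      have := congrArg (Polynomial.eval 0) h0
      simpa [Q] using this
    refine (Polynomial.finite_setOfPred_isRoot hQ).subset ?_
    intro t ht
    have ht' : (ω : Form) + t • (η₁ : Form) + (t ^ 2) • (η₂ : Form) = 0 :=
      congrArg Subtype.val ht
    have h1 : coord ((ω : Form) + t • (η₁ : Form) + (t ^ 2) • (η₂ : Form)) k = 0 := by
      rw [ht']
      unfold coord; split_ifs <;> simp
    rw [coord_add_smul, coord_add_smul] at h1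
    show Polynomial.eval t Q = 0
    simp only [Q, Polynomial.eval_add, Polynomial.eval_mul, Polynomial.eval_C, Polynomial.eval_X,
      Polynomial.eval_pow]
    exact h1
  · intro t ht
    have ht1 : t ≠ 0 := fun h0 => ht (Or.inl h0)
    have ht2 : ω + t • η₁ + (t ^ 2) • η₂ ≠ 0 := fun h0 => ht (Or.inr h0)
    have h3 := hZ (hl t ht1 ht2)
    rw [mk_mem_zeroLocus S hS] at h3
    exact h3 Φ hΦ

/-- The truncated logarithm `u - u²/2 + ⋯ ± u^N / N`. -/
noncomputable def tlog (N : ℕ) (u : Poly) : Poly :=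
  ∑ k ∈ Finset.range N, C ((-1) ^ k / ((k : ℂ) + 1)) * u ^ (k + 1)

theorem deriv_tlog (δ : Derivation ℂ Poly Poly) (N : ℕ) (u : Poly) :
    (1 + u) * δ (tlog N u) = (1 - (-u) ^ N) * δ u := by
  have h1 : δ (tlog N u) = (∑ k ∈ Finset.range N, (-u) ^ k) * δ u := by
    unfold tlog
    rw [map_sum, Finset.sum_mul]
    refine Finset.sum_congr rfl fun k _ => ?_
    have h2 : (k : ℂ) + 1 ≠ 0 := Nat.cast_add_one_ne_zero k
    rw [← smul_eq_C_mul, Derivation.map_smul, Derivation.leibniz_pow, smul_eq_C_mul]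
    simp only [Nat.add_sub_cancel, smul_eq_mul, nsmul_eq_mul]
    have h3 : (C ((-1) ^ k / ((k : ℂ) + 1)) : Poly) * ((k + 1 : ℕ) : Poly) = (-1) ^ k := by
      rw [← map_natCast (C : ℂ →+* Poly), ← C_mul]
      push_cast
      rw [div_mul_cancel₀ _ h2]
      simp
    rw [neg_pow u k, ← h3]
    ring
  rw [h1]
  have h4 := mul_neg_geom_sum (-u) N
  rw [sub_neg_eq_add] at h4
  rw [← mul_assoc, h4]

/-- The coefficient used in the limit. -/
noncomputable def lamc (N : ℕ) (ε : ℂ) : ℂ := (-1) ^ N * ((N : ℂ) + 1) / ε ^ (N + 1)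

theorem key_identity (δ : Derivation ℂ Poly Poly) (N : ℕ) (a : Poly) (ε : ℂ) (hε : ε ≠ 0) :
    C (lamc N ε) * (δ (C ε * a) - (1 + C ε * a) * δ (tlog N (C ε * a))) = δ (a ^ (N + 1)) := by
  rw [deriv_tlog]
  have h1 : δ (C ε * a) = C ε * δ a := by
    rw [← smul_eq_C_mul, Derivation.map_smul, smul_eq_C_mul]
  have h2 : δ (a ^ (N + 1)) = C ((N : ℂ) + 1) * (a ^ N * δ a) := by
    rw [Derivation.leibniz_pow]
    simp only [Nat.add_sub_cancel, smul_eq_mul, nsmul_eq_mul]
    rw [C_add, C_1, ← map_natCast (C : ℂ →+* Poly)]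
    push_cast
    simp
  have h3 : (C (lamc N ε) : Poly) * C ε ^ (N + 1) = (-1) ^ N * C ((N : ℂ) + 1) := by
    rw [← C_pow, ← C_mul]
    unfold lamc
    rw [div_mul_cancel₀ _ (pow_ne_zero _ hε), C_mul, C_pow, C_neg, C_1]
  have h4 : ((-1 : Poly)) ^ N * (-1) ^ N = 1 := by
    rw [← mul_pow]; simp
  rw [h1, h2, neg_pow (C ε * a) N, mul_pow]
  linear_combination ((-1) ^ N * a ^ N * δ a) * h3 + (C ((N : ℂ) + 1) * a ^ N * δ a) * h4


theorem key_form (N : ℕ) (a : Poly) (ε : ℂ) (hε : ε ≠ 0) :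
    lamc N ε • (diff (C ε * a) - (1 + C ε * a) • diff (tlog N (C ε * a))) = diff (a ^ (N + 1)) := by
  apply Prod.ext
  · have := key_identity (pderiv 0) N a ε hε
    simpa [diff, smul_eq_C_mul] using this
  · have := key_identity (pderiv 1) N a ε hε
    simpa [diff, smul_eq_C_mul] using this

theorem totalDegree_tlog (N : ℕ) (u : Poly) (hu : u.totalDegree ≤ 1) :
    (tlog N u).totalDegree ≤ N := by
  unfold tlog
  refine totalDegree_finsetSum_le fun k hk => ?_
  rw [Finset.mem_range] at hk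
  refine (totalDegree_mul _ _).trans ?_
  rw [totalDegree_C, zero_add]
  refine (totalDegree_pow _ _).trans ?_
  have h1 : (k + 1) * u.totalDegree ≤ (k + 1) * 1 := Nat.mul_le_mul_left _ hu
  omega

/-- The expansion of the form with first integral `((1+εa)(1+εb))^λ e^h`. -/
theorem special_expansion (N : ℕ) (a b g : Poly) (ε : ℂ) (hε : ε ≠ 0) :
    lamc N ε • ((1 + C ε * b) • diff (C ε * a) + (1 + C ε * a) • diff (C ε * b)) +
      ((1 + C ε * a) * (1 + C ε * b)) •
        diff (g + (-lamc N ε) • (tlog N (C ε * a) + tlog N (C ε * b))) =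
    diff (a ^ (N + 1) + b ^ (N + 1) + g) +
      ε • ((a + b) • diff g + b • diff (a ^ (N + 1)) + a • diff (b ^ (N + 1))) +
      (ε ^ 2) • ((a * b) • diff g) := by
  have ha := key_form N a ε hε
  have hb := key_form N b ε hε
  rw [diff_add (a ^ (N + 1) + b ^ (N + 1)) g, diff_add (a ^ (N + 1)) (b ^ (N + 1)), ← ha, ← hb,
    diff_add g, diff_smul, diff_add]
  apply Prod.ext
  · simp only [Prod.fst_add, Prod.smul_fst, Prod.fst_sub, smul_eq_mul, smul_eq_C_mul, C_neg,
      C_pow]
    ring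
  · simp only [Prod.snd_add, Prod.smul_snd, Prod.snd_sub, smul_eq_mul, smul_eq_C_mul, C_neg,
      C_pow]
    ring



theorem smul_mem_forms {a b : ℕ} {g : Poly} {ω : Form} (hg : g.totalDegree ≤ a)
    (h0 : ω.1.totalDegree ≤ b) (h1 : ω.2.totalDegree ≤ b) {d : ℕ} (hd : a + b ≤ d) :
    g • ω ∈ forms d := by
  refine ⟨?_, ?_⟩
  · show g * ω.1 ∈ restrictTotalDegree (Fin 2) ℂ d
    rw [mem_restrictTotalDegree]
    exact (totalDegree_mul _ _).trans (by omega)
  · show g * ω.2 ∈ restrictTotalDegree (Fin 2) ℂ d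
    rw [mem_restrictTotalDegree]
    exact (totalDegree_mul _ _).trans (by omega)

theorem totalDegree_pow_le {a : Poly} (ha : a.totalDegree ≤ 1) (n : ℕ) :
    (a ^ n).totalDegree ≤ n := by
  refine (totalDegree_pow _ _).trans ?_
  have := Nat.mul_le_mul_left n ha
  omega

theorem totalDegree_one_add {a : Poly} (ha : a.totalDegree ≤ 1) (t : ℂ) :
    (1 + C t * a).totalDegree ≤ 1 := by
  refine (totalDegree_add _ _).trans (max_le (by simp) ?_)
  exact (totalDegree_mul _ _).trans (by simpa using ha)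

theorem totalDegree_hh {N : ℕ} {a b g : Poly} (ha : a.totalDegree ≤ 1) (hb : b.totalDegree ≤ 1)
    (hg : g.totalDegree ≤ N) (t c : ℂ) :
    (g + c • (tlog N (C t * a) + tlog N (C t * b))).totalDegree ≤ N := by
  have h1 : ∀ u : Poly, u.totalDegree ≤ 1 → (C t * u).totalDegree ≤ 1 := fun u hu =>
    (totalDegree_mul _ _).trans (by simpa using hu)
  refine (totalDegree_add _ _).trans (max_le hg ((totalDegree_smul_le _ _).trans ?_))
  exact (totalDegree_add _ _).trans (max_le (totalDegree_tlog N _ (h1 a ha))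
    (totalDegree_tlog N _ (h1 b hb)))

/-- For `f = a^d + b^d + g` with `a, b` affine and `deg g < d`, the foliation `F(df)` lies in the
closures of `L(2, d-1)` and `L(1, 1, d-1)`. -/
theorem passes_special (N : ℕ) (hN : 1 ≤ N) (a b g : Poly) (ha : a.totalDegree ≤ 1)
    (hb : b.totalDegree ≤ 1) (hg : g.totalDegree ≤ N)
    (hne : diff (a ^ (N + 1) + b ^ (N + 1) + g) ≠ 0) :
    Passes (zariskiClosure (logFamily (N + 1) ![2, N])) (a ^ (N + 1) + b ^ (N + 1) + g) ∧
    Passes (zariskiClosure (logFamily (N + 1) ![1, 1, N])) (a ^ (N + 1) + b ^ (N + 1) + g) := by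
  have hf : (a ^ (N + 1) + b ^ (N + 1) + g).totalDegree ≤ N + 1 :=
    (totalDegree_add _ _).trans (max_le ((totalDegree_add _ _).trans
      (max_le (totalDegree_pow_le ha _) (totalDegree_pow_le hb _))) (by omega))
  have hdg : ∀ i, (pderiv i g).totalDegree ≤ N - 1 := fun i =>
    (totalDegree_pderiv_le i g).trans (by omega)
  have hda : ∀ i, (pderiv i (a ^ (N + 1))).totalDegree ≤ N := fun i =>
    (totalDegree_pderiv_le i _).trans (by have := totalDegree_pow_le ha (N + 1); omega)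
  have hdb : ∀ i, (pderiv i (b ^ (N + 1))).totalDegree ≤ N := fun i =>
    (totalDegree_pderiv_le i _).trans (by have := totalDegree_pow_le hb (N + 1); omega)
  have hab : (a + b).totalDegree ≤ 1 := (totalDegree_add _ _).trans (max_le ha hb)
  have hab2 : (a * b).totalDegree ≤ 2 := (totalDegree_mul _ _).trans (by omega)
  have m1 : (a + b) • diff g + b • diff (a ^ (N + 1)) + a • diff (b ^ (N + 1)) ∈ forms (N + 1) :=
    Submodule.add_mem _ (Submodule.add_mem _
      (smul_mem_forms hab (hdg 0) (hdg 1) (by omega))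
      (smul_mem_forms hb (hda 0) (hda 1) (by omega)))
      (smul_mem_forms ha (hdb 0) (hdb 1) (by omega))
  have m2 : (a * b) • diff g ∈ forms (N + 1) := smul_mem_forms hab2 (hdg 0) (hdg 1) (by omega)
  let ω : forms (N + 1) := ⟨diff (a ^ (N + 1) + b ^ (N + 1) + g), diff_mem_forms hf⟩
  let η₁ : forms (N + 1) := ⟨_, m1⟩
  let η₂ : forms (N + 1) := ⟨_, m2⟩
  have hω : ω ≠ 0 := fun h => hne (congrArg Subtype.val h)
  have hval : ∀ t : ℂ, ((ω + t • η₁ + (t ^ 2) • η₂ : forms (N + 1)) : Form) =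
      diff (a ^ (N + 1) + b ^ (N + 1) + g) +
      t • ((a + b) • diff g + b • diff (a ^ (N + 1)) + a • diff (b ^ (N + 1))) +
      (t ^ 2) • ((a * b) • diff g) := fun t => rfl
  have e1 : Projectivization.mk ℂ ω hω ∈ zariskiClosure (expFamily (N + 1) ![2] N) := by
    refine mem_zariskiClosure_of_curve _ ω η₁ η₂ hω fun t ht hnz => ?_
    refine ⟨![(1 + C t * a) * (1 + C t * b)], ![lamc N t], ![0],
      g + (-lamc N t) • (tlog N (C t * a) + tlog N (C t * b)), ?_, totalDegree_hh ha hb hg _ _,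
      ?_, _, hnz, ?_, rfl⟩
    · intro j
      fin_cases j
      refine (totalDegree_mul _ _).trans ?_
      have h1 := totalDegree_one_add ha t
      have h2 := totalDegree_one_add hb t
      show _ ≤ 2
      omega
    · simp
    · rw [hval, ← special_expansion N a b g t ht]
      unfold expForm
      rw [logForm_one', logForm_one']
      simp only [Fin.prod_univ_one, Matrix.cons_val_zero, pow_zero, one_smul, Nat.cast_zero,
        zero_smul, smul_zero, sub_zero]
      congr 2
      rw [diff_mul (1 + C t * a) (1 + C t * b), diff_add 1 (C t * a), diff_add 1 (C t * b),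
        diff_one, zero_add, zero_add, add_comm]
  have e2 : Projectivization.mk ℂ ω hω ∈ zariskiClosure (expFamily (N + 1) ![1, 1] N) := by
    refine mem_zariskiClosure_of_curve _ ω η₁ η₂ hω fun t ht hnz => ?_
    refine ⟨![1 + C t * a, 1 + C t * b], ![lamc N t, lamc N t], ![0, 0],
      g + (-lamc N t) • (tlog N (C t * a) + tlog N (C t * b)), ?_, totalDegree_hh ha hb hg _ _,
      ?_, _, hnz, ?_, rfl⟩
    · intro j
      fin_cases j
      · exact totalDegree_one_add ha t
      · exact totalDegree_one_add hb t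
    · simp
    · rw [hval, ← special_expansion N a b g t ht]
      unfold expForm
      rw [logForm_two]
      have h0 : (fun j : Fin 2 => (((![0, 0] : Fin 2 → ℕ) j : ℕ) : ℂ)) = ![0, 0] := by
        funext j
        fin_cases j <;> simp
      rw [h0, logForm_two]
      simp only [Fin.prod_univ_two, Matrix.cons_val_zero, Matrix.cons_val_one, pow_zero, one_smul,
        zero_smul, smul_zero, sub_zero, mul_one, add_zero]
      congr 1
      rw [← smul_add, diff_add, diff_add, diff_one, zero_add, zero_add]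
  have s1 : (Fin.snoc (α := fun _ => ℕ) ![2] N : Fin 2 → ℕ) = ![2, N] := by
    funext j
    fin_cases j <;> rfl
  have s2 : (Fin.snoc (α := fun _ => ℕ) ![1, 1] N : Fin 3 → ℕ) = ![1, 1, N] := by
    funext j
    fin_cases j <;> rfl
  have c1 := expFamily_subset (N + 1) ![2] N (by simp; omega)
  have c2 := expFamily_subset (N + 1) ![1, 1] N (by simp; omega)
  rw [s1] at c1
  rw [s2] at c2
  exact ⟨⟨ω, hω, rfl, zariskiClosure_subset (isAlgebraic_zariskiClosure _) c1 e1⟩,
    ⟨ω, hω, rfl, zariskiClosure_subset (isAlgebraic_zariskiClosure _) c2 e2⟩⟩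



theorem gen_asInProblem (d : ℕ) (hd : 3 ≤ d) : Gen d (AsInProblem d) :=
  (((gen_totalDegree d).and (gen_nondegenerate d (by omega))).and (gen_distinct d hd)).mono
    fun _ _ h => ⟨h.1.1, h.1.2, h.2⟩

/-- The special polynomial `x^{N+1} + y^{N+1} + x + b y`. -/
noncomputable def spec (N : ℕ) (b : ℂ) : Poly := X 0 ^ (N + 1) + X 1 ^ (N + 1) + (X 0 + C b * X 1)

theorem spec_dx (N : ℕ) (b : ℂ) : pderiv 0 (spec N b) = C ((N : ℂ) + 1) * X 0 ^ N + 1 := by
  unfold spec
  simp only [map_add, Derivation.leibniz_pow, Derivation.leibniz, pderiv_X_self,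
    pderiv_X_of_ne (show (1 : Fin 2) ≠ 0 by decide), pderiv_C, smul_eq_mul, mul_zero, smul_zero,
    add_zero, mul_one, Nat.add_sub_cancel, nsmul_eq_mul]
  rw [C_1, ← map_natCast (C : ℂ →+* Poly)]
  push_cast
  simp

theorem spec_dy (N : ℕ) (b : ℂ) : pderiv 1 (spec N b) = C ((N : ℂ) + 1) * X 1 ^ N + C b := by
  unfold spec
  simp only [map_add, Derivation.leibniz_pow, Derivation.leibniz, pderiv_X_self,
    pderiv_X_of_ne (show (0 : Fin 2) ≠ 1 by decide), pderiv_C, smul_eq_mul, mul_zero, smul_zero,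
    add_zero, zero_add, mul_one, Nat.add_sub_cancel, nsmul_eq_mul]
  rw [C_1, ← map_natCast (C : ℂ →+* Poly)]
  push_cast
  simp

theorem spec_dxx (N : ℕ) (b : ℂ) :
    pderiv 0 (pderiv 0 (spec N b)) = C ((N : ℂ) + 1) * (C (N : ℂ) * X 0 ^ (N - 1)) := by
  rw [spec_dx, map_add, pderiv_C_mul, Derivation.leibniz_pow]
  simp

theorem spec_dyy (N : ℕ) (b : ℂ) :
    pderiv 1 (pderiv 1 (spec N b)) = C ((N : ℂ) + 1) * (C (N : ℂ) * X 1 ^ (N - 1)) := by
  rw [spec_dy, map_add, pderiv_C_mul, Derivation.leibniz_pow]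
  simp

theorem spec_dxy (N : ℕ) (b : ℂ) : pderiv 0 (pderiv 1 (spec N b)) = 0 := by
  rw [spec_dy, map_add, pderiv_C_mul, Derivation.leibniz_pow]
  simp [pderiv_X_of_ne (show (1 : Fin 2) ≠ 0 by decide)]

theorem spec_totalDegree (N : ℕ) (hN : 2 ≤ N) (b : ℂ) : (spec N b).totalDegree = N + 1 := by
  apply le_antisymm
  · unfold spec
    refine (totalDegree_add _ _).trans (max_le ((totalDegree_add _ _).trans (max_le ?_ ?_)) ?_)
    · exact totalDegree_pow_le (by simp) _
    · exact totalDegree_pow_le (by simp) _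
    · refine (totalDegree_add _ _).trans (max_le (by simp) ?_)
      exact (totalDegree_mul _ _).trans (by simp)
  · have h : coeff (Finsupp.single 0 (N + 1)) (spec N b) ≠ 0 := by
      unfold spec
      have e1 : (Finsupp.single (1 : Fin 2) (N + 1)) ≠ Finsupp.single 0 (N + 1) := by
        intro h
        have := DFunLike.congr_fun h 0
        simp at this
      have e2 : (Finsupp.single (0 : Fin 2) 1) ≠ Finsupp.single 0 (N + 1) := by
        intro h
        have := DFunLike.congr_fun h 0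
        simp at this
        omega
      have e3 : (Finsupp.single (1 : Fin 2) 1) ≠ Finsupp.single 0 (N + 1) := by
        intro h
        have := DFunLike.congr_fun h 0
        simp at this
      simp only [coeff_add, coeff_C_mul, coeff_X_pow, coeff_X, e1, e2, e3, if_true, if_false]
      simp
    have := sum_le_totalDegree h
    simpa using this

theorem exists_special (N : ℕ) (hN : 2 ≤ N) : ∃ b : ℂ, AsInProblem (N + 1) (spec N b) := by
  have hN1 : ((N : ℂ) + 1) ≠ 0 := Nat.cast_add_one_ne_zero N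
  have hN0 : (N : ℂ) ≠ 0 := by
    have : N ≠ 0 := by omega
    exact_mod_cast this
  -- the finite sets of roots
  have hR : {x : ℂ | ((N : ℂ) + 1) * x ^ N = -1}.Finite := by
    have hQ : (Polynomial.C ((N : ℂ) + 1) * Polynomial.X ^ N + Polynomial.C 1) ≠ 0 := by
      intro h0
      have := congrArg (Polynomial.eval 0) h0
      simp [show N ≠ 0 by omega] at this
    refine (Polynomial.finite_setOfPred_isRoot hQ).subset ?_
    intro x hx
    show Polynomial.eval x _ = 0
    have hx' : ((N : ℂ) + 1) * x ^ N = -1 := hx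
    simp [hx']
  have hU : {x : ℂ | x ^ N = 1}.Finite := by
    have hQ : (Polynomial.X ^ N - Polynomial.C 1 : Polynomial ℂ) ≠ 0 := by
      intro h0
      have := congrArg (Polynomial.eval 0) h0
      simp [show N ≠ 0 by omega] at this
    refine (Polynomial.finite_setOfPred_isRoot hQ).subset ?_
    intro x hx
    show Polynomial.eval x _ = 0
    have hx' : x ^ N = 1 := hx
    simp [hx']
  have hB := ((hR.prod hR).prod (hU.prod hU)).image
    (fun q : (ℂ × ℂ) × (ℂ × ℂ) => (q.1.1 - q.1.2) / (((N : ℂ) + 1) * (q.2.1 - q.2.2)))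
  obtain ⟨w, hw⟩ := (hB.union (Set.finite_singleton (0 : ℂ))).infinite_compl.nonempty
  have hwB : w ∉ _ := fun h => hw (Or.inl h)
  have hw0 : w ≠ 0 := fun h => hw (Or.inr h)
  obtain ⟨c, hc⟩ := IsAlgClosed.exists_pow_nat_eq w (n := N + 1) (by omega)
  have hc0 : c ≠ 0 := by
    rintro rfl
    apply hw0
    rw [← hc]
    simp
  refine ⟨-((N : ℂ) + 1) * c ^ N, spec_totalDegree N hN _, ?_, ?_⟩
  · intro p hx hy
    rw [spec_dx] at hx
    rw [spec_dy] at hy
    simp only [map_add, map_mul, map_pow, eval_C, eval_X, map_one] at hx hy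
    rw [spec_dxx, spec_dyy, spec_dxy]
    simp only [map_sub, map_mul, map_pow, eval_C, eval_X, map_zero]
    have h0 : p 0 ≠ 0 := by
      intro h
      rw [h, zero_pow (by omega)] at hx
      simp at hx
    have h1 : p 1 ≠ 0 := by
      intro h
      rw [h, zero_pow (by omega), mul_zero, zero_add, neg_mul, neg_eq_zero] at hy
      exact (mul_ne_zero hN1 (pow_ne_zero _ hc0)) hy
    rw [zero_pow two_ne_zero, sub_zero]
    exact mul_ne_zero (mul_ne_zero hN1 (mul_ne_zero hN0 (pow_ne_zero _ h0)))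
      (mul_ne_zero hN1 (mul_ne_zero hN0 (pow_ne_zero _ h1)))
  · intro p q hpx hpy hqx hqy hval
    rw [spec_dx] at hpx hqx
    rw [spec_dy] at hpy hqy
    simp only [map_add, map_mul, map_pow, eval_C, eval_X, map_one] at hpx hpy hqx hqy
    unfold spec at hval
    simp only [map_add, map_mul, map_pow, eval_C, eval_X] at hval
    have hpx' : ((N : ℂ) + 1) * p 0 ^ N = -1 := by linear_combination hpx
    have hqx' : ((N : ℂ) + 1) * q 0 ^ N = -1 := by linear_combination hqx
    have hp1 : (p 1 / c) ^ N = 1 := by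
      rw [div_pow, div_eq_one_iff_eq (pow_ne_zero _ hc0)]
      apply mul_left_cancel₀ hN1
      linear_combination hpy
    have hq1 : (q 1 / c) ^ N = 1 := by
      rw [div_pow, div_eq_one_iff_eq (pow_ne_zero _ hc0)]
      apply mul_left_cancel₀ hN1
      linear_combination hqy
    have hlin : (p 0 - q 0) = ((N : ℂ) + 1) * c ^ N * (p 1 - q 1) := by
      have h1 : (N : ℂ) * ((p 0 - q 0) - ((N : ℂ) + 1) * c ^ N * (p 1 - q 1)) = 0 := by
        have e1 : ((N : ℂ) + 1) * p 0 ^ (N + 1) = - p 0 := by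
          rw [pow_succ]; linear_combination p 0 * hpx'
        have e2 : ((N : ℂ) + 1) * q 0 ^ (N + 1) = - q 0 := by
          rw [pow_succ]; linear_combination q 0 * hqx'
        have e3 : ((N : ℂ) + 1) * p 1 ^ (N + 1) = ((N : ℂ) + 1) * c ^ N * p 1 := by
          rw [pow_succ]; linear_combination p 1 * hpy
        have e4 : ((N : ℂ) + 1) * q 1 ^ (N + 1) = ((N : ℂ) + 1) * c ^ N * q 1 := by
          rw [pow_succ]; linear_combination q 1 * hqy
        linear_combination ((N : ℂ) + 1) * hval - e1 + e2 - e3 + e4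
      rcases mul_eq_zero.mp h1 with h2 | h2
      · exact absurd h2 hN0
      · exact sub_eq_zero.mp h2
    have h11 : p 1 = q 1 := by
      by_contra hne
      apply hwB
      refine ⟨((p 0, q 0), (p 1 / c, q 1 / c)), ⟨⟨hpx', hqx'⟩, ⟨hp1, hq1⟩⟩, ?_⟩
      show (p 0 - q 0) / (((N : ℂ) + 1) * (p 1 / c - q 1 / c)) = w
      have hsub : p 1 / c - q 1 / c = (p 1 - q 1) / c := by ring
      have hne' : p 1 - q 1 ≠ 0 := sub_ne_zero.mpr hne
      rw [hsub, hlin, ← hc, pow_succ]
      field_simp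
    have h00 : p 0 = q 0 := by
      rw [h11, sub_self, mul_zero] at hlin
      exact sub_eq_zero.mp hlin
    funext i
    fin_cases i
    · exact h00
    · exact h11



/-! ## Classification -/

theorem logFamily_swap_eq (d a b : ℕ) : logFamily d ![a, b] = logFamily d ![b, a] :=
  Set.Subset.antisymm (logFamily_swap d a b) (logFamily_swap d b a)

theorem cases_of_large (d : ℕ) {s : ℕ} (D : Fin s → ℕ) (hD : ∀ j, 1 ≤ D j)
    (hsum : ∑ j, D j = d + 1) (hj : ∃ j, d ≤ D j) :
    logFamily d D = logFamily d ![d + 1] ∨ logFamily d D = logFamily d ![1, d] := by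
  obtain ⟨j, hj⟩ := hj
  have hs : s ≤ 2 := by
    have h1 : D j + ∑ i ∈ Finset.univ.erase j, D i = d + 1 := by
      rw [Finset.add_sum_erase Finset.univ _ (Finset.mem_univ j)]
      exact hsum
    have h2 : ∑ _i ∈ (Finset.univ.erase j : Finset (Fin s)), 1 ≤
        ∑ i ∈ Finset.univ.erase j, D i := Finset.sum_le_sum fun i _ => hD i
    rw [Finset.sum_const, Finset.card_erase_of_mem (Finset.mem_univ j), Finset.card_univ,
      Fintype.card_fin, smul_eq_mul, mul_one] at h2
    omega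
  interval_cases s
  · exact j.elim0
  · left
    have h1 : D = ![d + 1] := by
      funext i
      fin_cases i
      rw [Fin.sum_univ_one] at hsum
      simpa using hsum
    rw [h1]
  · right
    rw [Fin.sum_univ_two] at hsum
    have h0 := hD 0
    have h1 := hD 1
    fin_cases j
    · have e0 : d ≤ D 0 := hj
      have h2 : D = ![d, 1] := by
        funext i
        fin_cases i
        · show D 0 = d
          omega
        · show D 1 = 1
          omega
      rw [h2, logFamily_swap_eq]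
    · have e0 : d ≤ D 1 := hj
      have h2 : D = ![1, d] := by
        funext i
        fin_cases i
        · show D 0 = 1
          omega
        · show D 1 = d
          omega
      rw [h2]

theorem logFamily_nonempty (d : ℕ) (hd : 1 ≤ d) {s : ℕ} (D : Fin s → ℕ) (j : Fin s)
    (hj : d ≤ D j) : (logFamily d D).Nonempty := by
  have h0 : (X 0 : Poly).totalDegree ≤ d := by simpa using hd
  have h1 : diff (X 0 : Poly) ≠ 0 := diff_ne_zero (by simp)
  obtain ⟨ω, h, -, hmem⟩ := passes_logFamily D j hj (X 0) h0 h1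
  exact ⟨_, hmem⟩

/-- A closed subset of an irreducible closed `L ⊆ M` which is a component of `M` equals `L`. -/
theorem eq_of_component {d : ℕ} {M L Z : Set (Fol d)} (hL : IsIrreducibleAlgebraic L)
    (hLM : L ⊆ M) (hZ : IsComponent M Z) (h : Z ⊆ L) : Z = L :=
  (hZ.2.2 L hL h hLM).symm

theorem irreducible_one_d (d : ℕ) (hd : 1 ≤ d) :
    IsIrreducibleAlgebraic (zariskiClosure (logFamily d ![1, d])) :=
  irreducible_logFamily d ![1, d] (logFamily_nonempty d hd ![1, d] 1 (le_refl d)) (by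
    rw [Fin.sum_univ_two]
    show 1 + d ≤ d + 1
    omega)

theorem irreducible_hamiltonian (d : ℕ) (hd : 1 ≤ d) :
    IsIrreducibleAlgebraic (zariskiClosure (logFamily d ![d + 1])) :=
  irreducible_logFamily d ![d + 1] (logFamily_nonempty d hd ![d + 1] 0 (Nat.le_succ d)) (by
    rw [Fin.sum_univ_one]
    exact le_refl (d + 1))

theorem not_component_AB (d : ℕ) (hd : 2 ≤ d) (M : Set (Fol d)) (hM : IsAlgebraic M)
    (hsub : logFamily d ![1, d] ⊆ M) :
    (∀ i ≤ d, ¬ IsComponent M (zariskiClosure (familyA d i))) ∧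
      ¬ IsComponent M (zariskiClosure (familyB d)) := by
  have hirr := irreducible_one_d d (by omega)
  have hLM : zariskiClosure (logFamily d ![1, d]) ⊆ M := zariskiClosure_subset hM hsub
  refine ⟨fun i hi h => ?_, fun h => ?_⟩
  · have h1 := closure_familyA_ssubset d i hd hi
    exact h1.ne (eq_of_component hirr hLM h h1.subset)
  · have h1 := closure_familyB_ssubset d hd
    exact h1.ne (eq_of_component hirr hLM h h1.subset)

theorem snoc_pos {s : ℕ} {D : Fin s → ℕ} {e : ℕ} (hD : ∀ j, 1 ≤ D j) (he : 1 ≤ e)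
    (j : Fin (s + 1)) : 1 ≤ (Fin.snoc (α := fun _ => ℕ) D e : Fin (s + 1) → ℕ) j := by
  refine Fin.lastCases ?_ (fun j => ?_) j
  · simpa using he
  · simpa using hD j

theorem gen_classification (d : ℕ) (hd : 7 ≤ d) (M : Set (Fol d)) (hM : IsAlgebraic M)
    (h1 : logFamily d ![d + 1] ⊆ M) (h2 : logFamily d ![1, d] ⊆ M) :
    Gen d (fun f => ∀ Z, Candidate d Z → IsComponent M Z → Passes Z f →
      Z = zariskiClosure (logFamily d ![d + 1]) ∨ Z = zariskiClosure (logFamily d ![1, d])) := by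
  have hL1 : zariskiClosure (logFamily d ![d + 1]) ⊆ M := zariskiClosure_subset hM h1
  have hL2 : zariskiClosure (logFamily d ![1, d]) ⊆ M := zariskiClosure_subset hM h2
  refine (gen_logFamily d hd).mono fun f _ hf Z hZ hcomp hpass => ?_
  rcases hZ with ⟨s, D, hD, hsum, rfl⟩ | ⟨s, D, e, hD, he, hsum, rfl⟩ | ⟨i, hi, rfl⟩ | rfl
  · have h3 := hf s D hD hsum hpass
    rcases cases_of_large d D hD hsum h3 with h4 | h4
    · left; rw [h4]
    · right; rw [h4]
  · have hsub : zariskiClosure (expFamily d D e) ⊆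
        zariskiClosure (logFamily d (Fin.snoc (α := fun _ => ℕ) D e)) :=
      zariskiClosure_subset (isAlgebraic_zariskiClosure _) (expFamily_subset d D e hsum)
    have hsum' : ∑ j, (Fin.snoc (α := fun _ => ℕ) D e : Fin (s + 1) → ℕ) j = d + 1 := by
      rw [Fin.sum_univ_castSucc]
      simp only [Fin.snoc_castSucc, Fin.snoc_last]
      exact hsum
    have h3 := hf (s + 1) (Fin.snoc (α := fun _ => ℕ) D e) (snoc_pos hD he) hsum'
      (hpass.mono hsub)
    rcases cases_of_large d _ (snoc_pos hD he) hsum' h3 with h4 | h4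
    · left
      rw [h4] at hsub
      exact eq_of_component (irreducible_hamiltonian d (by omega)) hL1 hcomp hsub
    · right
      rw [h4] at hsub
      exact eq_of_component (irreducible_one_d d (by omega)) hL2 hcomp hsub
  · exact absurd hcomp ((not_component_AB d (by omega) M hM h2).1 i hi)
  · exact absurd hcomp (not_component_AB d (by omega) M hM h2).2

theorem gen_iff (d : ℕ) (hd : 7 ≤ d) :
    Gen d (fun f => AsInProblem d f ∧ ∀ (s : ℕ) (D : Fin s → ℕ), (∀ j, 1 ≤ D j) →
      ∑ j, D j = d + 1 → (Passes (zariskiClosure (logFamily d D)) f ↔ ∃ j, d ≤ D j)) := by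
  refine ((gen_asInProblem d (by omega)).and (gen_logFamily d hd)).mono fun f hf h => ⟨h.1, ?_⟩
  intro s D hD hsum
  refine ⟨fun hpass => h.2 s D hD hsum hpass, ?_⟩
  rintro ⟨j, hj⟩
  have hne : diff f ≠ 0 := diff_ne_zero (by rw [h.1.1]; omega)
  exact (passes_logFamily D j hj f hf hne).mono (subset_zariskiClosure _)

theorem exists_special' (d : ℕ) (hd : 3 ≤ d) : ∃ f : Poly, AsInProblem d f ∧
    Passes (zariskiClosure (logFamily d ![2, d - 1])) f ∧
    Passes (zariskiClosure (logFamily d ![1, 1, d - 1])) f := by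
  obtain ⟨N, rfl⟩ : ∃ N, d = N + 1 := ⟨d - 1, by omega⟩
  obtain ⟨b, hb⟩ := exists_special N (by omega)
  have hg : (X 0 + C b * X 1 : Poly).totalDegree ≤ N := by
    refine (totalDegree_add _ _).trans (max_le ?_ ?_)
    · simp; omega
    · refine (totalDegree_mul _ _).trans ?_
      simp; omega
  have hne : diff (spec N b) ≠ 0 := diff_ne_zero (by rw [hb.1]; omega)
  have h := passes_special N (by omega) (X 0) (X 1) (X 0 + C b * X 1) (by simp) (by simp) hg hne
  exact ⟨spec N b, hb, h⟩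



end Pool.Agent.H898.Center
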