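import Pool.Agent.H898.CenterProofs
import Pool.Agent.H898.CenterLocusDefs

set_option autoImplicit false

open MvPolynomial Filter Topology

namespace Pool.Agent.H898.Center


/-! ## Parametrized families -/

/-- The foliations given by a family of forms. -/
def parSet (d : ℕ) {σ : Type} (G : (σ → ℂ) → Form) : Set (Fol d) :=
  {x | ∃ (v : σ → ℂ) (ω : forms d) (h : ω ≠ 0), (ω : Form) = G v ∧ x = Projectivization.mk ℂ ω h}

theorem exists_coord_ne {ω : Form} (h : ω ≠ 0) : ∃ k, coord ω k ≠ 0 := by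
  by_contra hall
  push Not at hall
  apply h
  apply Prod.ext
  · ext m
    have := hall (0, m)
    simpa [coord] using this
  · ext m
    have := hall (1, m)
    simpa [coord] using this

theorem coord_zero (k : Fin 2 × (Fin 2 →₀ ℕ)) : coord (0 : Form) k = 0 := by
  unfold coord; split_ifs <;> simp

theorem irreducible_parSet (d : ℕ) {σ : Type} (G : (σ → ℂ) → Form)
    (hG : ∀ k, PolyMap (fun v => coord (G v) k)) (hforms : ∀ v, G v ∈ forms d)
    (hne : (parSet d G).Nonempty) : IsIrreducibleAlgebraic (zariskiClosure (parSet d G)) := by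
  refine ⟨isAlgebraic_zariskiClosure _, hne.mono (subset_zariskiClosure _), ?_⟩
  rintro Z₁ Z₂ hZ₁ hZ₂ hsub
  by_contra hcon
  rw [not_or] at hcon
  have key : ∀ Z : Set (Fol d), IsAlgebraic Z → ¬ zariskiClosure (parSet d G) ⊆ Z →
      ∃ Φ : PolyFun, (∀ (ω : forms d) (h : ω ≠ 0), Projectivization.mk ℂ ω h ∈ Z →
        eval (coord (ω : Form)) Φ = 0) ∧ ∃ v, G v ≠ 0 ∧ eval (coord (G v)) Φ ≠ 0 := by
    intro Z hZ hn
    have h1 : ¬ parSet d G ⊆ Z := fun h => hn (zariskiClosure_subset hZ h)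
    obtain ⟨S, hS, rfl⟩ := hZ
    rw [Set.not_subset] at h1
    obtain ⟨x, ⟨v, ω, h, hω, rfl⟩, hx⟩ := h1
    rw [mk_mem_zeroLocus S hS] at hx
    push Not at hx
    obtain ⟨Φ, hΦ, hval⟩ := hx
    refine ⟨Φ, ?_, v, ?_, ?_⟩
    · intro ω' h' hmem
      rw [mk_mem_zeroLocus S hS] at hmem
      exact hmem Φ hΦ
    · rw [← hω]
      intro h0
      exact h (Subtype.ext h0)
    · rw [← hω]
      exact hval
  obtain ⟨Φ₁, hz₁, v₁, hne₁, hv₁⟩ := key Z₁ hZ₁ hcon.1
  obtain ⟨Φ₂, hz₂, v₂, hne₂, hv₂⟩ := key Z₂ hZ₂ hcon.2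
  obtain ⟨k, hk⟩ := exists_coord_ne hne₁
  obtain ⟨P, hP0⟩ := hG k
  obtain ⟨Q₁, hQ10⟩ := PolyMap.comp hG Φ₁
  obtain ⟨Q₂, hQ20⟩ := PolyMap.comp hG Φ₂
  have hP : ∀ v, coord (G v) k = eval v P := hP0
  have hQ₁ : ∀ v, eval (coord (G v)) Φ₁ = eval v Q₁ := hQ10
  have hQ₂ : ∀ v, eval (coord (G v)) Φ₂ = eval v Q₂ := hQ20
  have n0 : P ≠ 0 := by
    rintro rfl
    exact hk (by rw [hP, map_zero])
  have n1 : Q₁ ≠ 0 := by
    rintro rfl
    exact hv₁ (by rw [hQ₁, map_zero])
  have n2 : Q₂ ≠ 0 := by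
    rintro rfl
    exact hv₂ (by rw [hQ₂, map_zero])
  obtain ⟨v, hv⟩ : ∃ v, eval v (P * Q₁ * Q₂) ≠ 0 := by
    by_contra hall
    push Not at hall
    exact (mul_ne_zero (mul_ne_zero n0 n1) n2)
      (MvPolynomial.funext fun u => by rw [hall u, map_zero])
  rw [map_mul, map_mul] at hv
  have e2 := right_ne_zero_of_mul hv
  have e1 := right_ne_zero_of_mul (left_ne_zero_of_mul hv)
  have e0 := left_ne_zero_of_mul (left_ne_zero_of_mul hv)
  rw [← hP] at e0
  rw [← hQ₁] at e1
  rw [← hQ₂] at e2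
  obtain ⟨ω, hω0⟩ : ∃ ω : forms d, (ω : Form) = G v := ⟨⟨_, hforms v⟩, rfl⟩
  have hω : ω ≠ 0 := by
    intro h0
    have h1 : G v = 0 := by rw [← hω0, h0]; rfl
    apply e0
    rw [h1, coord_zero]
  have hin0 : Projectivization.mk ℂ ω hω ∈ parSet d G := ⟨v, ω, hω, hω0, rfl⟩
  rcases hsub (subset_zariskiClosure _ hin0) with h | h
  · apply e1
    rw [← hω0]
    exact hz₁ ω hω h
  · apply e2
    rw [← hω0]
    exact hz₂ ω hω h

/-- A closed set containing the generic members of a family contains all of them. -/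
theorem parSet_subset_of_dense (d : ℕ) {σ : Type} (G : (σ → ℂ) → Form)
    (hG : ∀ k, PolyMap (fun v => coord (G v) k)) (hforms : ∀ v, G v ∈ forms d)
    (g : (σ → ℂ) → ℂ) (hg : PolyMap g) (hg0 : ∃ v, g v ≠ 0) (W : Set (Fol d))
    (hW : IsAlgebraic W)
    (h : ∀ v, g v ≠ 0 → ∀ (ω : forms d) (h : ω ≠ 0), (ω : Form) = G v →
      Projectivization.mk ℂ ω h ∈ W) : parSet d G ⊆ W := by
  rintro x ⟨v, ω, h0, hω, rfl⟩
  obtain ⟨S, hS, rfl⟩ := hW
  rw [mk_mem_zeroLocus S hS]
  intro Φ hΦ
  rw [hω]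
  obtain ⟨k, hk⟩ : ∃ k, coord (G v) k ≠ 0 := by
    apply exists_coord_ne
    rw [← hω]
    exact fun h1 => h0 (Subtype.ext h1)
  have h1 := PolyMap.comp hG Φ
  have h2 : PolyMap (fun v => g v * coord (G v) k) := hg.mul (hG k)
  obtain ⟨v0, hv0⟩ := hg0
  have hne : ∃ u, g u * coord (G u) k ≠ 0 := by
    obtain ⟨P, hP⟩ := hg
    obtain ⟨Q, hQ⟩ := hG k
    have hP0 : P ≠ 0 := by
      rintro rfl
      exact hv0 (by rw [hP, map_zero])
    have hQ0 : Q ≠ 0 := by
      rintro rfl
      apply hk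
      have := hQ v
      rw [map_zero] at this
      exact this
    by_contra hall
    push Not at hall
    apply mul_ne_zero hP0 hQ0
    apply MvPolynomial.funext
    intro u
    rw [map_mul, map_zero, ← hP]
    have := hQ u
    rw [← this]
    exact hall u
  have h3 := PolyMap.eq_zero_of_dense h1 h2 hne (by
    intro u hu
    have hGu : (⟨G u, hforms u⟩ : forms d) ≠ 0 := by
      intro h4
      have h5 : G u = 0 := congrArg Subtype.val h4
      apply right_ne_zero_of_mul hu
      rw [h5, coord_zero]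
    have h6 := h u (left_ne_zero_of_mul hu) ⟨G u, hforms u⟩ hGu rfl
    rw [mk_mem_zeroLocus S hS] at h6
    exact h6 Φ hΦ) v
  exact h3

/-- Every irreducible closed subset of a closed set lies in an irreducible component. -/
theorem exists_component {d : ℕ} (M N : Set (Fol d)) (hM : IsAlgebraic M)
    (hN : IsIrreducibleAlgebraic N) (hNM : N ⊆ M) : ∃ Z, IsComponent M Z ∧ N ⊆ Z := by
  obtain ⟨𝒲, hfin, hirr, hMW⟩ := exists_decomposition M hM
  have hsub : N ⊆ ⋃₀ 𝒲 := by rw [← hMW]; exact hNM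
  obtain ⟨W, hW, hNW⟩ := subset_member hN hfin (fun W hW => (hirr W hW).1) hsub
  obtain ⟨Z, ⟨hZ1, hZ2⟩, hmax⟩ : ∃ Z ∈ {W ∈ 𝒲 | N ⊆ W}, ∀ W ∈ {W ∈ 𝒲 | N ⊆ W}, Z ⊆ W → W = Z := by
    obtain ⟨Z, hZ⟩ := (hfin.subset (Set.sep_subset 𝒲 (fun W => N ⊆ W))).exists_maximal ⟨W, hW, hNW⟩
    exact ⟨Z, hZ.1, fun W' hW' hle => Set.Subset.antisymm (hZ.2 hW' hle) hle⟩
  refine ⟨Z, ⟨?_, hirr Z hZ1, ?_⟩, hZ2⟩
  · rw [hMW]
    exact Set.subset_sUnion_of_mem hZ1
  · intro Z' hZ' hle hZM
    have hsub' : Z' ⊆ ⋃₀ 𝒲 := by rw [← hMW]; exact hZM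
    obtain ⟨W', hW', hle'⟩ := subset_member hZ' hfin (fun W hW => (hirr W hW).1) hsub'
    have h1 := hmax W' ⟨hW', hZ2.trans (hle.trans hle')⟩ (hle.trans hle')
    exact Set.Subset.antisymm (h1 ▸ hle') hle



/-! ## Existence of centers -/

theorem exists_sqrt_primitive (G : ℂ → ℂ) (hG : Differentiable ℂ G) (r : ℂ) (hr : G r ≠ 0) :
    ∃ E κ : ℂ → ℂ, (∀ x, HasDerivAt E ((x - r) * G x) x) ∧ AnalyticAt ℂ κ r ∧ κ r ≠ 0 ∧
      ∀ᶠ x in 𝓝 r, ((x - r) * κ x) ^ 2 = E x := by
  have hd : Differentiable ℂ (fun x => (x - r) * G x) := by fun_prop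
  obtain ⟨E, hE0, hE1⟩ := (hd.isExactOn_univ).with_val_at r 0
  have hE : ∀ x, HasDerivAt E ((x - r) * G x) x := fun x => hE1 x (Set.mem_univ x)
  have hEd : Differentiable ℂ E := fun x => (hE x).differentiableAt
  have hEan : AnalyticAt ℂ E r := hEd.analyticAt r
  have hder : deriv E = fun x => (x - r) * G x := funext fun x => (hE x).deriv
  have ho1 : analyticOrderAt (deriv E) r = (1 : ℕ) := by
    rw [hder, (hd.analyticAt r).analyticOrderAt_eq_natCast]
    exact ⟨G, hG.analyticAt r, hr, Eventually.of_forall fun z => by simp⟩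
  have ho2 : analyticOrderAt E r = (2 : ℕ) := by
    have h := hEan.analyticOrderAt_deriv_add_one
    rw [hE0, ho1] at h
    simp only [sub_zero] at h
    rw [← h]
    norm_num
  obtain ⟨k, hk, hk0, hkE⟩ := hEan.analyticOrderAt_eq_natCast.mp ho2
  obtain ⟨s, hs⟩ := IsAlgClosed.exists_pow_nat_eq (k r) (n := 2) (by norm_num)
  have hs0 : s ≠ 0 := by
    rintro rfl
    apply hk0
    rw [← hs]; simp
  refine ⟨E, fun x => s * Complex.exp (Complex.log (k x / k r) / 2), hE, ?_, ?_, ?_⟩
  · have h1 : AnalyticAt ℂ (fun x => k x / k r) r := hk.div_const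
    have h2 : AnalyticAt ℂ (fun x => Complex.log (k x / k r)) r := by
      apply h1.clog
      rw [div_self hk0]
      exact Complex.one_mem_slitPlane
    exact analyticAt_const.mul (h2.div_const).cexp
  · simp [div_self hk0, hs0]
  · have hne : ∀ᶠ x in 𝓝 r, k x ≠ 0 := hk.continuousAt.eventually_ne hk0
    filter_upwards [hkE, hne] with x hx hxne
    rw [hx]
    have h1 : Complex.exp (Complex.log (k x / k r) / 2) ^ 2 = k x / k r := by
      rw [← Complex.exp_nat_mul]
      have : ((2 : ℕ) : ℂ) * (Complex.log (k x / k r) / 2) = Complex.log (k x / k r) := by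
        push_cast; ring
      rw [this, Complex.exp_log (div_ne_zero hxne hk0)]
    rw [mul_pow, mul_pow, h1, hs, smul_eq_mul]
    field_simp

/-- The form `((x - r) q(x) + c β(x) y²) dx + 2 c y dy`. -/
noncomputable def revForm (r : ℂ) (q β : Polynomial ℂ) (c : ℂ) : Form :=
  ((X 0 - C r) * Polynomial.aeval (X 0 : Poly) q +
    C c * (Polynomial.aeval (X 0 : Poly) β * X 1 ^ 2), C (2 * c) * X 1)

theorem eval_aeval_X (z : Fin 2 → ℂ) (q : Polynomial ℂ) :
    eval z (Polynomial.aeval (X 0 : Poly) q) = q.eval (z 0) := by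
  induction q using Polynomial.induction_on' with
  | add p q hp hq => rw [map_add, map_add, hp, hq, Polynomial.eval_add]
  | monomial n a => simp [Polynomial.aeval_monomial, algebraMap_eq]

theorem pderiv_aeval_X (q : Polynomial ℂ) :
    pderiv 0 (Polynomial.aeval (X 0 : Poly) q) = Polynomial.aeval (X 0 : Poly) q.derivative := by
  induction q using Polynomial.induction_on' with
  | add p q hp hq => rw [map_add, map_add, hp, hq, Polynomial.derivative_add, map_add]
  | monomial n a =>
    rw [Polynomial.aeval_monomial, Polynomial.derivative_monomial, Polynomial.aeval_monomial,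
      algebraMap_eq, pderiv_C_mul, Derivation.leibniz_pow]
    simp
    ring

theorem pderiv_one_aeval_X (q : Polynomial ℂ) :
    pderiv 1 (Polynomial.aeval (X 0 : Poly) q) = 0 := by
  induction q using Polynomial.induction_on' with
  | add p q hp hq => rw [map_add, map_add, hp, hq, add_zero]
  | monomial n a =>
    rw [Polynomial.aeval_monomial, algebraMap_eq, pderiv_C_mul, Derivation.leibniz_pow]
    simp [pderiv_X_of_ne (show (0 : Fin 2) ≠ 1 by decide)]

theorem comp_fderiv (g : ℂ → ℂ) (g' : ℂ) (L : (Fin 2 → ℂ) →L[ℂ] ℂ) (z : Fin 2 → ℂ)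
    (h : HasDerivAt g g' (L z)) : HasFDerivAt (fun w => g (L w)) (g' • L) z :=
  h.comp_hasFDerivAt z L.hasFDerivAt

theorem isCenter_revForm (r : ℂ) (q β : Polynomial ℂ) (c : ℂ) (hc : c ≠ 0) (hq : q.eval r ≠ 0) :
    IsCenter (revForm r q β c) ![r, 0] := by
  -- the integrating factor
  obtain ⟨B, hB⟩ := (β.differentiable).isExactOn_univ
  have hB' : ∀ x, HasDerivAt B (β.eval x) x := fun x => hB x (Set.mem_univ x)
  have hBd : Differentiable ℂ B := fun x => (hB' x).differentiableAt
  have hGd : Differentiable ℂ (fun x => q.eval x * Complex.exp (B x)) :=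
    q.differentiable.mul hBd.cexp
  obtain ⟨E, κ, hE, hκ, hκ0, hsq⟩ := exists_sqrt_primitive _ hGd r
    (mul_ne_zero hq (Complex.exp_ne_zero _))
  obtain ⟨γ, hγ⟩ := IsAlgClosed.exists_pow_nat_eq c (n := 2) (by norm_num)
  have hγ0 : γ ≠ 0 := by
    rintro rfl
    apply hc
    rw [← hγ]; simp
  let p : Fin 2 → ℂ := ![r, 0]
  have hp0 : p 0 = r := rfl
  have hp1 : p 1 = 0 := rfl
  let π0 : (Fin 2 → ℂ) →L[ℂ] ℂ := ContinuousLinearMap.proj 0
  let π1 : (Fin 2 → ℂ) →L[ℂ] ℂ := ContinuousLinearMap.proj 1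
  have a0 : ∀ z, AnalyticAt ℂ (fun w : Fin 2 → ℂ => w 0) z := fun z => π0.analyticAt z
  have a1 : ∀ z, AnalyticAt ℂ (fun w : Fin 2 → ℂ => w 1) z := fun z => π1.analyticAt z
  have f0 : ∀ z, HasFDerivAt (fun w : Fin 2 → ℂ => w 0) π0 z := fun z => π0.hasFDerivAt
  have f1 : ∀ z, HasFDerivAt (fun w : Fin 2 → ℂ => w 1) π1 z := fun z => π1.hasFDerivAt
  let u : (Fin 2 → ℂ) → ℂ := fun w => (w 0 - r) * κ (w 0)
  let v : (Fin 2 → ℂ) → ℂ := fun w => γ * w 1 * Complex.exp (B (w 0) / 2)
  have hua : AnalyticAt ℂ u p := by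
    have h1 : AnalyticAt ℂ (fun w : Fin 2 → ℂ => κ (w 0)) p :=
      AnalyticAt.comp (g := κ) (f := fun w : Fin 2 → ℂ => w 0) hκ (a0 p)
    exact ((a0 p).sub analyticAt_const).mul h1
  have hva : AnalyticAt ℂ v p := by
    have h1 : AnalyticAt ℂ (fun w : Fin 2 → ℂ => B (w 0)) p :=
      AnalyticAt.comp (g := B) (f := fun w : Fin 2 → ℂ => w 0) (hBd.analyticAt _) (a0 p)
    exact (analyticAt_const.mul (a1 p)).mul (h1.div_const).cexp
  have hud : HasFDerivAt u (κ r • π0) p := by
    have h1 : HasDerivAt (fun x => (x - r) * κ x) (κ r) r := by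
      have h2 := ((hasDerivAt_id r).sub_const r).fun_mul (hκ.differentiableAt.hasDerivAt)
      simpa using h2
    exact comp_fderiv _ _ π0 p h1
  have hvd : HasFDerivAt v ((γ * Complex.exp (B r / 2)) • π1) p := by
    have h1 : HasFDerivAt (fun w : Fin 2 → ℂ => Complex.exp (B (w 0) / 2))
        ((Complex.exp (B r / 2) * (β.eval r / 2)) • π0) p := by
      have h2 : HasDerivAt (fun x => Complex.exp (B x / 2))
          (Complex.exp (B r / 2) * (β.eval r / 2)) r := ((hB' r).div_const 2).cexp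
      exact comp_fderiv _ _ π0 p h2
    have h3 := ((f1 p).const_mul γ).fun_mul h1
    refine h3.congr_fderiv ?_
    ext w
    simp [hp1, hp0, π1, π0]
    ring
  refine ⟨⟨?_, ?_, ?_⟩, u, v, hua, hva, ?_, ?_, ?_, ?_⟩
  · simp [revForm, eval_aeval_X]
  · simp [revForm]
  · simp only [revForm, map_sub, map_mul, map_add, Derivation.leibniz, pderiv_aeval_X,
      pderiv_one_aeval_X, pderiv_C, pderiv_X_self, pderiv_X_of_ne (show (1 : Fin 2) ≠ 0 by decide),
      pderiv_X_of_ne (show (0 : Fin 2) ≠ 1 by decide), Derivation.leibniz_pow, smul_eq_mul,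
      eval_aeval_X, eval_C, eval_X, nsmul_eq_mul, map_pow, smul_eq_mul]
    simp [hc, hq]
  · show (p 0 - r) * κ (p 0) = 0
    rw [hp0]; simp
  · show γ * p 1 * Complex.exp (B (p 0) / 2) = 0
    rw [hp1]; simp
  · show LinearIndependent ℂ ![fderiv ℂ u p, fderiv ℂ v p]
    rw [hud.fderiv, hvd.fderiv, LinearIndependent.pair_iff]
    intro s t hst
    have e0 := congrArg (fun L : (Fin 2 → ℂ) →L[ℂ] ℂ => L (Pi.single 0 1)) hst
    have e1 := congrArg (fun L : (Fin 2 → ℂ) →L[ℂ] ℂ => L (Pi.single 1 1)) hst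
    simp [π0, π1, hκ0, hγ0] at e0 e1
    exact ⟨e0, e1⟩
  · have hev : ∀ᶠ z in 𝓝 p, ∀ᶠ w in 𝓝 z, u w ^ 2 + v w ^ 2 =
        E (w 0) + c * w 1 ^ 2 * Complex.exp (B (w 0)) := by
      rw [eventually_eventually_nhds]
      have h1 : Tendsto (fun w : Fin 2 → ℂ => w 0) (𝓝 p) (𝓝 r) := by
        have := (a0 p).continuousAt
        exact this
      filter_upwards [h1.eventually hsq] with w hw
      show ((w 0 - r) * κ (w 0)) ^ 2 + (γ * w 1 * Complex.exp (B (w 0) / 2)) ^ 2 = _
      rw [hw, mul_pow, mul_pow, hγ, ← Complex.exp_nat_mul]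
      have : ((2 : ℕ) : ℂ) * (B (w 0) / 2) = B (w 0) := by
        push_cast; ring
      rw [this]
    filter_upwards [hev] with z hz
    have h2 : fderiv ℂ (fun w => u w ^ 2 + v w ^ 2) z =
        fderiv ℂ (fun w : Fin 2 → ℂ => E (w 0) + c * w 1 ^ 2 * Complex.exp (B (w 0))) z :=
      Filter.EventuallyEq.fderiv_eq hz
    have h3 : HasFDerivAt (fun w : Fin 2 → ℂ => E (w 0)) (((z 0 - r) *
        (q.eval (z 0) * Complex.exp (B (z 0)))) • π0) z :=
      comp_fderiv E _ π0 z (hE (z 0))
    have h4 : HasFDerivAt (fun w : Fin 2 → ℂ => Complex.exp (B (w 0)))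
        ((Complex.exp (B (z 0)) * β.eval (z 0)) • π0) z := by
      have h5 : HasDerivAt (fun x => Complex.exp (B x))
          (Complex.exp (B (z 0)) * β.eval (z 0)) (z 0) := (hB' (z 0)).cexp
      exact comp_fderiv _ _ π0 z h5
    have h6 : HasFDerivAt (fun w : Fin 2 → ℂ => c * w 1 ^ 2) ((c * (2 * z 1)) • π1) z := by
      have h7 : HasDerivAt (fun x : ℂ => c * x ^ 2) (c * (2 * z 1)) (z 1) := by
        have := ((hasDerivAt_id (z 1)).pow 2).const_mul c
        simpa using this
      exact comp_fderiv _ _ π1 z h7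
    have h8 := h3.add (h6.mul h4)
    have h9 : fderiv ℂ (fun w : Fin 2 → ℂ => E (w 0) + c * w 1 ^ 2 * Complex.exp (B (w 0))) z =
        _ := h8.fderiv
    rw [h2, h9]
    simp [revForm, eval_aeval_X, π0, π1]
    ring



theorem totalDegree_aeval_X (q : Polynomial ℂ) {n : ℕ} (hq : q.natDegree ≤ n) :
    (Polynomial.aeval (X 0 : Poly) q).totalDegree ≤ n := by
  rw [Polynomial.aeval_eq_sum_range' (Nat.lt_succ_of_le hq)]
  refine totalDegree_finsetSum_le fun i hi => ?_
  rw [Finset.mem_range] at hi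
  refine (totalDegree_smul_le _ _).trans ?_
  refine (totalDegree_pow_le (by simp) _).trans ?_
  omega

theorem revForm_totalDegree_fst (r : ℂ) (q β : Polynomial ℂ) (c : ℂ) {d : ℕ} (hd : 2 ≤ d)
    (hq : q.natDegree ≤ d - 1) (hβ : β.natDegree ≤ d - 2) :
    (revForm r q β c).1.totalDegree ≤ d := by
  unfold revForm
  have h1 : (X 0 - C r : Poly).totalDegree ≤ 1 := by
    rw [sub_eq_add_neg]
    refine (totalDegree_add _ _).trans (max_le (by simp) ?_)
    rw [totalDegree_neg]; simp
  have h2 := totalDegree_aeval_X q hq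
  have h3 := totalDegree_aeval_X β hβ
  have h4 : (X 1 ^ 2 : Poly).totalDegree ≤ 2 := totalDegree_pow_le (by simp) 2
  refine (totalDegree_add _ _).trans (max_le ((totalDegree_mul _ _).trans (by omega)) ?_)
  refine (totalDegree_mul _ _).trans ?_
  rw [totalDegree_C, zero_add]
  exact (totalDegree_mul _ _).trans (by omega)

theorem revForm_totalDegree_snd (r : ℂ) (q β : Polynomial ℂ) (c : ℂ) :
    (revForm r q β c).2.totalDegree ≤ 1 := by
  unfold revForm
  refine (totalDegree_mul _ _).trans ?_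
  rw [totalDegree_C]
  simp

theorem revForm_mem_forms (r : ℂ) (q β : Polynomial ℂ) (c : ℂ) {d : ℕ} (hd : 2 ≤ d)
    (hq : q.natDegree ≤ d - 1) (hβ : β.natDegree ≤ d - 2) : revForm r q β c ∈ forms d := by
  refine ⟨?_, ?_⟩
  · show (revForm r q β c).1 ∈ restrictTotalDegree (Fin 2) ℂ d
    rw [mem_restrictTotalDegree]
    exact revForm_totalDegree_fst r q β c hd hq hβ
  · show (revForm r q β c).2 ∈ restrictTotalDegree (Fin 2) ℂ d
    rw [mem_restrictTotalDegree]
    exact (revForm_totalDegree_snd r q β c).trans (by omega)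

theorem hasDegree_revForm (r : ℂ) (q β : Polynomial ℂ) (c : ℂ) {d : ℕ} (hd : 2 ≤ d)
    (hq : q.natDegree = d - 1) (hβ : β.natDegree ≤ d - 2) (hc : c ≠ 0) (hr : q.eval r ≠ 0) :
    HasDegree d (revForm r q β c) := by
  have hq0 : q ≠ 0 := by
    rintro rfl
    simp at hr
  constructor
  · have h1 : (revForm r q β c).2 = X 1 * C (2 * c) := mul_comm _ _
    have hu : IsUnit (C (2 * c) : Poly) := by
      rw [MvPolynomial.isUnit_iff_eq_C_of_isReduced]
      exact ⟨2 * c, isUnit_iff_ne_zero.mpr (mul_ne_zero two_ne_zero hc), rfl⟩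
    rw [h1, isRelPrime_comm, isRelPrime_mul_unit_right_left hu,
      (X_prime (R := ℂ) (i := (1 : Fin 2))).irreducible.isRelPrime_iff_not_dvd]
    rintro ⟨g, hg⟩
    have h2 : ((Polynomial.X - Polynomial.C r) * q) ≠ 0 :=
      mul_ne_zero (Polynomial.X_sub_C_ne_zero r) hq0
    apply h2
    apply Polynomial.funext
    intro t
    have h3 := congrArg (eval ![t, 0]) hg
    simp [revForm, eval_aeval_X] at h3
    simpa using h3
  · apply le_antisymm
    · exact max_le (revForm_totalDegree_fst r q β c hd hq.le hβ)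
        ((revForm_totalDegree_snd r q β c).trans (by omega))
    · refine le_trans ?_ (le_max_left _ _)
      have h1 : (aeval ![Polynomial.X, (0 : Polynomial ℂ)] (revForm r q β c).1).natDegree ≤
          (revForm r q β c).1.totalDegree * 1 := by
        apply aeval_natDegree_le _ le_rfl
        intro i
        fin_cases i <;> simp
      have h2 : ∀ s : Polynomial ℂ, aeval ![Polynomial.X, (0 : Polynomial ℂ)]
          (Polynomial.aeval (X 0 : Poly) s) = s := by
        intro s
        induction s using Polynomial.induction_on' with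
        | add p q hp hq => rw [map_add, map_add, hp, hq]
        | monomial n a =>
          simp [Polynomial.aeval_monomial, algebraMap_eq, Polynomial.C_mul_X_pow_eq_monomial]
      have h3 : aeval ![Polynomial.X, (0 : Polynomial ℂ)] (revForm r q β c).1 =
          (Polynomial.X - Polynomial.C r) * q := by
        simp [revForm, h2]
      rw [h3, Polynomial.natDegree_mul (Polynomial.X_sub_C_ne_zero r) hq0,
        Polynomial.natDegree_X_sub_C, hq] at h1
      omega

/-! ### The family -/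

/-- Index type of the parameters. -/
abbrev PI (d : ℕ) : Type := Fin 2 ⊕ (Fin d ⊕ Fin (d - 1))

/-- The polynomial `q`. -/
noncomputable def qOf (d : ℕ) (v : PI d → ℂ) : Polynomial ℂ :=
  ∑ i : Fin d, Polynomial.monomial (i : ℕ) (v (Sum.inr (Sum.inl i)))

/-- The polynomial `β`. -/
noncomputable def bOf (d : ℕ) (v : PI d → ℂ) : Polynomial ℂ :=
  ∑ i : Fin (d - 1), Polynomial.monomial (i : ℕ) (v (Sum.inr (Sum.inr i)))

/-- The family of forms. -/
noncomputable def revFam (d : ℕ) (v : PI d → ℂ) : Form :=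
  revForm (v (Sum.inl 0)) (qOf d v) (bOf d v) (v (Sum.inl 1))

theorem natDegree_qOf (d : ℕ) (hd : 2 ≤ d) (v : PI d → ℂ) : (qOf d v).natDegree ≤ d - 1 := by
  unfold qOf
  refine Polynomial.natDegree_sum_le_of_forall_le _ _ fun i _ => ?_
  refine (Polynomial.natDegree_monomial_le _).trans ?_
  have := i.is_lt
  omega

theorem natDegree_bOf (d : ℕ) (hd : 2 ≤ d) (v : PI d → ℂ) : (bOf d v).natDegree ≤ d - 2 := by
  unfold bOf
  refine Polynomial.natDegree_sum_le_of_forall_le _ _ fun i _ => ?_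
  refine (Polynomial.natDegree_monomial_le _).trans ?_
  have := i.is_lt
  omega

theorem revFam_mem (d : ℕ) (hd : 2 ≤ d) (v : PI d → ℂ) : revFam d v ∈ forms d :=
  revForm_mem_forms _ _ _ _ hd (natDegree_qOf d hd v) (natDegree_bOf d hd v)

theorem polyFam_qOf (d : ℕ) : PolyFam (fun v : PI d → ℂ => Polynomial.aeval (X 0 : Poly) (qOf d v)) := by
  unfold qOf
  simp only [map_sum, Polynomial.aeval_monomial, algebraMap_eq]
  exact PolyFam.sum _ fun i _ => (PolyFam.C (PolyMap.coord _)).mul (PolyFam.const _)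

theorem polyFam_bOf (d : ℕ) : PolyFam (fun v : PI d → ℂ => Polynomial.aeval (X 0 : Poly) (bOf d v)) := by
  unfold bOf
  simp only [map_sum, Polynomial.aeval_monomial, algebraMap_eq]
  exact PolyFam.sum _ fun i _ => (PolyFam.C (PolyMap.coord _)).mul (PolyFam.const _)

theorem polyMap_revFam (d : ℕ) (k : Fin 2 × (Fin 2 →₀ ℕ)) :
    PolyMap (fun v => coord (revFam d v) k) := by
  have h1 : PolyFam (fun v : PI d → ℂ => (revFam d v).1) := by
    unfold revFam revForm
    exact (((PolyFam.const _).sub (PolyFam.C (PolyMap.coord _))).mul (polyFam_qOf d)).add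
      ((PolyFam.C (PolyMap.coord _)).mul ((polyFam_bOf d).mul (PolyFam.const _)))
  have h2 : PolyFam (fun v : PI d → ℂ => (revFam d v).2) := by
    unfold revFam revForm
    exact (PolyFam.C ((PolyMap.const _).mul (PolyMap.coord _))).mul (PolyFam.const _)
  unfold coord
  split_ifs
  · exact h1 _
  · exact h2 _




theorem exists_par (d : ℕ) (hd : 2 ≤ d) (r c : ℂ) (q β : Polynomial ℂ)
    (hq : q.natDegree ≤ d - 1) (hβ : β.natDegree ≤ d - 2) :
    ∃ v : PI d → ℂ, revFam d v = revForm r q β c := by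
  have key : ∀ (n : ℕ) (s : Polynomial ℂ), s.natDegree < n →
      ∑ i : Fin n, Polynomial.monomial (i : ℕ) (s.coeff i) = s := by
    intro n s hs
    rw [Fin.sum_univ_eq_sum_range (fun i => Polynomial.monomial i (s.coeff i)) n]
    exact (s.as_sum_range' n hs).symm
  refine ⟨Sum.elim ![r, c] (Sum.elim (fun i => q.coeff i) (fun i => β.coeff i)), ?_⟩
  have h1 : qOf d (Sum.elim ![r, c] (Sum.elim (fun i => q.coeff i) (fun i => β.coeff i))) = q :=
    key d q (by omega)
  have h2 : bOf d (Sum.elim ![r, c] (Sum.elim (fun i => q.coeff i) (fun i => β.coeff i))) = β :=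
    key (d - 1) β (by omega)
  unfold revFam
  rw [h1, h2]
  rfl

theorem parSet_revFam_subset (d : ℕ) (hd : 2 ≤ d) : parSet d (revFam d) ⊆ centerLocus d := by
  have hlt : d - 1 < d := by omega
  have hg : PolyMap (fun v : PI d → ℂ => v (Sum.inl 1) * v (Sum.inr (Sum.inl ⟨d - 1, hlt⟩)) *
      (qOf d v).eval (v (Sum.inl 0))) := by
    refine ((PolyMap.coord _).mul (PolyMap.coord _)).mul ?_
    have h1 : ∀ v : PI d → ℂ, (qOf d v).eval (v (Sum.inl 0)) =
        ∑ i : Fin d, v (Sum.inr (Sum.inl i)) * ∏ _j ∈ Finset.range (i : ℕ), v (Sum.inl 0) := by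
      intro v
      unfold qOf
      rw [Polynomial.eval_finsetSum]
      refine Finset.sum_congr rfl fun i _ => ?_
      rw [Polynomial.eval_monomial, Finset.prod_const, Finset.card_range]
    simp only [h1]
    exact PolyMap.sum _ fun i _ => (PolyMap.coord _).mul (PolyMap.prod _ fun _ _ => PolyMap.coord _)
  refine parSet_subset_of_dense d (revFam d) (polyMap_revFam d) (revFam_mem d hd) _ hg ?_ _
    (isAlgebraic_zariskiClosure _) ?_
  · refine ⟨Sum.elim (fun _ => 1) (Sum.elim (fun i => if (i : ℕ) = d - 1 then 1 else 0)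
      (fun _ => 0)), ?_⟩
    have h1 : qOf d (Sum.elim (fun _ => 1) (Sum.elim (fun i => if (i : ℕ) = d - 1 then 1 else 0)
      (fun _ => 0))) = Polynomial.monomial (d - 1) 1 := by
      unfold qOf
      rw [Finset.sum_eq_single (⟨d - 1, hlt⟩ : Fin d)]
      · simp
      · intro i _ hi
        have : (i : ℕ) ≠ d - 1 := fun h => hi (Fin.ext h)
        simp [this]
      · simp
    rw [h1]
    simp
  · intro v hv ω h0 hω
    have hc : v (Sum.inl 1) ≠ 0 := left_ne_zero_of_mul (left_ne_zero_of_mul hv)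
    have hl : v (Sum.inr (Sum.inl ⟨d - 1, hlt⟩)) ≠ 0 :=
      right_ne_zero_of_mul (left_ne_zero_of_mul hv)
    have he : (qOf d v).eval (v (Sum.inl 0)) ≠ 0 := right_ne_zero_of_mul hv
    have hcoeff : (qOf d v).coeff (d - 1) = v (Sum.inr (Sum.inl ⟨d - 1, hlt⟩)) := by
      unfold qOf
      rw [Polynomial.finsetSum_coeff, Finset.sum_eq_single (⟨d - 1, hlt⟩ : Fin d)]
      · simp
      · intro i _ hi
        have : (i : ℕ) ≠ d - 1 := fun h => hi (Fin.ext h)
        rw [Polynomial.coeff_monomial, if_neg this]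
      · simp
    have hdeg : (qOf d v).natDegree = d - 1 :=
      le_antisymm (natDegree_qOf d hd v)
        (Polynomial.le_natDegree_of_ne_zero (by rw [hcoeff]; exact hl))
    refine subset_zariskiClosure _ ⟨ω, h0, ?_, ⟨![v (Sum.inl 0), 0], ?_⟩, rfl⟩
    · rw [hω]
      exact hasDegree_revForm _ _ _ _ hd hdeg (natDegree_bOf d hd v) hc he
    · rw [hω]
      exact isCenter_revForm _ _ _ _ hc he

theorem diff_quadPoly (A : Polynomial ℂ) :
    diff (quadPoly A) = (Polynomial.aeval (X 0 : Poly) A.derivative, C 2 * X 1) := by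
  unfold diff quadPoly
  apply Prod.ext
  · show pderiv 0 _ = _
    rw [map_add, pderiv_aeval_X, Derivation.leibniz_pow,
      pderiv_X_of_ne (show (1 : Fin 2) ≠ 0 by decide)]
    simp
  · show pderiv 1 _ = _
    rw [map_add, pderiv_one_aeval_X, Derivation.leibniz_pow, pderiv_X_self]
    rw [show (C 2 : Poly) = 2 from map_ofNat C 2]
    simp

theorem quadPoly_totalDegree_le (A : Polynomial ℂ) {d : ℕ} (hd : 2 ≤ d) (hA : A.natDegree ≤ d) :
    (quadPoly A).totalDegree ≤ d :=
  (totalDegree_add _ _).trans (max_le (totalDegree_aeval_X A hA)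
    ((totalDegree_pow_le (by simp) 2).trans hd))

theorem diff_quadPoly_ne_zero (A : Polynomial ℂ) : diff (quadPoly A) ≠ 0 := by
  rw [diff_quadPoly]
  intro h
  have h1 : (C 2 * X 1 : Poly) = 0 := congrArg Prod.snd h
  rcases mul_eq_zero.mp h1 with h2 | h2
  · rw [C_eq_zero] at h2
    exact two_ne_zero h2
  · exact X_ne_zero _ h2

theorem passes_parSet (d : ℕ) (hd : 2 ≤ d) (A : Polynomial ℂ) (hA2 : 2 ≤ A.natDegree)
    (hA : A.natDegree ≤ d) : Passes (parSet d (revFam d)) (quadPoly A) := by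
  have h1 : A.derivative.degree ≠ 0 := by
    have h2 : A.derivative.natDegree = A.natDegree - 1 := Polynomial.natDegree_derivative _
    intro h3
    have h4 : A.derivative.natDegree = 0 := Polynomial.natDegree_eq_of_degree_eq_some h3
    omega
  obtain ⟨r, hr⟩ := IsAlgClosed.exists_root A.derivative h1
  obtain ⟨q, hq⟩ := Polynomial.dvd_iff_isRoot.mpr hr
  have hA0 : A.derivative ≠ 0 := by
    intro h0
    have h2 : A.derivative.natDegree = A.natDegree - 1 := Polynomial.natDegree_derivative _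
    rw [h0] at h2
    simp at h2
    omega
  have hq0 : q ≠ 0 := by
    rintro rfl
    rw [mul_zero] at hq
    exact hA0 hq
  have hqd : q.natDegree ≤ d - 1 := by
    have h2 := congrArg Polynomial.natDegree hq
    rw [Polynomial.natDegree_mul (Polynomial.X_sub_C_ne_zero r) hq0,
      Polynomial.natDegree_X_sub_C, Polynomial.natDegree_derivative] at h2
    omega
  obtain ⟨v, hv⟩ := exists_par d hd r 1 q 0 hqd (by simp)
  have hform : revForm r q 0 1 = diff (quadPoly A) := by
    rw [diff_quadPoly, hq]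
    unfold revForm
    simp
  refine ⟨⟨diff (quadPoly A), diff_mem_forms (quadPoly_totalDegree_le A hd hA)⟩,
    fun h => diff_quadPoly_ne_zero A (congrArg Subtype.val h), rfl, v, _, _, ?_, rfl⟩
  rw [hv, hform]

/-- The form `(1 + x y²) dx + 2 y dy`. -/
noncomputable def starForm : Form := (1 + X 0 * X 1 ^ 2, C 2 * X 1)

theorem starForm_mem (d : ℕ) (hd : 3 ≤ d) : starForm ∈ forms d := by
  refine ⟨?_, ?_⟩
  · show (1 + X 0 * X 1 ^ 2 : Poly) ∈ restrictTotalDegree (Fin 2) ℂ d
    rw [mem_restrictTotalDegree]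
    refine (totalDegree_add _ _).trans (max_le (by simp) ((totalDegree_mul _ _).trans ?_))
    have : (X 1 ^ 2 : Poly).totalDegree ≤ 2 := totalDegree_pow_le (by simp) 2
    simp only [totalDegree_X]
    omega
  · show (C 2 * X 1 : Poly) ∈ restrictTotalDegree (Fin 2) ℂ d
    rw [mem_restrictTotalDegree]
    refine (totalDegree_mul _ _).trans ?_
    rw [totalDegree_C, totalDegree_X]
    omega

theorem starForm_ne_zero : starForm ≠ 0 := by
  intro h
  have h1 : (C 2 * X 1 : Poly) = 0 := congrArg Prod.snd h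
  rcases mul_eq_zero.mp h1 with h2 | h2
  · rw [C_eq_zero] at h2
    exact two_ne_zero h2
  · exact X_ne_zero _ h2

theorem starForm_mem_closure (d : ℕ) (hd : 3 ≤ d) (ω : forms d) (h : ω ≠ 0)
    (hω : (ω : Form) = starForm) :
    Projectivization.mk ℂ ω h ∈ zariskiClosure (parSet d (revFam d)) := by
  have hη : ((-(X 0 : Poly), (0 : Poly)) : Form) ∈ forms d := by
    refine ⟨?_, ?_⟩
    · show (-(X 0 : Poly)) ∈ restrictTotalDegree (Fin 2) ℂ d
      rw [mem_restrictTotalDegree, totalDegree_neg, totalDegree_X]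
      omega
    · show (0 : Poly) ∈ restrictTotalDegree (Fin 2) ℂ d
      exact Submodule.zero_mem _
  refine mem_zariskiClosure_of_line _ ω ⟨_, hη⟩ h fun t ht hnz => ?_
  obtain ⟨v, hv⟩ := exists_par d (by omega) t⁻¹ 1 (Polynomial.C (-t)) Polynomial.X
    (by simp) (by simp; omega)
  refine ⟨v, _, hnz, ?_, rfl⟩
  rw [hv]
  have h1 : ((ω + t • (⟨_, hη⟩ : forms d) : forms d) : Form) =
      starForm + t • ((-(X 0 : Poly), (0 : Poly)) : Form) := by
    rw [← hω]; rfl
  rw [h1]
  unfold starForm revForm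
  apply Prod.ext
  · have h2 : (C t⁻¹ : Poly) * C t = 1 := by
      rw [← C_mul, inv_mul_cancel₀ ht, C_1]
    simp only [Prod.fst_add, Prod.smul_fst, Polynomial.aeval_C, Polynomial.aeval_X,
      algebraMap_eq, C_neg, C_1, one_mul, smul_eq_C_mul]
    linear_combination (-1 : Poly) * h2
  · simp



/-! ## Polynomial inverse integrating factors -/

/-- `F dω - dF ∧ ω` as a multiple of `dx ∧ dy`. -/
noncomputable def Tif (ω : Form) (F : Poly) : Poly :=
  F * (pderiv 0 ω.2 - pderiv 1 ω.1) - (pderiv 0 F * ω.2 - pderiv 1 F * ω.1)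

theorem Tif_logForm {s : ℕ} (f : Fin s → Poly) (lam : Fin s → ℂ) :
    Tif (logForm f lam) (∏ j, f j) = 0 := by
  unfold Tif
  rw [logForm_fst, logForm_snd]
  simp only [map_sum]
  rw [← Finset.sum_sub_distrib, Finset.mul_sum, Finset.mul_sum, Finset.mul_sum,
    ← Finset.sum_sub_distrib, ← Finset.sum_sub_distrib]
  refine Finset.sum_eq_zero fun j _ => ?_
  rw [← Finset.mul_prod_erase Finset.univ f (Finset.mem_univ j)]
  generalize ∏ k ∈ Finset.univ.erase j, f k = G
  rw [pderiv_C_mul, pderiv_C_mul]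
  simp only [Derivation.leibniz, smul_eq_mul]
  rw [pderiv_comm (f j)]
  ring

/-- Exponent vectors. -/
noncomputable def ev (i j : ℕ) : Fin 2 →₀ ℕ := Finsupp.single 0 i + Finsupp.single 1 j

theorem ev_zero (i j : ℕ) : ev i j 0 = i := by simp [ev]

theorem ev_one (i j : ℕ) : ev i j 1 = j := by simp [ev]

theorem ev_eq (m : Fin 2 →₀ ℕ) : m = ev (m 0) (m 1) := by
  rw [finsupp_eq_iff, ev_zero, ev_one]
  exact ⟨rfl, rfl⟩

theorem coeff_ev_mul (a b i j : ℕ) (r : ℂ) (p : Poly) :
    coeff (ev a b) (monomial (ev i j) r * p) =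
      if i ≤ a ∧ j ≤ b then r * coeff (ev (a - i) (b - j)) p else 0 := by
  classical
  rw [coeff_monomial_mul']
  have h1 : ev i j ≤ ev a b ↔ i ≤ a ∧ j ≤ b := by
    rw [Finsupp.le_def, Fin.forall_fin_two, ev_zero, ev_zero, ev_one, ev_one]
  have h2 : ev a b - ev i j = ev (a - i) (b - j) := by
    rw [finsupp_eq_iff, Finsupp.tsub_apply, Finsupp.tsub_apply]
    simp [ev_zero, ev_one]
  rw [h2]
  simp only [h1]

theorem coeff_ev_dx (a b : ℕ) (p : Poly) :
    coeff (ev a b) (pderiv 0 p) = ((a : ℂ) + 1) * coeff (ev (a + 1) b) p := by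
  rw [coeff_pderiv]
  have : ev a b + Finsupp.single 0 1 = ev (a + 1) b := by
    rw [finsupp_eq_iff]; simp [ev_zero, ev_one, Finsupp.add_apply]
  rw [this, ev_zero, mul_comm]

theorem coeff_ev_dy (a b : ℕ) (p : Poly) :
    coeff (ev a b) (pderiv 1 p) = ((b : ℂ) + 1) * coeff (ev a (b + 1)) p := by
  rw [coeff_pderiv]
  have : ev a b + Finsupp.single 1 1 = ev a (b + 1) := by
    rw [finsupp_eq_iff]; simp [ev_zero, ev_one, Finsupp.add_apply]
  rw [this, ev_one, mul_comm]

theorem Tif_star (F : Poly) : Tif starForm F =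
    pderiv 1 F + monomial (ev 1 2) 1 * pderiv 1 F - monomial (ev 0 1) 2 * pderiv 0 F -
      monomial (ev 1 1) 2 * F := by
  have e1 : (monomial (ev 1 2) 1 : Poly) = X 0 * X 1 ^ 2 := by
    rw [X_pow_eq_monomial, X, monomial_mul]; simp [ev]
  have e2 : (monomial (ev 0 1) 2 : Poly) = C 2 * X 1 := by
    rw [X, C_mul_monomial]; simp [ev]
  have e3 : (monomial (ev 1 1) 2 : Poly) = C 2 * (X 0 * X 1) := by
    rw [X, X, monomial_mul, C_mul_monomial]; simp [ev]
  rw [e1, e2, e3]
  unfold Tif starForm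
  simp only [map_add, Derivation.leibniz, pderiv_C, Derivation.leibniz_pow, pderiv_X_self,
    pderiv_X_of_ne (show (1 : Fin 2) ≠ 0 by decide),
    pderiv_X_of_ne (show (0 : Fin 2) ≠ 1 by decide), smul_eq_mul, Derivation.map_one_eq_zero,
    nsmul_eq_mul]
  rw [show (C 2 : Poly) = 2 from map_ofNat C 2]
  push_cast
  ring

theorem star_injective (F : Poly) (h : Tif starForm F = 0) : F = 0 := by
  have hc : ∀ a b : ℕ, ((b : ℂ) + 1) * coeff (ev a (b + 1)) F +
      (if 1 ≤ a ∧ 2 ≤ b then 1 * ((((b - 2 : ℕ) : ℂ) + 1) * coeff (ev (a - 1) (b - 2 + 1)) F)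
        else 0) -
      (if 0 ≤ a ∧ 1 ≤ b then 2 * ((((a - 0 : ℕ) : ℂ) + 1) * coeff (ev (a - 0 + 1) (b - 1)) F)
        else 0) -
      (if 1 ≤ a ∧ 1 ≤ b then 2 * coeff (ev (a - 1) (b - 1)) F else 0) = 0 := by
    intro a b
    have h1 := congrArg (coeff (ev a b)) h
    rw [Tif_star, coeff_sub, coeff_sub, coeff_add, coeff_ev_mul, coeff_ev_mul, coeff_ev_mul,
      coeff_ev_dy, coeff_ev_dy, coeff_ev_dx, coeff_zero] at h1
    exact h1
  have hbig : ∀ i j : ℕ, F.totalDegree < i + j → coeff (ev i j) F = 0 := by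
    intro i j hij
    by_contra hne
    have := sum_le_totalDegree hne
    rw [ev_zero, ev_one] at this
    omega
  -- the basic recursion
  have E1 : ∀ n m : ℕ, ((m : ℂ) + 2) * coeff (ev (n + 1) (m + 2)) F +
      ((m : ℂ) - 2) * coeff (ev n m) F - 2 * ((n : ℂ) + 2) * coeff (ev (n + 2) m) F = 0 := by
    intro n m
    have h1 := hc (n + 1) (m + 1)
    rcases Nat.eq_zero_or_pos m with hm | hm
    · subst hm
      simp at h1
      push_cast
      linear_combination h1
    · obtain ⟨k, rfl⟩ : ∃ k, m = k + 1 := ⟨m - 1, by omega⟩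
      simp at h1
      push_cast at h1 ⊢
      linear_combination h1
  have E0 : ∀ m : ℕ, ((m : ℂ) + 2) * coeff (ev 0 (m + 2)) F - 2 * coeff (ev 1 m) F = 0 := by
    intro m
    have h1 := hc 0 (m + 1)
    simp at h1
    linear_combination h1
  have E2 : ∀ a : ℕ, coeff (ev a 1) F = 0 := by
    intro a
    have h1 := hc a 0
    simp at h1
    exact h1
  have S1 : ∀ k n m : ℕ, 3 ≤ m → F.totalDegree < n + m + k → coeff (ev n m) F = 0 := by
    intro k
    induction k with
    | zero => intro n m _ hlt; exact hbig n m hlt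
    | succ k ih =>
      intro n m hm hlt
      have h1 := E1 n m
      rw [ih (n + 1) (m + 2) (by omega) (by omega), ih (n + 2) m hm (by omega)] at h1
      have h2 : ((m : ℂ) - 2) ≠ 0 := by
        rw [sub_ne_zero]
        have : m ≠ 2 := by omega
        exact_mod_cast this
      have h3 : ((m : ℂ) - 2) * coeff (ev n m) F = 0 := by linear_combination h1
      exact (mul_eq_zero.mp h3).resolve_left h2
  have S1' : ∀ n m : ℕ, 3 ≤ m → coeff (ev n m) F = 0 := fun n m hm =>
    S1 (F.totalDegree + 1) n m hm (by omega)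
  have S2 : ∀ n : ℕ, coeff (ev (n + 1) 2) F = 0 := by
    intro n
    rcases Nat.eq_zero_or_pos n with hn | hn
    · subst hn
      have h1 := E0 2
      rw [S1' 0 4 (by omega)] at h1
      have : (2 : ℂ) * coeff (ev 1 2) F = 0 := by linear_combination -h1
      exact (mul_eq_zero.mp this).resolve_left two_ne_zero
    · obtain ⟨k, rfl⟩ : ∃ k, n = k + 1 := ⟨n - 1, by omega⟩
      have h1 := E1 k 2
      rw [S1' (k + 1) 4 (by omega)] at h1
      have h2 : (2 * ((k : ℂ) + 2)) * coeff (ev (k + 2) 2) F = 0 := by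
        push_cast at h1
        linear_combination -h1
      have h3 : (2 * ((k : ℂ) + 2)) ≠ 0 := by
        apply mul_ne_zero two_ne_zero
        exact_mod_cast (Nat.succ_ne_zero (k + 1))
      exact (mul_eq_zero.mp h2).resolve_left h3
  have S3 : ∀ k n : ℕ, F.totalDegree < n + k → coeff (ev n 0) F = 0 := by
    intro k
    induction k with
    | zero => intro n hlt; exact hbig n 0 (by omega)
    | succ k ih =>
      intro n hlt
      have h1 := E1 n 0
      rw [ih (n + 2) (by omega), S2 n] at h1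
      push_cast at h1
      have : (2 : ℂ) * coeff (ev n 0) F = 0 := by linear_combination -h1
      exact (mul_eq_zero.mp this).resolve_left two_ne_zero
  have S3' : ∀ n : ℕ, coeff (ev n 0) F = 0 := fun n => S3 (F.totalDegree + 1) n (by omega)
  have S4 : coeff (ev 0 2) F = 0 := by
    have h1 := E0 0
    rw [S3' 1] at h1
    push_cast at h1
    have : (2 : ℂ) * coeff (ev 0 2) F = 0 := by linear_combination h1
    exact (mul_eq_zero.mp this).resolve_left two_ne_zero
  ext m
  rw [coeff_zero, ev_eq m]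
  generalize m 0 = i
  generalize m 1 = j
  rcases Nat.lt_or_ge j 3 with hj | hj
  · interval_cases j
    · exact S3' i
    · exact E2 i
    · rcases Nat.eq_zero_or_pos i with hi | hi
      · subst hi; exact S4
      · obtain ⟨k, rfl⟩ : ∃ k, i = k + 1 := ⟨i - 1, by omega⟩
        exact S2 k
  · exact S1' i j hj




theorem Tif_add (ω : Form) (F G : Poly) : Tif ω (F + G) = Tif ω F + Tif ω G := by
  unfold Tif
  simp only [map_add]
  ring

theorem Tif_C_mul (ω : Form) (c : ℂ) (F : Poly) : Tif ω (C c * F) = C c * Tif ω F := by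
  unfold Tif
  rw [pderiv_C_mul, pderiv_C_mul]
  ring

theorem Tif_smul (ω : Form) (a : ℂ) (F : Poly) : Tif (a • ω) F = C a * Tif ω F := by
  unfold Tif
  simp only [Prod.smul_fst, Prod.smul_snd, smul_eq_C_mul, pderiv_C_mul]
  ring

theorem Tif_sum {ι : Type} (ω : Form) (s : Finset ι) (F : ι → Poly) :
    Tif ω (∑ i ∈ s, F i) = ∑ i ∈ s, Tif ω (F i) := by
  classical
  induction s using Finset.induction_on with
  | empty => simp [Tif]
  | insert a s ha ih => rw [Finset.sum_insert ha, Finset.sum_insert ha, Tif_add, ih]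

theorem Tif_poly (ω : Form) {D : ℕ} (u : T D → ℂ) :
    Tif ω (poly D u) = ∑ t, C (u t) * Tif ω (monomial (mT t) 1) := by
  unfold poly
  rw [Tif_sum]
  refine Finset.sum_congr rfl fun t _ => ?_
  rw [← Tif_C_mul, C_mul_monomial, mul_one]

/-- The matrix of `F ↦ F dω - dF ∧ ω` on polynomials of degree at most `d + 1`. -/
noncomputable def MT (d : ℕ) (ω : Form) : Matrix (T (2 * d + 2)) (T (d + 1)) ℂ :=
  fun m t => coeff (mT m) (Tif ω (monomial (mT t) 1))

theorem MT_mulVec (d : ℕ) (ω : Form) (u : T (d + 1) → ℂ) (m : T (2 * d + 2)) :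
    (MT d ω).mulVec u m = coeff (mT m) (Tif ω (poly (d + 1) u)) := by
  rw [Tif_poly, coeff_sum]
  unfold Matrix.mulVec dotProduct MT
  refine Finset.sum_congr rfl fun t _ => ?_
  rw [coeff_C_mul, mul_comm]

theorem totalDegree_sub_le' {f g : Poly} {n : ℕ} (hf : f.totalDegree ≤ n)
    (hg : g.totalDegree ≤ n) : (f - g).totalDegree ≤ n := by
  rw [sub_eq_add_neg]
  refine (totalDegree_add _ _).trans (max_le hf ?_)
  rwa [totalDegree_neg]

theorem totalDegree_Tif (d : ℕ) (ω : forms d) {F : Poly} (hF : F.totalDegree ≤ d + 1) :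
    (Tif (ω : Form) F).totalDegree ≤ 2 * d + 2 := by
  have h1 : (ω : Form).1.totalDegree ≤ d := (mem_restrictTotalDegree _ _ _).mp ω.2.1
  have h2 : (ω : Form).2.totalDegree ≤ d := (mem_restrictTotalDegree _ _ _).mp ω.2.2
  have hd : ∀ (i : Fin 2) (p : Poly), (pderiv i p).totalDegree ≤ p.totalDegree := fun i p =>
    (totalDegree_pderiv_le i p).trans (Nat.sub_le _ _)
  have hm : ∀ (p q : Poly), p.totalDegree ≤ d + 1 → q.totalDegree ≤ d →
      (p * q).totalDegree ≤ 2 * d + 2 := fun p q hp hq =>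
    (totalDegree_mul _ _).trans (by omega)
  unfold Tif
  refine totalDegree_sub_le' (hm _ _ hF (totalDegree_sub_le' ((hd _ _).trans h2)
    ((hd _ _).trans h1))) (totalDegree_sub_le' (hm _ _ ((hd _ _).trans hF) h2)
    (hm _ _ ((hd _ _).trans hF) h1))

/-- The form with given coordinates. -/
noncomputable def formOf (d : ℕ) (v : V d → ℂ) : Form :=
  (poly d (fun t => v (0, t)), poly d (fun t => v (1, t)))

theorem formOf_coordV {d : ℕ} (ω : forms d) : formOf d (coordV ω) = (ω : Form) := by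
  have h1 : (ω : Form).1.totalDegree ≤ d := (mem_restrictTotalDegree _ _ _).mp ω.2.1
  have h2 : (ω : Form).2.totalDegree ≤ d := (mem_restrictTotalDegree _ _ _).mp ω.2.2
  apply Prod.ext
  · exact poly_coeff h1
  · exact poly_coeff h2

theorem polyFam_formOf (d : ℕ) (F : Poly) : PolyFam (fun v => Tif (formOf d v) F) := by
  have h1 : PolyFam (fun v => (formOf d v).1) := polyFam_poly _ fun t => PolyMap.coord _
  have h2 : PolyFam (fun v => (formOf d v).2) := polyFam_poly _ fun t => PolyMap.coord _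
  unfold Tif
  exact ((PolyFam.const _).mul ((h2.pderiv 0).sub (h1.pderiv 1))).sub
    (((PolyFam.const _).mul h2).sub ((PolyFam.const _).mul h1))

theorem polyMap_det {σ κ : Type} [Fintype κ] [DecidableEq κ] (A : (σ → ℂ) → Matrix κ κ ℂ)
    (hA : ∀ i j, PolyMap (fun v => A v i j)) : PolyMap (fun v => (A v).det) := by
  simp only [Matrix.det_apply']
  exact PolyMap.sum _ fun τ _ => (PolyMap.const _).mul (PolyMap.prod _ fun i _ => hA _ _)

theorem exists_leftInverse (d : ℕ) (ω : Form) (hinj : ∀ u : T (d + 1) → ℂ,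
    (MT d ω).mulVec u = 0 → u = 0) : ∃ N : Matrix (T (d + 1)) (T (2 * d + 2)) ℂ,
      N * MT d ω = 1 := by
  have hker : LinearMap.ker (Matrix.mulVecLin (MT d ω)) = ⊥ := by
    rw [LinearMap.ker_eq_bot']
    intro u hu
    exact hinj u hu
  obtain ⟨g, hg⟩ := LinearMap.exists_leftInverse_of_injective _ hker
  refine ⟨LinearMap.toMatrix' g, ?_⟩
  have h1 : LinearMap.toMatrix' (Matrix.mulVecLin (MT d ω)) = MT d ω := by
    rw [← Matrix.toLin'_apply', LinearMap.toMatrix'_toLin']
  rw [← h1, ← LinearMap.toMatrix'_comp, hg, LinearMap.toMatrix'_id]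

/-- A foliation without polynomial inverse integrating factor of degree at most `d + 1` is not in
the closure of a logarithmic family. -/
theorem not_mem_closure_logFamily (d : ℕ) (ω₀ : forms d) (h0 : ω₀ ≠ 0)
    (hinj : ∀ F : Poly, Tif (ω₀ : Form) F = 0 → F = 0) {s : ℕ} (D : Fin s → ℕ)
    (hsum : ∑ j, D j ≤ d + 1) :
    Projectivization.mk ℂ ω₀ h0 ∉ zariskiClosure (logFamily d D) := by
  classical
  have hinj' : ∀ u : T (d + 1) → ℂ, (MT d (ω₀ : Form)).mulVec u = 0 → u = 0 := by
    intro u hu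
    have h1 : Tif (ω₀ : Form) (poly (d + 1) u) = 0 := by
      ext m
      rw [coeff_zero]
      by_cases hm : m 0 + m 1 ≤ 2 * d + 2
      · obtain ⟨t, rfl⟩ := exists_mT m hm
        rw [← MT_mulVec, hu]
        rfl
      · by_contra hne
        exact hm ((sum_le_totalDegree hne).trans (totalDegree_Tif d ω₀ (totalDegree_poly u)))
    have h2 := hinj _ h1
    funext t
    rw [← coeff_poly u t, h2]
    simp
  obtain ⟨N, hN⟩ := exists_leftInverse d _ hinj'
  have hdet : PolyMap (fun v : V d → ℂ => (N * MT d (formOf d v)).det) := by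
    apply polyMap_det
    intro i j
    simp only [Matrix.mul_apply]
    exact PolyMap.sum _ fun m _ => (PolyMap.const _).mul (polyFam_formOf d _ (mT m))
  obtain ⟨P, hP0⟩ := hdet
  have hP : ∀ v, (N * MT d (formOf d v)).det = eval v P := hP0
  -- value at `ω₀`
  have hstar : eval (coordV ω₀) P = 1 := by
    rw [← hP, formOf_coordV, hN, Matrix.det_one]
  -- vanishing at the logarithmic forms
  have hlog : ∀ (f : Fin s → Poly) (lam : Fin s → ℂ), (∀ j, (f j).totalDegree ≤ D j) →
      ∀ (ω : forms d), ω ≠ 0 → (ω : Form) = logForm f lam → ∀ a : ℂ,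
        eval (fun k => a * coordV ω k) P = 0 := by
    intro f lam hf ω hne hω a
    have hF : ∏ j, f j ≠ 0 := by
      intro h1
      obtain ⟨j, -, hj⟩ := Finset.prod_eq_zero_iff.mp h1
      apply hne
      apply Subtype.ext
      rw [hω]
      show logForm f lam = 0
      unfold logForm
      refine Finset.sum_eq_zero fun i _ => ?_
      by_cases hij : i = j
      · subst hij
        rw [hj]
        have : diff (0 : Poly) = 0 := by unfold diff; simp
        rw [this, smul_zero, smul_zero]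
      · rw [Finset.prod_eq_zero (Finset.mem_erase.mpr ⟨Ne.symm hij, Finset.mem_univ j⟩) hj,
          zero_smul, smul_zero]
    have hFd : (∏ j, f j).totalDegree ≤ d + 1 :=
      (totalDegree_finsetProd _ _).trans ((Finset.sum_le_sum fun j _ => hf j).trans hsum)
    have h1 : (fun k => a * coordV ω k) = coordV (a • ω) := by
      funext k
      have := congrFun (coord_smul (ω : Form) a) (k.1, mT k.2)
      exact this.symm
    rw [h1, ← hP, formOf_coordV]
    have h2 : ((a • ω : forms d) : Form) = a • logForm f lam := by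
      rw [← hω]; rfl
    rw [h2]
    apply Matrix.exists_mulVec_eq_zero_iff.mp
    refine ⟨fun t => coeff (mT t) (∏ j, f j), ?_, ?_⟩
    · intro h3
      apply hF
      rw [← poly_coeff hFd, h3]
      unfold poly
      simp
    · rw [← Matrix.mulVec_mulVec]
      have h4 : (MT d (a • logForm f lam)).mulVec (fun t => coeff (mT t) (∏ j, f j)) = 0 := by
        funext m
        rw [MT_mulVec, poly_coeff hFd, Tif_smul, Tif_logForm, mul_zero]
        simp
      rw [h4, Matrix.mulVec_zero]
  obtain ⟨n, hn⟩ : ∃ n, eval (coordV ω₀) (homogeneousComponent n P) ≠ 0 := by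
    by_contra hall
    push Not at hall
    have h1 : eval (coordV ω₀) P = 0 := by
      rw [← sum_homogeneousComponent P, map_sum]
      exact Finset.sum_eq_zero fun m _ => hall m
    rw [h1] at hstar
    exact zero_ne_one hstar
  have hS : ∀ Φ ∈ ({rename (fun k : V d => (k.1, mT k.2)) (homogeneousComponent n P)} :
      Set PolyFun), ∃ m : ℕ, Φ.IsHomogeneous m := by
    intro Φ hΦ
    rw [Set.mem_singleton_iff.mp hΦ]
    exact ⟨n, (homogeneousComponent_isHomogeneous n P).rename_isHomogeneous⟩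
  intro hmem
  have hsub := zariskiClosure_subset (Z := logFamily d D)
    (W := Center.zeroLocus d {rename (fun k : V d => (k.1, mT k.2)) (homogeneousComponent n P)})
    ⟨_, hS, rfl⟩ (by
      rintro x ⟨f, lam, hf, ω, h, hω, rfl⟩
      rw [mk_mem_zeroLocus _ hS]
      intro Φ hΦ
      rw [Set.mem_singleton_iff.mp hΦ, eval_rename]
      exact eval_homogeneousComponent_eq_zero P (coordV ω) (hlog f lam hf ω h hω) n)
  have h1 := hsub hmem
  rw [mk_mem_zeroLocus _ hS] at h1
  have h2 := h1 _ rfl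
  rw [eval_rename] at h2
  exact hn h2




theorem quadPoly_totalDegree (A : Polynomial ℂ) (hA : 2 ≤ A.natDegree) :
    (quadPoly A).totalDegree = A.natDegree := by
  apply le_antisymm (quadPoly_totalDegree_le A hA le_rfl)
  have h1 : (aeval ![Polynomial.X, (0 : Polynomial ℂ)] (quadPoly A)).natDegree ≤
      (quadPoly A).totalDegree * 1 := by
    apply aeval_natDegree_le _ le_rfl
    intro i
    fin_cases i <;> simp
  have h2 : ∀ s : Polynomial ℂ, aeval ![Polynomial.X, (0 : Polynomial ℂ)]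
      (Polynomial.aeval (X 0 : Poly) s) = s := by
    intro s
    induction s using Polynomial.induction_on' with
    | add p q hp hq => rw [map_add, map_add, hp, hq]
    | monomial n a =>
      simp [Polynomial.aeval_monomial, algebraMap_eq, Polynomial.C_mul_X_pow_eq_monomial]
  have h3 : aeval ![Polynomial.X, (0 : Polynomial ℂ)] (quadPoly A) = A := by
    unfold quadPoly
    rw [map_add, h2]
    simp
  rw [h3] at h1
  omega

/-- The polynomials `A(x) + y²` satisfy the conditions of the problem if `A'` has only simple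
roots, at which `A` takes distinct values. -/
theorem asInProblem_quadPoly (A : Polynomial ℂ) (hA : 2 ≤ A.natDegree)
    (h1 : ∀ x, A.derivative.eval x = 0 → A.derivative.derivative.eval x ≠ 0)
    (h2 : ∀ x y, A.derivative.eval x = 0 → A.derivative.eval y = 0 → A.eval x = A.eval y →
      x = y) : AsInProblem A.natDegree (quadPoly A) := by
  have hx : pderiv 0 (quadPoly A) = Polynomial.aeval (X 0 : Poly) A.derivative :=
    congrArg Prod.fst (diff_quadPoly A)
  have hy : pderiv 1 (quadPoly A) = C 2 * X 1 := congrArg Prod.snd (diff_quadPoly A)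
  have hval : ∀ p, eval p (quadPoly A) = A.eval (p 0) + p 1 ^ 2 := by
    intro p
    unfold quadPoly
    rw [map_add, eval_aeval_X]
    simp
  refine ⟨quadPoly_totalDegree A hA, ?_, ?_⟩
  · intro p hp0 hp1
    rw [hx, eval_aeval_X] at hp0
    rw [hx, hy, pderiv_aeval_X, pderiv_C_mul, pderiv_C_mul, pderiv_X_self,
      pderiv_X_of_ne (show (1 : Fin 2) ≠ 0 by decide)]
    have h3 := h1 _ hp0
    simp [eval_aeval_X, h3]
  · intro p q hp0 hp1 hq0 hq1 hpq
    rw [hx, eval_aeval_X] at hp0 hq0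
    rw [hy] at hp1 hq1
    simp at hp1 hq1
    rw [hval, hval, hp1, hq1] at hpq
    have h3 := h2 (p 0) (q 0) hp0 hq0 (by simpa using hpq)
    funext i
    fin_cases i
    · exact h3
    · show p 1 = q 1
      rw [hp1, hq1]

theorem asInProblem_example (d : ℕ) (hd : 3 ≤ d) :
    AsInProblem d (quadPoly (Polynomial.X ^ d + Polynomial.X)) := by
  obtain ⟨N, rfl⟩ : ∃ N, d = N + 1 := ⟨d - 1, by omega⟩
  have hN1 : ((N : ℂ) + 1) ≠ 0 := Nat.cast_add_one_ne_zero N
  have hN0 : (N : ℂ) ≠ 0 := by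
    have : N ≠ 0 := by omega
    exact_mod_cast this
  have hdeg : (Polynomial.X ^ (N + 1) + Polynomial.X : Polynomial ℂ).natDegree = N + 1 := by
    rw [Polynomial.natDegree_add_eq_left_of_natDegree_lt]
    · simp
    · simp; omega
  have hder : (Polynomial.X ^ (N + 1) + Polynomial.X : Polynomial ℂ).derivative =
      Polynomial.C ((N : ℂ) + 1) * Polynomial.X ^ N + 1 := by
    simp
  have hder2 : (Polynomial.X ^ (N + 1) + Polynomial.X : Polynomial ℂ).derivative.derivative =
      Polynomial.C ((N : ℂ) + 1) * (Polynomial.C (N : ℂ) * Polynomial.X ^ (N - 1)) := by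
    rw [hder]; simp [Polynomial.derivative_X_pow]
  have key := asInProblem_quadPoly (Polynomial.X ^ (N + 1) + Polynomial.X) (by rw [hdeg]; omega)
    (by
      intro x hx
      rw [hder2]
      rw [hder] at hx
      simp only [Polynomial.eval_add, Polynomial.eval_mul, Polynomial.eval_C, Polynomial.eval_pow,
        Polynomial.eval_X, Polynomial.eval_one] at hx ⊢
      have hx0 : x ≠ 0 := by
        rintro rfl
        rw [zero_pow (by omega)] at hx
        simp at hx
      exact mul_ne_zero hN1 (mul_ne_zero hN0 (pow_ne_zero _ hx0)))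
    (by
      intro x y hx hy hxy
      rw [hder] at hx hy
      simp only [Polynomial.eval_add, Polynomial.eval_mul, Polynomial.eval_C, Polynomial.eval_pow,
        Polynomial.eval_X, Polynomial.eval_one] at hx hy hxy
      have e1 : ((N : ℂ) + 1) * x ^ (N + 1) = - x := by
        rw [pow_succ]; linear_combination x * hx
      have e2 : ((N : ℂ) + 1) * y ^ (N + 1) = - y := by
        rw [pow_succ]; linear_combination y * hy
      have e3 : (N : ℂ) * (x - y) = 0 := by
        linear_combination ((N : ℂ) + 1) * hxy - e1 + e2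
      rcases mul_eq_zero.mp e3 with h | h
      · exact absurd h hN0
      · exact sub_eq_zero.mp h)
  rwa [hdeg] at key

/-- Every candidate family is contained in the closure of a logarithmic family. -/
theorem Candidate.subset {d : ℕ} {Z : Set (Fol d)} (hZ : Candidate d Z) :
    ∃ (s : ℕ) (D : Fin s → ℕ), ∑ j, D j ≤ d + 1 ∧ Z ⊆ zariskiClosure (logFamily d D) := by
  rcases hZ with ⟨s, D, hD, hsum, rfl⟩ | ⟨s, D, e, hD, he, hsum, rfl⟩ | ⟨i, hi, rfl⟩ | rfl
  · exact ⟨s, D, hsum.le, subset_rfl⟩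
  · refine ⟨s + 1, Fin.snoc (α := fun _ => ℕ) D e, ?_, ?_⟩
    · rw [Fin.sum_univ_castSucc]
      simp only [Fin.snoc_castSucc, Fin.snoc_last]
      exact hsum.le
    · exact zariskiClosure_subset (isAlgebraic_zariskiClosure _) (expFamily_subset d D e hsum)
  · refine ⟨2, ![1, d], ?_, closure_familyA_subset d i hi⟩
    rw [Fin.sum_univ_two]
    show 1 + d ≤ d + 1
    omega
  · refine ⟨2, ![1, d], ?_, closure_familyB_subset d⟩
    rw [Fin.sum_univ_two]
    show 1 + d ≤ d + 1
    omega

/-- The center locus has an irreducible component through all `F(d(A(x) + y²))` which is not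
contained in the closure of any logarithmic family. -/
theorem exists_new_component (d : ℕ) (hd : 3 ≤ d) : ∃ Z, IsComponent (centerLocus d) Z ∧
    (∀ (s : ℕ) (D : Fin s → ℕ), ∑ j, D j ≤ d + 1 → ¬ Z ⊆ zariskiClosure (logFamily d D)) ∧
    ∀ A : Polynomial ℂ, 2 ≤ A.natDegree → A.natDegree ≤ d → Passes Z (quadPoly A) := by
  have hne : (parSet d (revFam d)).Nonempty := by
    obtain ⟨ω, h, -, hmem⟩ := passes_parSet d (by omega) (Polynomial.X ^ 2) (by simp)
      (by simp; omega)
    exact ⟨_, hmem⟩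
  have hirr := irreducible_parSet d (revFam d) (polyMap_revFam d) (revFam_mem d (by omega)) hne
  have hsub : zariskiClosure (parSet d (revFam d)) ⊆ centerLocus d :=
    zariskiClosure_subset (isAlgebraic_zariskiClosure _) (parSet_revFam_subset d (by omega))
  obtain ⟨Z, hZ, hN⟩ := exists_component (centerLocus d) _ (isAlgebraic_zariskiClosure _) hirr hsub
  refine ⟨Z, hZ, ?_, ?_⟩
  · intro s D hsum hZD
    have h0 : (⟨starForm, starForm_mem d hd⟩ : forms d) ≠ 0 := fun h =>
      starForm_ne_zero (congrArg Subtype.val h)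
    have h1 := starForm_mem_closure d hd ⟨starForm, starForm_mem d hd⟩ h0 rfl
    exact not_mem_closure_logFamily d _ h0 star_injective D hsum (hZD (hN h1))
  · intro A hA2 hA
    exact (passes_parSet d (by omega) A hA2 hA).mono ((subset_zariskiClosure _).trans hN)


end Pool.Agent.H898.Center
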